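import Mathlib

set_option autoImplicit false

namespace Pool.Agent.V11263.Causal

open Matrix
open scoped ComplexOrder

/-- A causal structure: a finite directed acyclic graph whose set of nodes is the disjoint union of
the observed nodes `O` and the unobserved nodes `U`; `edge v w` says that there is an edge from `v`
to `w`. -/
structure CausalStructure where
  O : Type
  U : Type
  [fO : Fintype O]
  [dO : DecidableEq O]
  [fU : Fintype U]
  [dU : DecidableEq U]
  edge : O ⊕ U → O ⊕ U → Prop
  acyclic : ∃ rank : O ⊕ U → ℕ, ∀ v w, edge v w → rank v < rank w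

attribute [instance] CausalStructure.fO CausalStructure.dO CausalStructure.fU CausalStructure.dU

/-- A classical model of the causal structure `C`: every node is a random variable with a finite
alphabet. `P o x l a` is the conditional probability of the value `a` of the observed node `o` and
`R u x l b` that of the value `b` of the unobserved node `u`, given the values `x` of the observed and
`l` of the unobserved nodes; they depend on the values of the parents only. -/
structure ClassicalModel (C : CausalStructure) where
  α : C.O → Type
  β : C.U → Type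
  [fα : ∀ o, Fintype (α o)]
  [nα : ∀ o, Nonempty (α o)]
  [fβ : ∀ u, Fintype (β u)]
  [nβ : ∀ u, Nonempty (β u)]
  P : ∀ o, (∀ o', α o') → (∀ u, β u) → α o → ℝ
  R : ∀ u, (∀ o', α o') → (∀ u', β u') → β u → ℝ
  P_nonneg : ∀ o x l a, 0 ≤ P o x l a
  P_sum : ∀ o x l, ∑ a, P o x l a = 1
  P_local : ∀ o x l x' l', (∀ o', C.edge (Sum.inl o') (Sum.inl o) → x o' = x' o') →
    (∀ u, C.edge (Sum.inr u) (Sum.inl o) → l u = l' u) → P o x l = P o x' l'
  R_nonneg : ∀ u x l b, 0 ≤ R u x l b
  R_sum : ∀ u x l, ∑ b, R u x l b = 1
  R_local : ∀ u x l x' l', (∀ o', C.edge (Sum.inl o') (Sum.inr u) → x o' = x' o') →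
    (∀ u', C.edge (Sum.inr u') (Sum.inr u) → l u' = l' u') → R u x l = R u x' l'

attribute [instance] ClassicalModel.fα ClassicalModel.nα ClassicalModel.fβ ClassicalModel.nβ

/-- The distribution of the observed variables in a classical model: the joint distribution
`∏ P(v | pa(v))` of all nodes, summed over the values of the unobserved nodes. -/
noncomputable def ClassicalModel.dist {C : CausalStructure} (M : ClassicalModel C)
    (x : ∀ o, M.α o) : ℝ :=
  ∑ l : ∀ u, M.β u, (∏ o, M.P o x l (x o)) * ∏ u, M.R u x l (l u)

/-- A quantum model of the causal structure `C`. Observed nodes are random variables with finite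
alphabets `α o`. The system sent from the unobserved node `u` along the edge to the observed node
`o` is `ℂ^(I u o)`, that sent to the unobserved node `u'` is `ℂ^(J u u')`; where there is no edge
these spaces are one-dimensional. The unobserved node `u` is prepared by a quantum channel from the
systems it receives to the systems it sends out, chosen according to the values of its observed
parents and given by Kraus operators `K u x k`. The observed node `o` is the outcome of the POVM
`E o x`, chosen according to the values of the observed parents of `o`, on the systems `o`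
receives. -/
structure QuantumModel (C : CausalStructure) where
  α : C.O → Type
  I : C.U → C.O → Type
  J : C.U → C.U → Type
  κ : C.U → Type
  [fα : ∀ o, Fintype (α o)]
  [nα : ∀ o, Nonempty (α o)]
  [fI : ∀ u o, Fintype (I u o)]
  [dI : ∀ u o, DecidableEq (I u o)]
  [fJ : ∀ u u', Fintype (J u u')]
  [dJ : ∀ u u', DecidableEq (J u u')]
  [fκ : ∀ u, Fintype (κ u)]
  I_trivial : ∀ u o, ¬ C.edge (Sum.inr u) (Sum.inl o) → Fintype.card (I u o) = 1
  J_trivial : ∀ u u', ¬ C.edge (Sum.inr u) (Sum.inr u') → Fintype.card (J u u') = 1
  K : ∀ u, (∀ o, α o) → κ u → Matrix ((∀ o, I u o) × (∀ u', J u u')) (∀ u', J u' u) ℂ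
  K_sum : ∀ u x, ∑ k, (K u x k)ᴴ * K u x k = 1
  K_local : ∀ u x x', (∀ o, C.edge (Sum.inl o) (Sum.inr u) → x o = x' o) → K u x = K u x'
  E : ∀ o, (∀ o', α o') → α o → Matrix (∀ u, I u o) (∀ u, I u o) ℂ
  E_posSemidef : ∀ o x a, (E o x a).PosSemidef
  E_sum : ∀ o x, ∑ a, E o x a = 1
  E_local : ∀ o x x', (∀ o', C.edge (Sum.inl o') (Sum.inl o) → x o' = x' o') → E o x = E o x'

attribute [instance] QuantumModel.fα QuantumModel.nα QuantumModel.fI QuantumModel.dI
  QuantumModel.fJ QuantumModel.dJ QuantumModel.fκ

/-- The distribution of the observed variables in a quantum model (Born rule): contraction of the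
Kraus operators (once for the ket indices `i, j`, once, conjugated, for the bra indices `i', j'`) with
the POVM elements. -/
noncomputable def QuantumModel.dist {C : CausalStructure} (M : QuantumModel C)
    (x : ∀ o, M.α o) : ℝ :=
  (∑ i : ∀ u o, M.I u o, ∑ i' : ∀ u o, M.I u o, ∑ j : ∀ u u', M.J u u', ∑ j' : ∀ u u', M.J u u',
    (∏ u, ∑ k, M.K u x k (i u, j u) (fun u' => j u' u) *
      star (M.K u x k (i' u, j' u) (fun u' => j' u' u))) *
    ∏ o, M.E o x (x o) (fun u => i' u o) (fun u => i u o)).re

section entropy
variable {O : Type} [Fintype O] [DecidableEq O] {α : O → Type} [∀ o, Fintype (α o)]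

open Classical in
/-- marginal distribution of the variables in `S` -/
noncomputable def marginal (q : (∀ o, α o) → ℝ) (S : Finset O) (y : ∀ o : S, α o) : ℝ :=
  ∑ x : ∀ o, α o, if (fun o : S => x o) = y then q x else 0

/-- Shannon entropy (in bits) of the variables in `S` -/
noncomputable def entropy (q : (∀ o, α o) → ℝ) (S : Finset O) : ℝ :=
  (∑ y : ∀ o : S, α o, Real.negMulLog (marginal q S y)) / Real.log 2

/-- the entropy vector: the Shannon entropies of all nonempty sets of variables -/
noncomputable def entropyVector (q : (∀ o, α o) → ℝ) : {S : Finset O // S.Nonempty} → ℝ :=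
  fun S => entropy q S

end entropy

/-- the entropy vectors of the observed variables in the classical models of `C` -/
def classicalEntropySet (C : CausalStructure) : Set ({S : Finset C.O // S.Nonempty} → ℝ) :=
  {v | ∃ M : ClassicalModel C, v = entropyVector M.dist}

/-- the entropy vectors of the observed variables in the quantum models of `C` -/
def quantumEntropySet (C : CausalStructure) : Set ({S : Finset C.O // S.Nonempty} → ℝ) :=
  {v | ∃ M : QuantumModel C, v = entropyVector M.dist}

end Pool.Agent.V11263.Causal
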