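import Mathlib

set_option autoImplicit false

namespace Pool.Agent.V11263.Ent

open Finset

variable {Ω : Type*} [Fintype Ω]

open Classical in
/-- probability that the random variable `F` takes the value `b` -/
noncomputable def ms {β : Type*} (q : Ω → ℝ) (F : Ω → β) (b : β) : ℝ :=
  ∑ ω, if F ω = b then q ω else 0

/-- surprisal of the random variable `F` -/
noncomputable def sur {β : Type*} (q : Ω → ℝ) (F : Ω → β) (ω : Ω) : ℝ := -Real.log (ms q F (F ω))

/-- entropy (natural logarithm) of the random variable `F` -/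
noncomputable def ent {β : Type*} (q : Ω → ℝ) (F : Ω → β) : ℝ := ∑ ω, q ω * sur q F ω

/-- `L¹` norm -/
noncomputable def nrm (q : Ω → ℝ) (g : Ω → ℝ) : ℝ := ∑ ω, q ω * |g ω|

section basic
variable {β γ δ κ : Type*} {q : Ω → ℝ}

lemma ms_nonneg (h0 : ∀ ω, 0 ≤ q ω) (F : Ω → β) (b : β) : 0 ≤ ms q F b := by
  unfold ms
  exact Finset.sum_nonneg fun ω _ => by split_ifs <;> simp [h0]

lemma le_ms (h0 : ∀ ω, 0 ≤ q ω) (F : Ω → β) (ω : Ω) : q ω ≤ ms q F (F ω) := by
  classical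
  unfold ms
  have := Finset.single_le_sum (f := fun ω' => if F ω' = F ω then q ω' else 0)
    (fun ω' _ => by split_ifs <;> simp [h0]) (Finset.mem_univ ω)
  simpa using this

lemma ms_pos (h0 : ∀ ω, 0 ≤ q ω) (F : Ω → β) {ω : Ω} (h : 0 < q ω) : 0 < ms q F (F ω) :=
  h.trans_le (le_ms h0 F ω)

lemma ms_mono (h0 : ∀ ω, 0 ≤ q ω) (F : Ω → β) (G : Ω → γ)
    (h : ∀ ω ω', G ω' = G ω → F ω' = F ω) (ω : Ω) : ms q G (G ω) ≤ ms q F (F ω) := by
  unfold ms
  apply Finset.sum_le_sum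
  intro ω' _
  by_cases h1 : G ω' = G ω
  · rw [if_pos h1, if_pos (h ω ω' h1)]
  · rw [if_neg h1]
    split_ifs
    · exact h0 _
    · exact le_rfl

lemma ms_le_one (h0 : ∀ ω, 0 ≤ q ω) (h1 : ∑ ω, q ω = 1) (F : Ω → β) (b : β) : ms q F b ≤ 1 := by
  rw [← h1]
  unfold ms
  apply Finset.sum_le_sum
  intro ω' _
  split_ifs
  · exact le_rfl
  · exact h0 _

lemma sum_ms [Fintype β] (F : Ω → β) (φ : β → ℝ) : ∑ b, ms q F b * φ b = ∑ ω, q ω * φ (F ω) := by
  classical
  unfold ms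
  simp_rw [Finset.sum_mul]
  rw [Finset.sum_comm]
  apply Finset.sum_congr rfl
  intro ω _
  simp [ite_mul]

lemma sum_ms_one [Fintype β] (h1 : ∑ ω, q ω = 1) (F : Ω → β) : ∑ b, ms q F b = 1 := by
  have := sum_ms (q := q) F (fun _ => 1)
  simpa [h1] using this

lemma sum_ms_fst [Fintype β] (F : Ω → β) (K : Ω → κ) (k : κ) :
    ∑ b, ms q (fun ω => (F ω, K ω)) (b, k) = ms q K k := by
  classical
  unfold ms
  rw [Finset.sum_comm]
  apply Finset.sum_congr rfl
  intro ω _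
  simp only [Prod.mk.injEq]
  by_cases h : K ω = k
  · simp [h]
  · simp [h]

lemma sur_congr (F : Ω → β) (G : Ω → γ) (h : ∀ ω ω', G ω' = G ω ↔ F ω' = F ω) :
    sur q G = sur q F := by
  funext ω
  unfold sur ms
  congr 2
  apply Finset.sum_congr rfl
  intro ω' _
  by_cases h2 : F ω' = F ω
  · rw [if_pos h2, if_pos ((h ω ω').mpr h2)]
  · rw [if_neg h2, if_neg (fun h3 => h2 ((h ω ω').mp h3))]

lemma ent_congr (F : Ω → β) (G : Ω → γ) (h : ∀ ω ω', G ω' = G ω ↔ F ω' = F ω) :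
    ent q G = ent q F := by
  unfold ent
  rw [sur_congr F G h]

lemma nrm_nonneg (h0 : ∀ ω, 0 ≤ q ω) (g : Ω → ℝ) : 0 ≤ nrm q g :=
  Finset.sum_nonneg fun ω _ => mul_nonneg (h0 ω) (abs_nonneg _)

lemma nrm_add_le (h0 : ∀ ω, 0 ≤ q ω) (f g : Ω → ℝ) :
    nrm q (fun ω => f ω + g ω) ≤ nrm q f + nrm q g := by
  unfold nrm
  rw [← Finset.sum_add_distrib]
  apply Finset.sum_le_sum
  intro ω _
  rw [← mul_add]
  exact mul_le_mul_of_nonneg_left (abs_add_le _ _) (h0 ω)

lemma nrm_neg (g : Ω → ℝ) : nrm q (fun ω => -g ω) = nrm q g := by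
  simp [nrm]

/-- surprisals increase under refinement -/
lemma sur_le (h0 : ∀ ω, 0 ≤ q ω) (F : Ω → β) (G : Ω → γ)
    (h : ∀ ω ω', G ω' = G ω → F ω' = F ω) {ω : Ω} (hω : 0 < q ω) : sur q F ω ≤ sur q G ω := by
  unfold sur
  rw [neg_le_neg_iff]
  exact Real.log_le_log (ms_pos h0 G hω) (ms_mono h0 F G h ω)

lemma sur_nonneg (h0 : ∀ ω, 0 ≤ q ω) (h1 : ∑ ω, q ω = 1) (F : Ω → β) (ω : Ω) :
    0 ≤ sur q F ω := by
  unfold sur
  rw [neg_nonneg]
  exact Real.log_nonpos (ms_nonneg h0 _ _) (ms_le_one h0 h1 _ _)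

lemma nrm_refine (h0 : ∀ ω, 0 ≤ q ω) (F : Ω → β) (G : Ω → γ)
    (h : ∀ ω ω', G ω' = G ω → F ω' = F ω) :
    nrm q (fun ω => sur q G ω - sur q F ω) = ent q G - ent q F := by
  unfold nrm ent
  rw [← Finset.sum_sub_distrib]
  apply Finset.sum_congr rfl
  intro ω _
  rcases (h0 ω).eq_or_lt with h2 | h2
  · rw [← h2]; ring
  · rw [abs_of_nonneg (sub_nonneg.mpr (sur_le h0 F G h h2))]; ring

end basic

section mutinf
variable {β γ κ : Type*} [Fintype β] [Fintype γ] [Fintype κ] {q : Ω → ℝ}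

/-- the likelihood ratio -/
noncomputable def rat (q : Ω → ℝ) (F : Ω → β) (G : Ω → γ) (K : Ω → κ) (ω : Ω) : ℝ :=
  ms q (fun ω => (F ω, K ω)) (F ω, K ω) * ms q (fun ω => (G ω, K ω)) (G ω, K ω) /
    (ms q K (K ω) * ms q (fun ω => (F ω, G ω, K ω)) (F ω, G ω, K ω))

lemma sum_rat (h0 : ∀ ω, 0 ≤ q ω) (h1 : ∑ ω, q ω = 1) (F : Ω → β) (G : Ω → γ) (K : Ω → κ) :
    ∑ ω, q ω * rat q F G K ω ≤ 1 := by
  have e := sum_ms (q := q) (fun ω => (F ω, G ω, K ω)) (fun t =>
    ms q (fun ω => (F ω, K ω)) (t.1, t.2.2) * ms q (fun ω => (G ω, K ω)) (t.2.1, t.2.2) /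
    (ms q K t.2.2 * ms q (fun ω => (F ω, G ω, K ω)) t))
  have e2 : ∑ ω, q ω * rat q F G K ω = ∑ ω, q ω *
      (ms q (fun ω => (F ω, K ω)) (F ω, K ω) * ms q (fun ω => (G ω, K ω)) (G ω, K ω) /
    (ms q K (K ω) * ms q (fun ω => (F ω, G ω, K ω)) (F ω, G ω, K ω))) := rfl
  rw [e2, ← e]
  calc _ ≤ ∑ t : β × γ × κ, ms q (fun ω => (F ω, K ω)) (t.1, t.2.2) *
        ms q (fun ω => (G ω, K ω)) (t.2.1, t.2.2) / ms q K t.2.2 := by
        apply Finset.sum_le_sum
        intro t _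
        rcases (ms_nonneg h0 (fun ω => (F ω, G ω, K ω)) t).eq_or_lt with h | h
        · rw [← h, zero_mul]
          exact div_nonneg (mul_nonneg (ms_nonneg h0 _ _) (ms_nonneg h0 _ _)) (ms_nonneg h0 _ _)
        · rw [mul_div_assoc', mul_comm (ms q (fun ω => (F ω, G ω, K ω)) t), mul_div_mul_right _ _ h.ne']
    _ = ∑ k, (∑ b, ms q (fun ω => (F ω, K ω)) (b, k)) * (∑ g, ms q (fun ω => (G ω, K ω)) (g, k)) /
          ms q K k := by
        rw [Fintype.sum_prod_type]
        simp_rw [Fintype.sum_prod_type]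
        have : ∀ b : β, (∑ g : γ, ∑ k : κ, ms q (fun ω => (F ω, K ω)) (b, k) *
            ms q (fun ω => (G ω, K ω)) (g, k) / ms q K k) =
            ∑ k : κ, ∑ g : γ, ms q (fun ω => (F ω, K ω)) (b, k) *
            ms q (fun ω => (G ω, K ω)) (g, k) / ms q K k := fun b => Finset.sum_comm
        simp_rw [this]
        rw [Finset.sum_comm]
        apply Finset.sum_congr rfl
        intro k _
        rw [Finset.sum_mul_sum, Finset.sum_div]
        apply Finset.sum_congr rfl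
        intro b _
        rw [Finset.sum_div]
    _ = ∑ k, ms q K k * ms q K k / ms q K k := by
        apply Finset.sum_congr rfl
        intro k _
        rw [sum_ms_fst, sum_ms_fst]
    _ = ∑ k, ms q K k := by
        apply Finset.sum_congr rfl
        intro k _
        rcases eq_or_ne (ms q K k) 0 with h | h
        · simp [h]
        · field_simp
    _ = 1 := sum_ms_one h1 K

/-- conditional mutual information -/
noncomputable def cmi (q : Ω → ℝ) (F : Ω → β) (G : Ω → γ) (K : Ω → κ) : ℝ :=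
  ent q (fun ω => (F ω, K ω)) + ent q (fun ω => (G ω, K ω)) - ent q (fun ω => (F ω, G ω, K ω)) -
    ent q K

lemma nrm_cmi (h0 : ∀ ω, 0 ≤ q ω) (h1 : ∑ ω, q ω = 1) (F : Ω → β) (G : Ω → γ) (K : Ω → κ) :
    nrm q (fun ω => sur q (fun ω => (F ω, K ω)) ω + sur q (fun ω => (G ω, K ω)) ω -
      sur q (fun ω => (F ω, G ω, K ω)) ω - sur q K ω) ≤
      cmi q F G K + 4 * Real.sqrt (cmi q F G K) := by
  obtain ⟨t, ht⟩ : ∃ t, t = rat q F G K := ⟨_, rfl⟩
  have ht0 : ∀ ω, 0 < q ω → 0 < t ω := by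
    intro ω hω
    rw [ht]
    unfold rat
    apply div_pos <;> apply mul_pos
    · exact ms_pos h0 (fun ω => (F ω, K ω)) hω
    · exact ms_pos h0 (fun ω => (G ω, K ω)) hω
    · exact ms_pos h0 K hω
    · exact ms_pos h0 (fun ω => (F ω, G ω, K ω)) hω
  have hi : ∀ ω, 0 < q ω → sur q (fun ω => (F ω, K ω)) ω + sur q (fun ω => (G ω, K ω)) ω -
      sur q (fun ω => (F ω, G ω, K ω)) ω - sur q K ω = -Real.log (t ω) := by
    intro ω hω
    rw [ht]
    unfold rat sur
    have p1 := ms_pos h0 (fun ω => (F ω, K ω)) hω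
    have p2 := ms_pos h0 (fun ω => (G ω, K ω)) hω
    have p3 := ms_pos h0 K hω
    have p4 := ms_pos h0 (fun ω => (F ω, G ω, K ω)) hω
    rw [Real.log_div (mul_pos p1 p2).ne' (mul_pos p3 p4).ne', Real.log_mul p1.ne' p2.ne',
      Real.log_mul p3.ne' p4.ne']
    ring
  have hI : cmi q F G K = ∑ ω, q ω * (-Real.log (t ω)) := by
    unfold cmi ent
    rw [← Finset.sum_add_distrib, ← Finset.sum_sub_distrib, ← Finset.sum_sub_distrib]
    apply Finset.sum_congr rfl
    intro ω _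
    rcases (h0 ω).eq_or_lt with h2 | h2
    · rw [← h2]; ring
    · rw [← hi ω h2]; ring
  have hN : nrm q (fun ω => sur q (fun ω => (F ω, K ω)) ω + sur q (fun ω => (G ω, K ω)) ω -
      sur q (fun ω => (F ω, G ω, K ω)) ω - sur q K ω) = ∑ ω, q ω * |Real.log (t ω)| := by
    unfold nrm
    apply Finset.sum_congr rfl
    intro ω _
    rcases (h0 ω).eq_or_lt with h2 | h2
    · rw [← h2]; ring
    · simp only [hi ω h2, abs_neg]
  rw [hN]
  obtain ⟨I, hIdef⟩ : ∃ I, I = cmi q F G K := ⟨_, rfl⟩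
  rw [← hIdef] at hI ⊢
  have hsum : ∑ ω, q ω * t ω ≤ 1 := by rw [ht]; exact sum_rat h0 h1 F G K
  -- Hellinger bound
  have hH : ∑ ω, q ω * (Real.sqrt (t ω) - 1) ^ 2 ≤ I := by
    have e1 : ∑ ω, q ω * (Real.sqrt (t ω) - 1) ^ 2 =
        ∑ ω, q ω * t ω + ∑ ω, q ω - ∑ ω, q ω * (2 * Real.sqrt (t ω)) := by
      rw [← Finset.sum_add_distrib, ← Finset.sum_sub_distrib]
      apply Finset.sum_congr rfl
      intro ω _
      rcases (h0 ω).eq_or_lt with h2 | h2
      · rw [← h2]; ring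
      · have := Real.sq_sqrt (ht0 ω h2).le
        linear_combination (q ω) * this
    have e2 : 2 - ∑ ω, q ω * (2 * Real.sqrt (t ω)) ≤ I := by
      have e3 : 2 - ∑ ω, q ω * (2 * Real.sqrt (t ω)) = ∑ ω, q ω * (2 - 2 * Real.sqrt (t ω)) := by
        simp_rw [mul_sub]
        rw [Finset.sum_sub_distrib, ← Finset.sum_mul, h1]
        ring
      rw [e3, hI]
      apply Finset.sum_le_sum
      intro ω _
      rcases (h0 ω).eq_or_lt with h2 | h2
      · rw [← h2]; simp
      · apply mul_le_mul_of_nonneg_left _ (h0 ω)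
        have h3 : 0 < Real.sqrt (t ω) := Real.sqrt_pos.mpr (ht0 ω h2)
        have h4 := Real.log_le_sub_one_of_pos h3
        have h5 : Real.log (t ω) = 2 * Real.log (Real.sqrt (t ω)) := by
          rw [Real.log_sqrt (ht0 ω h2).le]; ring
        rw [h5]
        linarith
    rw [e1, h1]
    linarith
  have hI0 : 0 ≤ I := le_trans (Finset.sum_nonneg fun ω _ => mul_nonneg (h0 ω) (sq_nonneg _)) hH
  have hH2 : ∑ ω, q ω * (Real.sqrt (t ω) + 1) ^ 2 ≤ 4 := by
    have : ∑ ω, q ω * (Real.sqrt (t ω) + 1) ^ 2 ≤ ∑ ω, (2 * (q ω * t ω) + 2 * q ω) := by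
      apply Finset.sum_le_sum
      intro ω _
      rcases (h0 ω).eq_or_lt with h2 | h2
      · rw [← h2]; simp
      · have h3 := Real.sq_sqrt (ht0 ω h2).le
        have h4 : (Real.sqrt (t ω) + 1) ^ 2 ≤ 2 * t ω + 2 := by
          nlinarith [sq_nonneg (Real.sqrt (t ω) - 1)]
        nlinarith
    refine this.trans ?_
    rw [Finset.sum_add_distrib, ← Finset.mul_sum, ← Finset.mul_sum, h1]
    linarith
  have hneg : ∑ ω, q ω * |t ω - 1| ≤ 2 * Real.sqrt I := by
    have hcs := Finset.sum_mul_sq_le_sq_mul_sq (Finset.univ : Finset Ω)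
      (fun ω => Real.sqrt (q ω) * |Real.sqrt (t ω) - 1|) (fun ω => Real.sqrt (q ω) * (Real.sqrt (t ω) + 1))
    have f1 : ∑ ω, (Real.sqrt (q ω) * |Real.sqrt (t ω) - 1|) * (Real.sqrt (q ω) * (Real.sqrt (t ω) + 1))
        = ∑ ω, q ω * |t ω - 1| := by
      apply Finset.sum_congr rfl
      intro ω _
      rcases (h0 ω).eq_or_lt with h2 | h2
      · rw [← h2]; simp
      · have h3 := Real.mul_self_sqrt (h0 ω)
        have h4 := Real.sq_sqrt (ht0 ω h2).le
        have h5 : |t ω - 1| = |Real.sqrt (t ω) - 1| * (Real.sqrt (t ω) + 1) := by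
          have h6 : t ω - 1 = (Real.sqrt (t ω) - 1) * (Real.sqrt (t ω) + 1) := by
            linear_combination -h4
          have h7 : 0 ≤ Real.sqrt (t ω) + 1 := by positivity
          rw [h6, abs_mul, abs_of_nonneg h7]
        rw [h5]
        linear_combination (|Real.sqrt (t ω) - 1| * (Real.sqrt (t ω) + 1)) * h3
    have f2 : ∑ ω, (Real.sqrt (q ω) * |Real.sqrt (t ω) - 1|) ^ 2 ≤ I := by
      refine le_trans (le_of_eq ?_) hH
      apply Finset.sum_congr rfl
      intro ω _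
      rw [mul_pow, Real.sq_sqrt (h0 ω), sq_abs]
    have f3 : ∑ ω, (Real.sqrt (q ω) * (Real.sqrt (t ω) + 1)) ^ 2 ≤ 4 := by
      refine le_trans (le_of_eq ?_) hH2
      apply Finset.sum_congr rfl
      intro ω _
      rw [mul_pow, Real.sq_sqrt (h0 ω)]
    rw [f1] at hcs
    have f4 : (∑ ω, q ω * |t ω - 1|) ^ 2 ≤ I * 4 := by
      refine hcs.trans ?_
      apply mul_le_mul f2 f3 _ hI0
      exact Finset.sum_nonneg fun ω _ => sq_nonneg _
    have f5 : (∑ ω, q ω * |t ω - 1|) ^ 2 ≤ (2 * Real.sqrt I) ^ 2 := by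
      rw [mul_pow, Real.sq_sqrt hI0]; linarith
    exact (abs_le_of_sq_le_sq' f5 (by positivity)).2
  -- conclusion
  have hfin : ∑ ω, q ω * |Real.log (t ω)| ≤ ∑ ω, (q ω * (-Real.log (t ω)) + 2 * (q ω * |t ω - 1|)) := by
    apply Finset.sum_le_sum
    intro ω _
    rcases (h0 ω).eq_or_lt with h2 | h2
    · rw [← h2]; simp
    · have h3 := Real.log_le_sub_one_of_pos (ht0 ω h2)
      have h4 := le_abs_self (t ω - 1)
      have h5 := abs_nonneg (t ω - 1)
      rcases abs_cases (Real.log (t ω)) with ⟨h6, h7⟩ | ⟨h6, h7⟩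
      · rw [h6]
        nlinarith
      · rw [h6]
        nlinarith
  refine hfin.trans ?_
  rw [Finset.sum_add_distrib, ← hI, ← Finset.mul_sum]
  linarith

lemma cmi_nonneg (h0 : ∀ ω, 0 ≤ q ω) (h1 : ∑ ω, q ω = 1) (F : Ω → β) (G : Ω → γ) (K : Ω → κ)
    : 0 ≤ cmi q F G K := by
  by_contra h
  push Not at h
  have h2 := nrm_cmi h0 h1 F G K
  rw [Real.sqrt_eq_zero_of_nonpos h.le] at h2
  have h3 := nrm_nonneg h0 (fun ω => sur q (fun ω => (F ω, K ω)) ω + sur q (fun ω => (G ω, K ω)) ω -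
      sur q (fun ω => (F ω, G ω, K ω)) ω - sur q K ω)
  linarith

end mutinf

section indp
variable {β γ : Type*} [Fintype β] [Fintype γ] {q : Ω → ℝ}

lemma nrm_indep (h0 : ∀ ω, 0 ≤ q ω) (h1 : ∑ ω, q ω = 1) (X : Ω → β) (Y : Ω → γ)
    (hi : ∀ x y, ms q (fun ω => (X ω, Y ω)) (x, y) = ms q X x * ms q Y y) :
    nrm q (fun ω => sur q X ω - ent q Y) ≤ nrm q (fun ω => sur q X ω - sur q Y ω) := by
  have e1 : nrm q (fun ω => sur q X ω - ent q Y) =
      ∑ x, ms q X x * |(-Real.log (ms q X x)) - ent q Y| := by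
    rw [sum_ms X (fun x => |(-Real.log (ms q X x)) - ent q Y|)]
    rfl
  have e2 : nrm q (fun ω => sur q X ω - sur q Y ω) =
      ∑ x, ∑ y, ms q X x * ms q Y y * |(-Real.log (ms q X x)) - (-Real.log (ms q Y y))| := by
    have := sum_ms (q := q) (fun ω => (X ω, Y ω))
      (fun t => |(-Real.log (ms q X t.1)) - (-Real.log (ms q Y t.2))|)
    rw [Fintype.sum_prod_type] at this
    simp only [hi] at this
    rw [this]
    rfl
  have e3 : ent q Y = ∑ y, ms q Y y * (-Real.log (ms q Y y)) := by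
    rw [sum_ms Y (fun y => -Real.log (ms q Y y))]
    rfl
  rw [e1, e2]
  apply Finset.sum_le_sum
  intro x _
  have e4 : (-Real.log (ms q X x)) - ent q Y =
      ∑ y, ms q Y y * ((-Real.log (ms q X x)) - (-Real.log (ms q Y y))) := by
    simp_rw [mul_sub]
    rw [Finset.sum_sub_distrib, ← Finset.sum_mul, sum_ms_one h1, e3, one_mul]
  rw [e4]
  calc ms q X x * |∑ y, ms q Y y * ((-Real.log (ms q X x)) - (-Real.log (ms q Y y)))|
      ≤ ms q X x * ∑ y, |ms q Y y * ((-Real.log (ms q X x)) - (-Real.log (ms q Y y)))| :=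
        mul_le_mul_of_nonneg_left (Finset.abs_sum_le_sum_abs _ _) (ms_nonneg h0 _ _)
    _ = _ := by
        rw [Finset.mul_sum]
        apply Finset.sum_congr rfl
        intro y _
        rw [abs_mul, abs_of_nonneg (ms_nonneg h0 Y y), mul_assoc]

end indp

section atoms
variable {β : Type*} [Fintype β] {q : Ω → ℝ}

/-- For a variable whose surprisal is close to `log 2` there are two values of probability close to
one half. -/
lemma exists_atoms (h0 : ∀ ω, 0 ≤ q ω) (h1 : ∑ ω, q ω = 1) (X : Ω → β) {δ : ℝ}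
    (hδ : nrm q (fun ω => sur q X ω - Real.log 2) ≤ δ) (hδ' : δ < 1 / 50) :
    ∃ b c : β, b ≠ c ∧ |ms q X b - 1 / 2| ≤ 4 * δ ∧ |ms q X c - 1 / 2| ≤ 4 * δ := by
  classical
  have e1 : nrm q (fun ω => sur q X ω - Real.log 2) =
      ∑ x, ms q X x * |(-Real.log (ms q X x)) - Real.log 2| := by
    rw [sum_ms X (fun x => |(-Real.log (ms q X x)) - Real.log 2|)]
    rfl
  rw [e1] at hδ
  have hterm : ∀ x, ms q X x * |(-Real.log (ms q X x)) - Real.log 2| ≤ δ := fun x =>
    le_trans (Finset.single_le_sum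
      (f := fun x => ms q X x * |(-Real.log (ms q X x)) - Real.log 2|)
      (fun x _ => mul_nonneg (ms_nonneg h0 _ _) (abs_nonneg _)) (Finset.mem_univ x)) hδ
  have hl2 : (0.69 : ℝ) ≤ Real.log 2 := by
    have := Real.log_two_gt_d9
    linarith
  have hbig : ∀ x, 1 / 4 ≤ ms q X x → |ms q X x - 1 / 2| ≤ 4 * δ := by
    intro x hx
    have h2 := hterm x
    obtain ⟨p, hp⟩ : ∃ p, p = ms q X x := ⟨_, rfl⟩
    rw [← hp] at hx h2 ⊢
    have hp0 : 0 < p := by linarith
    have hp1 : p ≤ 1 := by rw [hp]; exact ms_le_one h0 h1 _ _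
    have h3 : -Real.log p - Real.log 2 = -Real.log (2 * p) := by
      rw [Real.log_mul (by norm_num) hp0.ne']; ring
    rw [h3, abs_neg] at h2
    have h4 : |2 * p - 1| / 2 ≤ |Real.log (2 * p)| := by
      rcases le_total 1 (2 * p) with h | h
      · rw [abs_of_nonneg (by linarith), abs_of_nonneg (Real.log_nonneg h)]
        have h5 := Real.one_sub_inv_le_log_of_pos (by linarith : 0 < 2 * p)
        have h6 : (2 * p - 1) / 2 ≤ 1 - (2 * p)⁻¹ := by
          rw [show 1 - (2 * p)⁻¹ = (2 * p - 1) / (2 * p) by field_simp]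
          apply div_le_div_of_nonneg_left <;> linarith
        linarith
      · rw [abs_of_nonpos (by linarith), abs_of_nonpos (Real.log_nonpos (by linarith) h)]
        have h5 := Real.log_le_sub_one_of_pos (by linarith : 0 < 2 * p)
        linarith
    have h5 : 1 / 4 * (|2 * p - 1| / 2) ≤ p * |Real.log (2 * p)| := by
      apply mul_le_mul hx h4 (by positivity) hp0.le
    have h6 : |2 * p - 1| = 2 * |p - 1 / 2| := by
      rw [show 2 * p - 1 = 2 * (p - 1 / 2) by ring, abs_mul]; norm_num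
    rw [h6] at h5
    linarith
  obtain ⟨L, hL⟩ : ∃ L, L = Finset.univ.filter (fun x => 1 / 4 ≤ ms q X x) := ⟨_, rfl⟩
  have hout : ∑ x ∈ Finset.univ.filter (fun x => ¬ (1 / 4 ≤ ms q X x)), ms q X x ≤ 2 * δ := by
    have h2 : ∑ x ∈ Finset.univ.filter (fun x => ¬ (1 / 4 ≤ ms q X x)), ms q X x * 0.69 ≤ δ := by
      refine le_trans ?_ hδ
      have hsub : ∑ x ∈ Finset.univ.filter (fun x => ¬ (1 / 4 ≤ ms q X x)),
          ms q X x * |(-Real.log (ms q X x)) - Real.log 2| ≤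
          ∑ x, ms q X x * |(-Real.log (ms q X x)) - Real.log 2| :=
        Finset.sum_le_sum_of_subset_of_nonneg (Finset.filter_subset _ _)
          (fun x _ _ => mul_nonneg (ms_nonneg h0 _ _) (abs_nonneg _))
      refine le_trans ?_ hsub
      apply Finset.sum_le_sum
      intro x hx
      rw [Finset.mem_filter] at hx
      have hx' := hx.2
      push Not at hx'
      rcases (ms_nonneg h0 X x).eq_or_lt with h3 | h3
      · rw [← h3]; simp
      · apply mul_le_mul_of_nonneg_left _ h3.le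
        have h4 : Real.log (ms q X x) ≤ Real.log (1 / 4) := Real.log_le_log h3 hx'.le
        have h5 : Real.log (1 / 4) = -(2 * Real.log 2) := by
          rw [one_div, Real.log_inv, show (4 : ℝ) = 2 ^ 2 by norm_num, Real.log_pow]
          norm_num
        rw [abs_of_nonneg (by linarith)]
        linarith
    rw [← Finset.sum_mul] at h2
    have h3 : 0 ≤ ∑ x ∈ Finset.univ.filter (fun x => ¬ (1 / 4 ≤ ms q X x)), ms q X x :=
      Finset.sum_nonneg fun x _ => ms_nonneg h0 _ _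
    linarith
  have htot : ∑ x ∈ L, ms q X x + ∑ x ∈ Finset.univ.filter (fun x => ¬ (1 / 4 ≤ ms q X x)), ms q X x
      = 1 := by
    rw [hL, Finset.sum_filter_add_sum_filter_not, sum_ms_one h1]
  have hcard : 1 < L.card := by
    by_contra hc
    push Not at hc
    have h2 : ∑ x ∈ L, ms q X x ≤ 1 / 2 + 4 * δ := by
      have hδ0 : 0 ≤ δ := le_trans (Finset.sum_nonneg
        fun x _ => mul_nonneg (ms_nonneg h0 _ _) (abs_nonneg _)) hδ
      rcases Finset.eq_empty_or_nonempty L with h | ⟨x, hx⟩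
      · rw [h]; simp; linarith
      · have h : L = {x} := Finset.eq_singleton_iff_unique_mem.mpr
          ⟨hx, fun y hy => Finset.card_le_one.mp hc y hy x hx⟩
        rw [h, Finset.sum_singleton]
        have h3 : x ∈ L := hx
        rw [hL, Finset.mem_filter] at h3
        have h4 := (abs_le.mp (hbig x h3.2)).2
        linarith
    linarith
  obtain ⟨b, hb, c, hc, hbc⟩ := Finset.one_lt_card.mp hcard
  rw [hL, Finset.mem_filter] at hb hc
  exact ⟨b, c, hbc, hbig b hb.2, hbig c hc.2⟩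

end atoms

end Pool.Agent.V11263.Ent
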