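import Mathlib
import Pool.Agent.V11263.EntA

set_option autoImplicit false

namespace Pool.Agent.V11263.Ent

open Finset Filter Topology

/-- the observed nodes -/
inductive Obs
  | X | Y | Z | A | B | C | D
  deriving DecidableEq, Fintype

open Obs

/-- the points `(x, y, a, b)` parametrising the support of the quantum distribution -/
abbrev Wt := Bool × Bool × Bool × Bool

/-- the values of the observed variables at `(x, y, a, b)` -/
def pt (w : Wt) : Obs → Bool
  | X => w.1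
  | Y => w.2.1
  | Z => xor w.1 w.2.1
  | A => w.2.2.1
  | B => w.2.2.2
  | C => xor w.2.2.1 (xor w.2.2.2 (w.1 || w.2.1))
  | D => xor w.2.2.1 w.2.1

/-- size of the fibre of the coordinates in `s` -/
def cnt (s : Finset Obs) (w : Wt) : ℕ :=
  (Finset.univ.filter fun w' : Wt => ∀ v ∈ s, pt w' v = pt w v).card

/-- the entropies of the quantum distribution -/
noncomputable def Vq (s : Finset Obs) : ℝ := (1 / 16) * ∑ w : Wt, Real.log (16 / cnt s w)

lemma Vq_eq (s : Finset Obs) (k : ℕ) (h : ∀ w, cnt s w * 2 ^ k = 16) : Vq s = k * Real.log 2 := by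
  unfold Vq
  have : ∀ w : Wt, Real.log (16 / cnt s w) = k * Real.log 2 := by
    intro w
    have h1 : ((cnt s w : ℕ) : ℝ) * 2 ^ k = 16 := by exact_mod_cast h w
    have h2 : ((cnt s w : ℕ) : ℝ) ≠ 0 := by
      intro h0
      rw [h0] at h1
      norm_num at h1
    rw [← h1, mul_div_cancel_left₀ _ h2, Real.log_pow]
  simp only [this, Finset.sum_const, Finset.card_univ]
  have : Fintype.card Wt = 16 := by decide
  rw [this]
  simp

set_option maxRecDepth 100000 in
lemma cnt_tab1 :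
    (∀ w, cnt ∅ w * 2 ^ 0 = 16) ∧ (∀ w, cnt {X} w * 2 ^ 1 = 16) ∧ (∀ w, cnt {Y} w * 2 ^ 1 = 16) ∧
    (∀ w, cnt {Z} w * 2 ^ 1 = 16) ∧ (∀ w, cnt {X, Y} w * 2 ^ 2 = 16) ∧
    (∀ w, cnt {X, Z} w * 2 ^ 2 = 16) ∧ (∀ w, cnt {Y, Z} w * 2 ^ 2 = 16) ∧
    (∀ w, cnt {X, Y, Z} w * 2 ^ 2 = 16) := by
  decide

set_option maxRecDepth 100000 in
lemma cnt_tab2 :
    (∀ w, cnt {A} w * 2 ^ 1 = 16) ∧ (∀ w, cnt {D} w * 2 ^ 1 = 16) ∧ (∀ w, cnt {A, Y} w * 2 ^ 2 = 16) ∧
    (∀ w, cnt {D, Y} w * 2 ^ 2 = 16) ∧ (∀ w, cnt {A, D} w * 2 ^ 2 = 16) ∧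
    (∀ w, cnt {A, D, Y} w * 2 ^ 2 = 16) := by
  decide

set_option maxRecDepth 100000 in
lemma cnt_tab3 :
    (∀ w, cnt {B} w * 2 ^ 1 = 16) ∧ (∀ w, cnt {C} w * 2 ^ 1 = 16) ∧
    (∀ w, cnt {A, X, Y} w * 2 ^ 3 = 16) ∧ (∀ w, cnt {B, X, Y} w * 2 ^ 3 = 16) ∧
    (∀ w, cnt {C, X, Y} w * 2 ^ 3 = 16) := by
  decide

set_option maxRecDepth 100000 in
lemma cnt_tab4 :
    (∀ w, cnt {A, B, X, Y} w * 2 ^ 4 = 16) ∧ (∀ w, cnt {A, C, X, Y} w * 2 ^ 4 = 16) ∧
    (∀ w, cnt {B, C, X, Y} w * 2 ^ 4 = 16) ∧ (∀ w, cnt {A, B, C, X, Y} w * 2 ^ 4 = 16) ∧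
    (∀ w, cnt {X, Y, Z, A, B, C} w * 2 ^ 4 = 16) := by
  decide

/-- a probability distribution of the observed variables which satisfies what we need from the
classical causal structure -/
structure Sp where
  α : Obs → Type
  [fα : ∀ v, Fintype (α v)]
  q : (∀ v, α v) → ℝ
  nonneg : ∀ ω, 0 ≤ q ω
  sum_one : ∑ ω, q ω = 1
  indep : ∀ (x : α X) (y : α Y), ms q (fun ω => (ω X, ω Y)) (x, y) =
    ms q (fun ω => ω X) x * ms q (fun ω => ω Y) y
  loc : ∀ (f : α A → ℝ) (g : α B → ℝ) (h : α C → ℝ), (∀ a, |f a| ≤ 1) → (∀ b, |g b| ≤ 1) →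
    (∀ c, |h c| ≤ 1) → ∃ (L : Type) (_ : Fintype L) (p : L → ℝ) (F : α X → L → ℝ)
      (G : α Y → L → ℝ) (K : α Z → L → ℝ), (∀ l, 0 ≤ p l) ∧ ∑ l, p l = 1 ∧
      (∀ x l, |F x l| ≤ 1) ∧ (∀ y l, |G y l| ≤ 1) ∧ (∀ z l, |K z l| ≤ 1) ∧
      ∀ x y z, (∑ ω, (open Classical in if ω X = x ∧ ω Y = y ∧ ω Z = z then
          q ω * (f (ω A) * g (ω B) * h (ω C)) else 0)) =
        ms q (fun ω => (ω X, ω Y, ω Z)) (x, y, z) * ∑ l, p l * (F x l * G y l * K z l)

attribute [instance] Sp.fα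

/-- restriction of an assignment to `s` -/
def rs (S : Sp) (s : Finset Obs) (ω : ∀ v, S.α v) : ∀ v : s, S.α v := fun v => ω v

lemma rs_eq_iff (S : Sp) (s : Finset Obs) (ω ω' : ∀ v, S.α v) :
    rs S s ω' = rs S s ω ↔ ∀ v ∈ s, ω' v = ω v := by
  constructor
  · intro h v hv
    exact congrFun h ⟨v, hv⟩
  · intro h
    funext v
    exact h v v.2

/-- surprisal of the variables in `s` -/
noncomputable def hh (S : Sp) (s : Finset Obs) (ω : ∀ v, S.α v) : ℝ := sur S.q (rs S s) ω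

/-- entropy of the variables in `s` -/
noncomputable def HH (S : Sp) (s : Finset Obs) : ℝ := ent S.q (rs S s)

section seq
variable {ι : Type*} {l : Filter ι} {M : ι → Sp}

/-- smallness in `L¹` along the filter -/
def Small (l : Filter ι) (M : ι → Sp) (f : ∀ n, (∀ v, (M n).α v) → ℝ) : Prop :=
  Tendsto (fun n => nrm (M n).q (f n)) l (𝓝 0)

lemma Small.add {f g : ∀ n, (∀ v, (M n).α v) → ℝ} (hf : Small l M f) (hg : Small l M g) :
    Small l M (fun n ω => f n ω + g n ω) := by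
  unfold Small at *
  have h := hf.add hg
  rw [add_zero] at h
  exact squeeze_zero (fun n => nrm_nonneg (M n).nonneg _)
    (fun n => nrm_add_le (M n).nonneg _ _) h

lemma Small.neg {f : ∀ n, (∀ v, (M n).α v) → ℝ} (hf : Small l M f) :
    Small l M (fun n ω => -f n ω) := by
  unfold Small at *
  simp only [nrm_neg]
  exact hf

lemma Small.sub {f g : ∀ n, (∀ v, (M n).α v) → ℝ} (hf : Small l M f) (hg : Small l M g) :
    Small l M (fun n ω => f n ω - g n ω) := by
  have := hf.add hg.neg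
  simpa [sub_eq_add_neg] using this

lemma Small.congr {f g : ∀ n, (∀ v, (M n).α v) → ℝ} (hf : Small l M f)
    (h : ∀ n ω, 0 < (M n).q ω → g n ω = f n ω) : Small l M g := by
  unfold Small at *
  have e : (fun n => nrm (M n).q (g n)) = fun n => nrm (M n).q (f n) := by
    funext n
    unfold nrm
    apply Finset.sum_congr rfl
    intro ω _
    rcases ((M n).nonneg ω).eq_or_lt with h2 | h2
    · rw [← h2]; simp
    · rw [h n ω h2]
  rw [e]
  exact hf

lemma small_sub (hV : ∀ s, Tendsto (fun n => HH (M n) s) l (𝓝 (Vq s))) {s t : Finset Obs}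
    (hst : s ⊆ t) (h : Vq t = Vq s) : Small l M (fun n ω => hh (M n) t ω - hh (M n) s ω) := by
  unfold Small
  have e : (fun n => nrm (M n).q (fun ω => hh (M n) t ω - hh (M n) s ω)) =
      fun n => HH (M n) t - HH (M n) s := by
    funext n
    apply nrm_refine (M n).nonneg
    intro ω ω' h
    rw [rs_eq_iff] at h ⊢
    exact fun v hv => h v (hst hv)
  rw [e]
  have := (hV t).sub (hV s)
  rw [h, sub_self] at this
  exact this

lemma small_mut (hV : ∀ s, Tendsto (fun n => HH (M n) s) l (𝓝 (Vq s)))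
    (s t r sr tr str : Finset Obs) (h1 : s ∪ r = sr) (h2 : t ∪ r = tr) (h3 : s ∪ t ∪ r = str)
    (h : Vq sr + Vq tr = Vq str + Vq r) :
    Small l M (fun n ω => hh (M n) sr ω + hh (M n) tr ω - hh (M n) str ω - hh (M n) r ω) := by
  unfold Small
  have e1 : ∀ n, sur (M n).q (fun ω => (rs (M n) s ω, rs (M n) r ω)) = hh (M n) sr := by
    intro n
    apply sur_congr
    intro ω ω'
    rw [Prod.mk.injEq, rs_eq_iff, rs_eq_iff, rs_eq_iff, ← h1]
    simp only [Finset.mem_union]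
    constructor
    · rintro ⟨a, b⟩ v (hv | hv)
      · exact a v hv
      · exact b v hv
    · intro a
      exact ⟨fun v hv => a v (Or.inl hv), fun v hv => a v (Or.inr hv)⟩
  have e2 : ∀ n, sur (M n).q (fun ω => (rs (M n) t ω, rs (M n) r ω)) = hh (M n) tr := by
    intro n
    apply sur_congr
    intro ω ω'
    rw [Prod.mk.injEq, rs_eq_iff, rs_eq_iff, rs_eq_iff, ← h2]
    simp only [Finset.mem_union]
    constructor
    · rintro ⟨a, b⟩ v (hv | hv)
      · exact a v hv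
      · exact b v hv
    · intro a
      exact ⟨fun v hv => a v (Or.inl hv), fun v hv => a v (Or.inr hv)⟩
  have e3 : ∀ n, sur (M n).q (fun ω => (rs (M n) s ω, rs (M n) t ω, rs (M n) r ω)) =
      hh (M n) str := by
    intro n
    apply sur_congr
    intro ω ω'
    rw [Prod.mk.injEq, Prod.mk.injEq, rs_eq_iff, rs_eq_iff, rs_eq_iff, rs_eq_iff, ← h3]
    simp only [Finset.mem_union]
    constructor
    · rintro ⟨a, b, c⟩ v ((hv | hv) | hv)
      · exact a v hv
      · exact b v hv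
      · exact c v hv
    · intro a
      exact ⟨fun v hv => a v (Or.inl (Or.inl hv)), fun v hv => a v (Or.inl (Or.inr hv)),
        fun v hv => a v (Or.inr hv)⟩
  have e4 : ∀ n, cmi (M n).q (rs (M n) s) (rs (M n) t) (rs (M n) r) =
      HH (M n) sr + HH (M n) tr - HH (M n) str - HH (M n) r := by
    intro n
    unfold cmi HH ent
    rw [e1 n, e2 n, e3 n]
    rfl
  have hI : Tendsto (fun n => cmi (M n).q (rs (M n) s) (rs (M n) t) (rs (M n) r)) l (𝓝 0) := by
    simp only [e4]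
    have := (((hV sr).add (hV tr)).sub (hV str)).sub (hV r)
    rw [h] at this
    simpa using this
  have hI2 : Tendsto (fun n => cmi (M n).q (rs (M n) s) (rs (M n) t) (rs (M n) r) +
      4 * Real.sqrt (cmi (M n).q (rs (M n) s) (rs (M n) t) (rs (M n) r))) l (𝓝 0) := by
    have h5 := (Real.continuous_sqrt.tendsto 0).comp hI
    rw [Real.sqrt_zero] at h5
    have h6 := hI.add (h5.const_mul 4)
    simpa using h6
  apply squeeze_zero (fun n => nrm_nonneg (M n).nonneg _) _ hI2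
  intro n
  have := nrm_cmi (M n).nonneg (M n).sum_one (rs (M n) s) (rs (M n) t) (rs (M n) r)
  rw [e1 n, e2 n, e3 n] at this
  exact this

lemma hh_empty (S : Sp) (ω : ∀ v, S.α v) : hh S ∅ ω = 0 := by
  unfold hh sur ms
  have : ∀ ω', rs S ∅ ω' = rs S ∅ ω := fun ω' => by rw [rs_eq_iff]; simp
  simp [this, S.sum_one]

lemma small_mut0 (hV : ∀ s, Tendsto (fun n => HH (M n) s) l (𝓝 (Vq s)))
    (s t st : Finset Obs) (h3 : s ∪ t = st) (h : Vq s + Vq t = Vq st) :
    Small l M (fun n ω => hh (M n) s ω + hh (M n) t ω - hh (M n) st ω) := by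
  have h0 : Vq ∅ = 0 := by rw [Vq_eq ∅ 0 cnt_tab1.1]; simp
  have := small_mut hV s t ∅ s t st (by simp) (by simp) (by simpa using h3) (by rw [h0, h]; ring)
  exact this.congr (fun n ω _ => by rw [hh_empty]; ring)

end seq

end Pool.Agent.V11263.Ent
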