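import Mathlib
import Pool.Agent.V11263.EntB

set_option autoImplicit false

namespace Pool.Agent.V11263.Ent

open Finset Filter Topology Obs

section seq
variable {ι : Type*} {l : Filter ι} {M : ι → Sp}

lemma hh_indep (S : Sp) (ω : ∀ v, S.α v) (hω : 0 < S.q ω) :
    hh S {X, Y} ω = hh S {X} ω + hh S {Y} ω := by
  have e1 : hh S {X, Y} = sur S.q (fun ω => (ω X, ω Y)) := by
    apply sur_congr
    intro ω ω'
    rw [rs_eq_iff]; simp
  have e2 : hh S {X} = sur S.q (fun ω => ω X) := by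
    apply sur_congr
    intro ω ω'
    rw [rs_eq_iff]; simp
  have e3 : hh S {Y} = sur S.q (fun ω => ω Y) := by
    apply sur_congr
    intro ω ω'
    rw [rs_eq_iff]; simp
  rw [e1, e2, e3]
  unfold sur
  rw [S.indep, Real.log_mul (ms_pos S.nonneg (fun ω => ω X) hω).ne'
    (ms_pos S.nonneg (fun ω => ω Y) hω).ne']
  ring

/-- consequences for the surprisals -/
theorem small_all (hV : ∀ s, Tendsto (fun n => HH (M n) s) l (𝓝 (Vq s))) :
    (Small l M (fun n ω => hh (M n) {X} ω - Real.log 2) ∧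
    Small l M (fun n ω => hh (M n) {Y} ω - Real.log 2) ∧
    Small l M (fun n ω => hh (M n) {Z} ω - Real.log 2) ∧
    Small l M (fun n ω => hh (M n) {A} ω - Real.log 2) ∧
    Small l M (fun n ω => hh (M n) {B} ω - Real.log 2) ∧
    Small l M (fun n ω => hh (M n) {C} ω - Real.log 2)) ∧
    (Small l M (fun n ω => hh (M n) {X, Y} ω - 2 * Real.log 2) ∧
    Small l M (fun n ω => hh (M n) {X, Z} ω - 2 * Real.log 2) ∧
    Small l M (fun n ω => hh (M n) {Y, Z} ω - 2 * Real.log 2) ∧
    Small l M (fun n ω => hh (M n) {X, Y, Z} ω - 2 * Real.log 2)) ∧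
    (Small l M (fun n ω => hh (M n) {A, B, X, Y} ω - 4 * Real.log 2) ∧
    Small l M (fun n ω => hh (M n) {A, C, X, Y} ω - 4 * Real.log 2) ∧
    Small l M (fun n ω => hh (M n) {B, C, X, Y} ω - 4 * Real.log 2) ∧
    Small l M (fun n ω => hh (M n) {A, B, C, X, Y} ω - 4 * Real.log 2) ∧
    Small l M (fun n ω => hh (M n) {X, Y, Z, A, B, C} ω - 4 * Real.log 2)) := by
  obtain ⟨t0, tX, tY, tZ, tXY, tXZ, tYZ, tXYZ⟩ := cnt_tab1
  obtain ⟨tA, tD, tAY, tDY, tAD, tADY⟩ := cnt_tab2
  obtain ⟨tB, tC, tAXY, tBXY, tCXY⟩ := cnt_tab3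
  obtain ⟨tABXY, tACXY, tBCXY, tABCXY, t6⟩ := cnt_tab4
  have v0 := Vq_eq _ _ t0
  have vX := Vq_eq _ _ tX
  have vY := Vq_eq _ _ tY
  have vZ := Vq_eq _ _ tZ
  have vXY := Vq_eq _ _ tXY
  have vXZ := Vq_eq _ _ tXZ
  have vYZ := Vq_eq _ _ tYZ
  have vXYZ := Vq_eq _ _ tXYZ
  have vA := Vq_eq _ _ tA
  have vD := Vq_eq _ _ tD
  have vAY := Vq_eq _ _ tAY
  have vDY := Vq_eq _ _ tDY
  have vAD := Vq_eq _ _ tAD
  have vADY := Vq_eq _ _ tADY
  have vB := Vq_eq _ _ tB
  have vC := Vq_eq _ _ tC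
  have vAXY := Vq_eq _ _ tAXY
  have vBXY := Vq_eq _ _ tBXY
  have vCXY := Vq_eq _ _ tCXY
  have vABXY := Vq_eq _ _ tABXY
  have vACXY := Vq_eq _ _ tACXY
  have vBCXY := Vq_eq _ _ tBCXY
  have vABCXY := Vq_eq _ _ tABCXY
  have v6 := Vq_eq _ _ t6
  push_cast at *
  have a1 := small_sub hV (s := {X, Y}) (t := {X, Y, Z}) (by decide) (by rw [vXYZ, vXY])
  have a2 := small_sub hV (s := {Y, Z}) (t := {X, Y, Z}) (by decide) (by rw [vXYZ, vYZ])
  have a3 := small_sub hV (s := {X, Z}) (t := {X, Y, Z}) (by decide) (by rw [vXYZ, vXZ])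
  have m1 := small_mut0 hV {Y} {Z} {Y, Z} (by decide) (by rw [vY, vZ, vYZ]; ring)
  have m2 := small_mut0 hV {X} {Z} {X, Z} (by decide) (by rw [vX, vZ, vXZ]; ring)
  have b1 : Small l M (fun n ω => hh (M n) {X} ω - hh (M n) {Z} ω) :=
    ((a2.sub a1).sub m1).congr (fun n ω h => by
      have := hh_indep (M n) ω h
      linarith)
  have b2 : Small l M (fun n ω => hh (M n) {Y} ω - hh (M n) {Z} ω) :=
    ((a3.sub a1).sub m2).congr (fun n ω h => by
      have := hh_indep (M n) ω h
      linarith)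
  have b3 : Small l M (fun n ω => hh (M n) {X} ω - hh (M n) {Y} ω) :=
    (b1.sub b2).congr (fun n ω h => by ring)
  have cX : Small l M (fun n ω => hh (M n) {X} ω - Real.log 2) := by
    have h1 : Small l M (fun n ω => hh (M n) {X} ω - HH (M n) {Y}) := by
      unfold Small at *
      apply squeeze_zero (fun n => nrm_nonneg (M n).nonneg _) _ b3
      intro n
      have e2 : hh (M n) {X} = sur (M n).q (fun ω => ω X) := by
        apply sur_congr
        intro ω ω'
        rw [rs_eq_iff]; simp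
      have e3 : hh (M n) {Y} = sur (M n).q (fun ω => ω Y) := by
        apply sur_congr
        intro ω ω'
        rw [rs_eq_iff]; simp
      have e4 : HH (M n) {Y} = ent (M n).q (fun ω => ω Y) := by
        apply ent_congr
        intro ω ω'
        rw [rs_eq_iff]; simp
      show nrm (M n).q (fun ω => hh (M n) {X} ω - HH (M n) {Y}) ≤
        nrm (M n).q (fun ω => hh (M n) {X} ω - hh (M n) {Y} ω)
      rw [e2, e3, e4]
      exact nrm_indep (M n).nonneg (M n).sum_one _ _ (M n).indep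
    have h2 : Small l M (fun n ω => HH (M n) {Y} - Real.log 2) := by
      unfold Small nrm
      have h3 : (fun n => ∑ ω, (M n).q ω * |HH (M n) {Y} - Real.log 2|) =
          fun n => |HH (M n) {Y} - Real.log 2| := by
        funext n
        rw [← Finset.sum_mul, (M n).sum_one, one_mul]
      rw [h3]
      have h4 := (hV {Y}).sub_const (Real.log 2)
      rw [vY, one_mul, sub_self] at h4
      simpa using h4.abs
    exact (h1.add h2).congr (fun n ω h => by ring)
  have cY : Small l M (fun n ω => hh (M n) {Y} ω - Real.log 2) :=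
    (cX.sub b3).congr (fun n ω h => by ring)
  have cZ : Small l M (fun n ω => hh (M n) {Z} ω - Real.log 2) :=
    (cX.sub b1).congr (fun n ω h => by ring)
  -- A
  have d1 := small_sub hV (s := {A, D}) (t := {A, D, Y}) (by decide) (by rw [vADY, vAD])
  have d2 := small_sub hV (s := {D, Y}) (t := {A, D, Y}) (by decide) (by rw [vADY, vDY])
  have d3 := small_mut0 hV {A} {D} {A, D} (by decide) (by rw [vA, vD, vAD]; ring)
  have d4 := small_mut0 hV {D} {Y} {D, Y} (by decide) (by rw [vD, vY, vDY]; ring)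
  have cA : Small l M (fun n ω => hh (M n) {A} ω - Real.log 2) :=
    ((((d3.sub d4).add d2).sub d1).add cY).congr (fun n ω h => by ring)
  -- B, C
  have e1 := small_mut hV {A} {C} {X, Y} {A, X, Y} {C, X, Y} {A, C, X, Y} (by decide) (by decide)
    (by decide) (by rw [vAXY, vCXY, vACXY, vXY]; ring)
  have e2 := small_mut hV {B} {C} {X, Y} {B, X, Y} {C, X, Y} {B, C, X, Y} (by decide) (by decide)
    (by decide) (by rw [vBXY, vCXY, vBCXY, vXY]; ring)
  have e3 := small_mut hV {A} {B} {X, Y} {A, X, Y} {B, X, Y} {A, B, X, Y} (by decide) (by decide)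
    (by decide) (by rw [vBXY, vAXY, vABXY, vXY]; ring)
  have f1 := small_sub hV (s := {A, C, X, Y}) (t := {A, B, C, X, Y}) (by decide)
    (by rw [vABCXY, vACXY])
  have f2 := small_sub hV (s := {B, C, X, Y}) (t := {A, B, C, X, Y}) (by decide)
    (by rw [vABCXY, vBCXY])
  have f3 := small_sub hV (s := {A, B, X, Y}) (t := {A, B, C, X, Y}) (by decide)
    (by rw [vABCXY, vABXY])
  have f4 := small_sub hV (s := {A, B, C, X, Y}) (t := {X, Y, Z, A, B, C}) (by decide)
    (by rw [vABCXY, v6])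
  have g1 := small_mut0 hV {A} {X, Y} {A, X, Y} (by decide) (by rw [vA, vXY, vAXY]; ring)
  have g2 := small_mut0 hV {B} {X, Y} {B, X, Y} (by decide) (by rw [vB, vXY, vBXY]; ring)
  have g3 := small_mut0 hV {C} {X, Y} {C, X, Y} (by decide) (by rw [vC, vXY, vCXY]; ring)
  -- h(AXY) ≈ h(BXY)
  have i1 : Small l M (fun n ω => hh (M n) {A, X, Y} ω - hh (M n) {B, X, Y} ω) :=
    ((e1.sub e2).add (f2.sub f1)).congr (fun n ω h => by ring)
  have i2 : Small l M (fun n ω => hh (M n) {A, X, Y} ω - hh (M n) {C, X, Y} ω) :=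
    ((e3.sub e2).add (f2.sub f3)).congr (fun n ω h => by ring)
  have cB : Small l M (fun n ω => hh (M n) {B} ω - Real.log 2) :=
    (((g2.sub g1).sub i1).add cA).congr (fun n ω h => by ring)
  have cC : Small l M (fun n ω => hh (M n) {C} ω - Real.log 2) :=
    (((g3.sub g1).sub i2).add cA).congr (fun n ω h => by ring)
  have cXY : Small l M (fun n ω => hh (M n) {X, Y} ω - 2 * Real.log 2) :=
    (cX.add cY).congr (fun n ω h => by rw [hh_indep (M n) ω h]; ring)
  have cXZ : Small l M (fun n ω => hh (M n) {X, Z} ω - 2 * Real.log 2) :=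
    ((cX.add cZ).sub m2).congr (fun n ω h => by ring)
  have cYZ : Small l M (fun n ω => hh (M n) {Y, Z} ω - 2 * Real.log 2) :=
    ((cY.add cZ).sub m1).congr (fun n ω h => by ring)
  have cXYZ : Small l M (fun n ω => hh (M n) {X, Y, Z} ω - 2 * Real.log 2) :=
    (cXY.add a1).congr (fun n ω h => by ring)
  have cAXY : Small l M (fun n ω => hh (M n) {A, X, Y} ω - 3 * Real.log 2) :=
    ((cA.add cXY).sub g1).congr (fun n ω h => by ring)
  have cBXY : Small l M (fun n ω => hh (M n) {B, X, Y} ω - 3 * Real.log 2) :=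
    ((cB.add cXY).sub g2).congr (fun n ω h => by ring)
  have cABXY : Small l M (fun n ω => hh (M n) {A, B, X, Y} ω - 4 * Real.log 2) :=
    (((cAXY.add cBXY).sub cXY).sub e3).congr (fun n ω h => by ring)
  have cABCXY : Small l M (fun n ω => hh (M n) {A, B, C, X, Y} ω - 4 * Real.log 2) :=
    (cABXY.add f3).congr (fun n ω h => by ring)
  have cACXY : Small l M (fun n ω => hh (M n) {A, C, X, Y} ω - 4 * Real.log 2) :=
    (cABCXY.sub f1).congr (fun n ω h => by ring)
  have cBCXY : Small l M (fun n ω => hh (M n) {B, C, X, Y} ω - 4 * Real.log 2) :=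
    (cABCXY.sub f2).congr (fun n ω h => by ring)
  have c6 : Small l M (fun n ω => hh (M n) {X, Y, Z, A, B, C} ω - 4 * Real.log 2) :=
    (cABCXY.add f4).congr (fun n ω h => by ring)
  exact ⟨⟨cX, cY, cZ, cA, cB, cC⟩, ⟨cXY, cXZ, cYZ, cXYZ⟩, cABXY, cACXY, cBCXY, cABCXY, c6⟩

end seq

end Pool.Agent.V11263.Ent
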