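import Mathlib
import Pool.Agent.V11263.EntC

set_option autoImplicit false

namespace Pool.Agent.V11263.Ent

open Finset Filter Topology Obs

section seq
variable {ι : Type*} {M : ι → Sp}

open Classical in
/-- mass of the points at which the variable `v` is not one of the two atoms -/
noncomputable def res (S : Sp) (at_ : ∀ v, Bool → S.α v) (v : Obs) : ℝ :=
  ∑ ω, if (∀ b, ω v ≠ at_ v b) then S.q ω else 0

open Classical in
/-- mass of an atom of the variables in `s` -/
noncomputable def mm (S : Sp) (at_ : ∀ v, Bool → S.α v) (s : Finset Obs) (t : Obs → Bool) : ℝ :=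
  ∑ ω, if (∀ v ∈ s, ω v = at_ v (t v)) then S.q ω else 0

lemma mm_nonneg (S : Sp) (at_ : ∀ v, Bool → S.α v) (s : Finset Obs) (t : Obs → Bool) :
    0 ≤ mm S at_ s t := by
  unfold mm
  exact Finset.sum_nonneg fun ω _ => by split_ifs <;> simp [S.nonneg]

lemma mm_le_one (S : Sp) (at_ : ∀ v, Bool → S.α v) (s : Finset Obs) (t : Obs → Bool) :
    mm S at_ s t ≤ 1 := by
  rw [← S.sum_one]
  unfold mm
  apply Finset.sum_le_sum
  intro ω _
  split_ifs
  · exact le_rfl
  · exact S.nonneg _

lemma res_nonneg (S : Sp) (at_ : ∀ v, Bool → S.α v) (v : Obs) : 0 ≤ res S at_ v := by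
  unfold res
  exact Finset.sum_nonneg fun ω _ => by split_ifs <;> simp [S.nonneg]

lemma mm_congr (S : Sp) (at_ : ∀ v, Bool → S.α v) (s : Finset Obs) {t t' : Obs → Bool}
    (h : ∀ v ∈ s, t v = t' v) : mm S at_ s t = mm S at_ s t' := by
  classical
  unfold mm
  apply Finset.sum_congr rfl
  intro ω _
  have : (∀ v ∈ s, ω v = at_ v (t v)) ↔ (∀ v ∈ s, ω v = at_ v (t' v)) := by
    constructor
    · intro h2 v hv; rw [h2 v hv, h v hv]
    · intro h2 v hv; rw [h2 v hv, h v hv]
  by_cases h3 : ∀ v ∈ s, ω v = at_ v (t v)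
  · rw [if_pos h3, if_pos (this.mp h3)]
  · rw [if_neg h3, if_neg (fun h4 => h3 (this.mpr h4))]

lemma mm_empty (S : Sp) (at_ : ∀ v, Bool → S.α v) (t : Obs → Bool) : mm S at_ ∅ t = 1 := by
  unfold mm
  rw [← S.sum_one]
  apply Finset.sum_congr rfl
  intro ω _
  simp

/-- additivity up to the residual mass -/
lemma mm_split (S : Sp) (at_ : ∀ v, Bool → S.α v) (s : Finset Obs) (v : Obs) (hv : v ∉ s)
    (hne : at_ v true ≠ at_ v false) (t : Obs → Bool) :
    |mm S at_ s t - (mm S at_ (insert v s) (Function.update t v true) +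
      mm S at_ (insert v s) (Function.update t v false))| ≤ res S at_ v := by
  classical
  unfold mm res
  rw [← Finset.sum_add_distrib, ← Finset.sum_sub_distrib]
  refine (Finset.abs_sum_le_sum_abs _ _).trans ?_
  apply Finset.sum_le_sum
  intro ω _
  have key : ∀ b, (∀ u ∈ insert v s, ω u = at_ u (Function.update t v b u)) ↔
      (ω v = at_ v b ∧ ∀ u ∈ s, ω u = at_ u (t u)) := by
    intro b
    rw [Finset.forall_mem_insert]
    constructor
    · rintro ⟨h1, h2⟩
      refine ⟨by simpa using h1, fun u hu => ?_⟩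
      have h3 := h2 u hu
      have : u ≠ v := fun h => hv (h ▸ hu)
      rwa [Function.update_of_ne this] at h3
    · rintro ⟨h1, h2⟩
      refine ⟨by simpa using h1, fun u hu => ?_⟩
      have : u ≠ v := fun h => hv (h ▸ hu)
      rw [Function.update_of_ne this]
      exact h2 u hu
  have k1 := key true
  have k2 := key false
  by_cases hs : ∀ u ∈ s, ω u = at_ u (t u)
  · by_cases hT : ω v = at_ v true
    · have hF : ω v ≠ at_ v false := by rw [hT]; exact hne
      rw [if_pos hs, if_pos (k1.mpr ⟨hT, hs⟩), if_neg (fun h => hF (k2.mp h).1)]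
      simp only [add_zero, sub_self, abs_zero]
      split_ifs <;> simp [S.nonneg]
    · by_cases hF : ω v = at_ v false
      · rw [if_pos hs, if_neg (fun h => hT (k1.mp h).1), if_pos (k2.mpr ⟨hF, hs⟩)]
        simp only [zero_add, sub_self, abs_zero]
        split_ifs <;> simp [S.nonneg]
      · rw [if_pos hs, if_neg (fun h => hT (k1.mp h).1), if_neg (fun h => hF (k2.mp h).1)]
        have : ∀ b, ω v ≠ at_ v b := by
          intro b; cases b
          · exact hF
          · exact hT
        rw [if_pos this]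
        simp [abs_of_nonneg (S.nonneg ω)]
  · rw [if_neg hs, if_neg (fun h => hs (k1.mp h).2), if_neg (fun h => hs (k2.mp h).2)]
    simp only [add_zero, sub_self, abs_zero]
    split_ifs <;> simp [S.nonneg]

/-- contribution of one atom to the `L¹` norm of the centred surprisal -/
lemma mm_contrib (S : Sp) (at_ : ∀ v, Bool → S.α v) (s : Finset Obs) (t : Obs → Bool) (c : ℝ) :
    |(-Real.negMulLog (mm S at_ s t)) + c * mm S at_ s t| ≤
      nrm S.q (fun ω => hh S s ω - c) := by
  classical
  obtain ⟨p, hp⟩ : ∃ p, p = mm S at_ s t := ⟨_, rfl⟩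
  have hval : ∀ ω, (∀ v ∈ s, ω v = at_ v (t v)) → hh S s ω = -Real.log p := by
    intro ω hω
    unfold hh sur ms
    rw [hp]
    unfold mm
    congr 2
    apply Finset.sum_congr rfl
    intro ω' _
    have : rs S s ω' = rs S s ω ↔ (∀ v ∈ s, ω' v = at_ v (t v)) := by
      rw [rs_eq_iff]
      constructor
      · intro h v hv; rw [h v hv, hω v hv]
      · intro h v hv; rw [h v hv, hω v hv]
    by_cases h3 : rs S s ω' = rs S s ω
    · rw [if_pos h3, if_pos (this.mp h3)]
    · rw [if_neg h3, if_neg (fun h4 => h3 (this.mpr h4))]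
  rw [← hp]
  have e : (-Real.negMulLog p) + c * p = -(p * (-Real.log p - c)) := by
    unfold Real.negMulLog; ring
  have hp0 : 0 ≤ p := by rw [hp]; exact mm_nonneg _ _ _ _
  rw [e, abs_neg, abs_mul, abs_of_nonneg hp0]
  have e1' : p * |-Real.log p - c| = mm S at_ s t * |-Real.log p - c| := by rw [hp]
  have e2 : mm S at_ s t * |-Real.log p - c| =
      ∑ ω, if (∀ v ∈ s, ω v = at_ v (t v)) then S.q ω * |hh S s ω - c| else 0 := by
    unfold mm
    rw [Finset.sum_mul]
    apply Finset.sum_congr rfl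
    intro ω _
    by_cases h : ∀ v ∈ s, ω v = at_ v (t v)
    · rw [if_pos h, if_pos h, hval ω h]
    · rw [if_neg h, if_neg h, zero_mul]
  rw [e1', e2]
  unfold nrm
  apply Finset.sum_le_sum
  intro ω _
  split_ifs
  · exact le_rfl
  · exact mul_nonneg (S.nonneg ω) (abs_nonneg _)

end seq

end Pool.Agent.V11263.Ent
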