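import Mathlib
import Pool.Agent.V11263.EntD

set_option autoImplicit false

namespace Pool.Agent.V11263.Ent

open Finset Filter Topology Obs

/-- assignment of bits to the variables -/
def ta (i j k a b c : Bool) : Obs → Bool
  | X => i | Y => j | Z => k | A => a | B => b | C => c | D => false

section upd
variable (i j k a b c x : Bool)
lemma uX : Function.update (ta i j k a b c) X x = ta x j k a b c := by
  funext v; cases v <;> simp [Function.update, ta]
lemma uY : Function.update (ta i j k a b c) Y x = ta i x k a b c := by
  funext v; cases v <;> simp [Function.update, ta]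
lemma uZ : Function.update (ta i j k a b c) Z x = ta i j x a b c := by
  funext v; cases v <;> simp [Function.update, ta]
lemma uA : Function.update (ta i j k a b c) A x = ta i j k x b c := by
  funext v; cases v <;> simp [Function.update, ta]
lemma uB : Function.update (ta i j k a b c) B x = ta i j k a x c := by
  funext v; cases v <;> simp [Function.update, ta]
lemma uC : Function.update (ta i j k a b c) C x = ta i j k a b x := by
  funext v; cases v <;> simp [Function.update, ta]
end upd

/-- properties of the limiting masses -/
structure Lim (μ : Finset Obs → (Obs → Bool) → ℝ) : Prop where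
  emp : ∀ t, μ ∅ t = 1
  spl : ∀ s v, v ∉ s → v ≠ D → ∀ t, μ s t =
    μ (insert v s) (Function.update t v true) + μ (insert v s) (Function.update t v false)
  vXY : ∀ t, μ {X, Y} t = 0 ∨ μ {X, Y} t = 1 / 4
  vXZ : ∀ t, μ {X, Z} t = 0 ∨ μ {X, Z} t = 1 / 4
  vYZ : ∀ t, μ {Y, Z} t = 0 ∨ μ {Y, Z} t = 1 / 4
  vXYZ : ∀ t, μ {X, Y, Z} t = 0 ∨ μ {X, Y, Z} t = 1 / 4
  vAB : ∀ t, μ {A, B, X, Y} t = 0 ∨ μ {A, B, X, Y} t = 1 / 16
  vAC : ∀ t, μ {A, C, X, Y} t = 0 ∨ μ {A, C, X, Y} t = 1 / 16
  vBC : ∀ t, μ {B, C, X, Y} t = 0 ∨ μ {B, C, X, Y} t = 1 / 16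
  v6 : ∀ t, μ {X, Y, Z, A, B, C} t = 0 ∨ μ {X, Y, Z, A, B, C} t = 1 / 16

section comb
variable {μ : Finset Obs → (Obs → Bool) → ℝ} (h : Lim μ)
include h

lemma Lim.sp (s s' : Finset Obs) (v : Obs) (hv : v ∉ s) (hD : v ≠ D) (hs : insert v s = s')
    (t : Obs → Bool) :
    μ s t = μ s' (Function.update t v true) + μ s' (Function.update t v false) := by
  rw [← hs]; exact h.spl s v hv hD t

/-- `{X, Y, Z}` in terms of all six -/
lemma Lim.xyz (i j k : Bool) (a b c : Bool) : μ {X, Y, Z} (ta i j k a b c) =
    ∑ a, ∑ b, ∑ c, μ {X, Y, Z, A, B, C} (ta i j k a b c) := by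
  rw [h.sp {X, Y, Z} {X, Y, Z, A} A (by decide) (by decide) (by decide)]
  simp only [uA]
  rw [h.sp {X, Y, Z, A} {X, Y, Z, A, B} B (by decide) (by decide) (by decide),
    h.sp {X, Y, Z, A} {X, Y, Z, A, B} B (by decide) (by decide) (by decide)]
  simp only [uB]
  simp only [h.sp {X, Y, Z, A, B} {X, Y, Z, A, B, C} C (by decide) (by decide) (by decide), uC,
    Fintype.sum_bool]

lemma Lim.ab (i j a b : Bool) (k c : Bool) : μ {A, B, X, Y} (ta i j k a b c) =
    ∑ k, ∑ c, μ {X, Y, Z, A, B, C} (ta i j k a b c) := by
  rw [h.sp {A, B, X, Y} {A, B, X, Y, Z} Z (by decide) (by decide) (by decide)]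
  simp only [uZ]
  simp only [h.sp {A, B, X, Y, Z} {X, Y, Z, A, B, C} C (by decide) (by decide) (by decide), uC,
    Fintype.sum_bool]

lemma Lim.ac (i j a c : Bool) (k b : Bool) : μ {A, C, X, Y} (ta i j k a b c) =
    ∑ k, ∑ b, μ {X, Y, Z, A, B, C} (ta i j k a b c) := by
  rw [h.sp {A, C, X, Y} {A, C, X, Y, Z} Z (by decide) (by decide) (by decide)]
  simp only [uZ]
  simp only [h.sp {A, C, X, Y, Z} {X, Y, Z, A, B, C} B (by decide) (by decide) (by decide), uB,
    Fintype.sum_bool]

lemma Lim.bc (i j b c : Bool) (k a : Bool) : μ {B, C, X, Y} (ta i j k a b c) =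
    ∑ k, ∑ a, μ {X, Y, Z, A, B, C} (ta i j k a b c) := by
  rw [h.sp {B, C, X, Y} {B, C, X, Y, Z} Z (by decide) (by decide) (by decide)]
  simp only [uZ]
  simp only [h.sp {B, C, X, Y, Z} {X, Y, Z, A, B, C} A (by decide) (by decide) (by decide), uA,
    Fintype.sum_bool]

lemma Lim.xy (i j k a b c : Bool) : μ {X, Y} (ta i j k a b c) =
    ∑ k, μ {X, Y, Z} (ta i j k a b c) := by
  simp only [h.sp {X, Y} {X, Y, Z} Z (by decide) (by decide) (by decide), uZ, Fintype.sum_bool]

lemma Lim.xz (i j k a b c : Bool) : μ {X, Z} (ta i j k a b c) =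
    ∑ j, μ {X, Y, Z} (ta i j k a b c) := by
  simp only [h.sp {X, Z} {X, Y, Z} Y (by decide) (by decide) (by decide), uY, Fintype.sum_bool]

lemma Lim.yz (i j k a b c : Bool) : μ {Y, Z} (ta i j k a b c) =
    ∑ i, μ {X, Y, Z} (ta i j k a b c) := by
  simp only [h.sp {Y, Z} {X, Y, Z} X (by decide) (by decide) (by decide), uX, Fintype.sum_bool]

lemma Lim.tot (i j k a b c : Bool) : (1 : ℝ) = ∑ i, ∑ j, μ {X, Y} (ta i j k a b c) := by
  rw [← h.emp (ta i j k a b c)]
  rw [h.sp ∅ {X} X (by decide) (by decide) (by decide)]
  simp only [uX]
  simp only [h.sp {X} {X, Y} Y (by decide) (by decide) (by decide), uY, Fintype.sum_bool]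

lemma Lim.abc (i j k a b c : Bool) : μ {A, B, C} (ta i j k a b c) =
    ∑ i, ∑ j, ∑ k, μ {X, Y, Z, A, B, C} (ta i j k a b c) := by
  rw [h.sp {A, B, C} {X, A, B, C} X (by decide) (by decide) (by decide)]
  simp only [uX]
  rw [h.sp {X, A, B, C} {X, Y, A, B, C} Y (by decide) (by decide) (by decide),
    h.sp {X, A, B, C} {X, Y, A, B, C} Y (by decide) (by decide) (by decide)]
  simp only [uY]
  simp only [h.sp {X, Y, A, B, C} {X, Y, Z, A, B, C} Z (by decide) (by decide) (by decide), uZ,
    Fintype.sum_bool]

/-- the structure of the limiting distribution on the inputs -/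
lemma Lim.inputs : ∃ k₀ : Bool, ∀ i j k a b c, μ {X, Y, Z} (ta i j k a b c) =
    if k = xor k₀ (xor i j) then 1 / 4 else 0 := by
  obtain ⟨q, hq⟩ : ∃ q : Bool → Bool → Bool → ℝ, ∀ i j k a b c,
      μ {X, Y, Z} (ta i j k a b c) = q i j k :=
    ⟨fun i j k => ∑ a, ∑ b, ∑ c, μ {X, Y, Z, A, B, C} (ta i j k a b c),
      fun i j k a b c => h.xyz i j k a b c⟩
  have q01 : ∀ i j k, q i j k = 0 ∨ q i j k = 1 / 4 := fun i j k => by
    rw [← hq i j k false false false]; exact h.vXYZ _
  have hxy : ∀ i j, ∑ k, q i j k ≤ 1 / 4 := fun i j => by
    have h1 := h.xy i j false false false false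
    simp only [hq] at h1
    rw [← h1]
    rcases h.vXY (ta i j false false false false) with h2 | h2 <;> rw [h2]; norm_num
  have hxz : ∀ i k, ∑ j, q i j k ≤ 1 / 4 := fun i k => by
    have h1 := h.xz i false k false false false
    simp only [hq] at h1
    rw [← h1]
    rcases h.vXZ (ta i false k false false false) with h2 | h2 <;> rw [h2]; norm_num
  have hyz : ∀ j k, ∑ i, q i j k ≤ 1 / 4 := fun j k => by
    have h1 := h.yz false j k false false false
    simp only [hq] at h1
    rw [← h1]
    rcases h.vYZ (ta false j k false false false) with h2 | h2 <;> rw [h2]; norm_num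
  have htot : (1 : ℝ) = ∑ i, ∑ j, ∑ k, q i j k := by
    have h1 := h.tot false false false false false false
    simp only [h.xy, hq] at h1
    exact h1
  simp only [Fintype.sum_bool] at hxy hxz hyz htot
  simp only [hq]
  have a1 := hxy true true
  have a2 := hxy true false
  have a3 := hxy false true
  have a4 := hxy false false
  have b1 := hxz true true
  have b2 := hxz true false
  have b3 := hxz false true
  have b4 := hxz false false
  have c1 := hyz true true
  have c2 := hyz true false
  have c3 := hyz false true
  have c4 := hyz false false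
  rcases q01 false false false with e | e
  · refine ⟨true, ?_⟩
    have e1 : q false false true = 1 / 4 := by
      rcases q01 false false true with f | f
      · linarith
      · exact f
    have e2 : q false true true = 0 := by
      rcases q01 false true true with f | f
      · exact f
      · linarith
    have e3 : q true false true = 0 := by
      rcases q01 true false true with f | f
      · exact f
      · linarith
    have e4 : q false true false = 1 / 4 := by
      rcases q01 false true false with f | f
      · linarith
      · exact f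
    have e5 : q true false false = 1 / 4 := by
      rcases q01 true false false with f | f
      · linarith
      · exact f
    have e6 : q true true false = 0 := by
      rcases q01 true true false with f | f
      · exact f
      · linarith
    have e7 : q true true true = 1 / 4 := by
      rcases q01 true true true with f | f
      · linarith
      · exact f
    intro i j k _ _ _
    cases i <;> cases j <;> cases k <;>
      first
      | (rw [if_pos (by decide)]; assumption)
      | (rw [if_neg (by decide)]; assumption)
  · refine ⟨false, ?_⟩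
    have e1 : q false false true = 0 := by
      rcases q01 false false true with f | f
      · exact f
      · linarith
    have e2 : q false true false = 0 := by
      rcases q01 false true false with f | f
      · exact f
      · linarith
    have e3 : q true false false = 0 := by
      rcases q01 true false false with f | f
      · exact f
      · linarith
    have e4 : q false true true = 1 / 4 := by
      rcases q01 false true true with f | f
      · linarith
      · exact f
    have e5 : q true false true = 1 / 4 := by
      rcases q01 true false true with f | f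
      · linarith
      · exact f
    have e6 : q true true true = 0 := by
      rcases q01 true true true with f | f
      · exact f
      · linarith
    have e7 : q true true false = 1 / 4 := by
      rcases q01 true true false with f | f
      · linarith
      · exact f
    intro i j k _ _ _
    cases i <;> cases j <;> cases k <;>
      first
      | (rw [if_pos (by decide)]; assumption)
      | (rw [if_neg (by decide)]; assumption)

/-- the structure of the limiting distribution -/
theorem Lim.struct : ∃ (k₀ : Bool) (θ : Bool → Bool → ℝ), (∀ i j, θ i j = 0 ∨ θ i j = 1 / 16) ∧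
    (∀ i j k a b c, μ {X, Y, Z} (ta i j k a b c) = if k = xor k₀ (xor i j) then 1 / 4 else 0) ∧
    ∀ i j k a b c, μ {X, Y, Z, A, B, C} (ta i j k a b c) =
      if k = xor k₀ (xor i j) then (if xor a (xor b c) then 1 / 16 - θ i j else θ i j) else 0 := by
  obtain ⟨k₀, hk⟩ := h.inputs
  refine ⟨k₀, fun i j => μ {X, Y, Z, A, B, C} (ta i j (xor k₀ (xor i j)) false false false),
    fun i j => h.v6 _, hk, ?_⟩
  obtain ⟨p, hp⟩ : ∃ p : Bool → Bool → Bool → Bool → Bool → Bool → ℝ, ∀ i j k a b c,
      μ {X, Y, Z, A, B, C} (ta i j k a b c) = p i j k a b c :=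
    ⟨fun i j k a b c => μ {X, Y, Z, A, B, C} (ta i j k a b c), fun _ _ _ _ _ _ => rfl⟩
  have p0 : ∀ i j k a b c, 0 ≤ p i j k a b c := by
    intro i j k a b c
    rw [← hp]
    rcases h.v6 (ta i j k a b c) with h2 | h2 <;> rw [h2]; norm_num
  have hx := fun i j k => h.xyz i j k false false false
  simp only [hk, hp] at hx
  have hab : ∀ i j a b, ∑ k, ∑ c, p i j k a b c ≤ 1 / 16 := fun i j a b => by
    have h1 := h.ab i j a b false false
    simp only [hp] at h1
    rw [← h1]
    rcases h.vAB (ta i j false a b false) with h2 | h2 <;> rw [h2]; norm_num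
  have hac : ∀ i j a c, ∑ k, ∑ b, p i j k a b c ≤ 1 / 16 := fun i j a c => by
    have h1 := h.ac i j a c false false
    simp only [hp] at h1
    rw [← h1]
    rcases h.vAC (ta i j false a false c) with h2 | h2 <;> rw [h2]; norm_num
  have hbc : ∀ i j b c, ∑ k, ∑ a, p i j k a b c ≤ 1 / 16 := fun i j b c => by
    have h1 := h.bc i j b c false false
    simp only [hp] at h1
    rw [← h1]
    rcases h.vBC (ta i j false false b c) with h2 | h2 <;> rw [h2]; norm_num
  simp only [hp]
  intro i j
  obtain ⟨κ, hκ⟩ : ∃ κ, κ = xor k₀ (xor i j) := ⟨_, rfl⟩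
  have hx1 := hx i j κ
  have hx2 := hx i j (!κ)
  rw [if_pos hκ] at hx1
  rw [if_neg (by rw [← hκ]; simp)] at hx2
  simp only [Fintype.sum_bool] at hx1 hx2 hab hac hbc
  have z1 := p0 i j (!κ) true true true
  have z2 := p0 i j (!κ) true true false
  have z3 := p0 i j (!κ) true false true
  have z4 := p0 i j (!κ) true false false
  have z5 := p0 i j (!κ) false true true
  have z6 := p0 i j (!κ) false true false
  have z7 := p0 i j (!κ) false false true
  have z8 := p0 i j (!κ) false false false
  have hzero : ∀ a b c, p i j (!κ) a b c = 0 := by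
    intro a b c
    cases a <;> cases b <;> cases c <;> linarith
  have hab' : ∀ a b, p i j κ a b true + p i j κ a b false ≤ 1 / 16 := by
    intro a b
    have h1 := hab i j a b
    have h2 := hzero a b
    cases κ <;> simp only [Bool.not_true, Bool.not_false] at h2 <;>
      rw [h2 true, h2 false] at h1 <;> linarith
  have hac' : ∀ a c, p i j κ a true c + p i j κ a false c ≤ 1 / 16 := by
    intro a c
    have h1 := hac i j a c
    have h2 := fun b => hzero a b c
    cases κ <;> simp only [Bool.not_true, Bool.not_false] at h2 <;>
      rw [h2 true, h2 false] at h1 <;> linarith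
  have hbc' : ∀ b c, p i j κ true b c + p i j κ false b c ≤ 1 / 16 := by
    intro b c
    have h1 := hbc i j b c
    have h2 := fun a => hzero a b c
    cases κ <;> simp only [Bool.not_true, Bool.not_false] at h2 <;>
      rw [h2 true, h2 false] at h1 <;> linarith
  have y1 := hab' true true
  have y2 := hab' true false
  have y3 := hab' false true
  have y4 := hab' false false
  have y5 := hac' true true
  have y6 := hac' true false
  have y7 := hac' false true
  have y8 := hac' false false
  have y9 := hbc' true true
  have y10 := hbc' true false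
  have y11 := hbc' false true
  have y12 := hbc' false false
  intro k a b c
  rw [← hκ]
  by_cases hkk : k = κ
  · rw [if_pos hkk, hkk]
    cases a <;> cases b <;> cases c <;>
      first
      | (rw [if_neg (by decide)]; done)
      | (rw [if_pos (by decide)]; linarith)
      | (rw [if_neg (by decide)]; linarith)
  · rw [if_neg hkk]
    have : k = !κ := by
      clear * - hkk
      revert k κ
      decide
    rw [this]
    exact hzero a b c

end comb

end Pool.Agent.V11263.Ent
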