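import Mathlib
import Pool.Agent.V11263.EntE

set_option autoImplicit false

namespace Pool.Agent.V11263.Ent

open Finset Filter Topology Obs

lemma exists_atoms_fun (S : Sp) (v : Obs) : ∃ c : Bool → S.α v,
    nrm S.q (fun ω => hh S {v} ω - Real.log 2) < 1 / 50 → (c true ≠ c false ∧
      (∑ ω, (open Classical in if (∀ b, ω v ≠ c b) then S.q ω else 0)) ≤
        8 * nrm S.q (fun ω => hh S {v} ω - Real.log 2)) := by
  classical
  by_cases h : nrm S.q (fun ω => hh S {v} ω - Real.log 2) < 1 / 50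
  · have e3 : hh S {v} = sur S.q (fun ω => ω v) := by
      apply sur_congr
      intro ω ω'
      rw [rs_eq_iff]; simp
    rw [e3] at h ⊢
    obtain ⟨b, c, hbc, hb, hc⟩ := exists_atoms S.nonneg S.sum_one (fun ω => ω v) le_rfl h
    refine ⟨fun t => if t then b else c, fun _ => ⟨by simpa using hbc, ?_⟩⟩
    have e : (∑ ω, (if (∀ t : Bool, ω v ≠ (if t then b else c)) then S.q ω else 0)) =
        1 - ms S.q (fun ω => ω v) b - ms S.q (fun ω => ω v) c := by
      rw [← S.sum_one]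
      unfold ms
      rw [← Finset.sum_sub_distrib, ← Finset.sum_sub_distrib]
      apply Finset.sum_congr rfl
      intro ω _
      by_cases h1 : ω v = b
      · have h2 : ω v ≠ c := by rw [h1]; exact hbc
        simp [h1, hbc]
      · by_cases h2 : ω v = c
        · simp [h2, hbc.symm]
        · simp [h1, h2]
    rw [e]
    have := (abs_le.mp hb).1
    have := (abs_le.mp hc).1
    linarith
  · have : ∃ ω : ∀ v, S.α v, True := by
      by_contra hne
      push Not at hne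
      have h1 := S.sum_one
      have : (Finset.univ : Finset (∀ v, S.α v)) = ∅ := by
        apply Finset.eq_empty_of_forall_notMem
        intro ω _
        exact hne ω
      rw [this] at h1
      simp at h1
    obtain ⟨ω, -⟩ := this
    exact ⟨fun _ => ω v, fun h' => absurd h' h⟩

lemma absmul {x : ℝ} (R : ℝ) (hx : |x| ≤ 1) : x * R ≤ |R| := by
  calc x * R ≤ |x * R| := le_abs_self _
    _ = |x| * |R| := abs_mul _ _
    _ ≤ 1 * |R| := mul_le_mul_of_nonneg_right hx (abs_nonneg _)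
    _ = |R| := one_mul _

lemma abs2 {h0 h1 : ℝ} (hh0 : |h0| ≤ 1) (hh1 : |h1| ≤ 1) : |h0 + h1| + |h0 - h1| ≤ 2 := by
  rw [abs_le] at hh0 hh1
  rcases abs_cases (h0 + h1) with ⟨e1, _⟩ | ⟨e1, _⟩ <;>
    rcases abs_cases (h0 - h1) with ⟨e2, _⟩ | ⟨e2, _⟩ <;> rw [e1, e2] <;> linarith

/-- Mermin's inequality -/
lemma mermin {f0 f1 g0 g1 h0 h1 s00 s01 s10 s11 : ℝ} (hf0 : |f0| ≤ 1) (hf1 : |f1| ≤ 1)
    (hg0 : |g0| ≤ 1) (hg1 : |g1| ≤ 1) (hh0 : |h0| ≤ 1) (hh1 : |h1| ≤ 1)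
    (c00 : s00 = 1 ∨ s00 = -1) (c01 : s01 = 1 ∨ s01 = -1) (c10 : s10 = 1 ∨ s10 = -1)
    (c11 : s11 = 1 ∨ s11 = -1) (hs : s00 * s01 * s10 * s11 = -1) :
    s00 * (f0 * g0 * h0) + s01 * (f0 * g1 * h1) + s10 * (f1 * g0 * h1) + s11 * (f1 * g1 * h0) ≤ 2 := by
  have hA := abs2 hh0 hh1
  have e1 : |h0 - h1| = |h1 - h0| := abs_sub_comm _ _
  have e2 : |h0 + h1| = |(-h0) + (-h1)| := by rw [← abs_neg]; congr 1; ring
  have e3 : |h0 + h1| = |h1 + h0| := by congr 1; ring
  have e4 : |h0 + h1| = |(-h1) + (-h0)| := by rw [← abs_neg]; congr 1; ring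
  have e5 : |h0 - h1| = |h0 + (-h1)| := by congr 1
  have e6 : |h0 - h1| = |(-h0) + h1| := by rw [← abs_neg]; congr 1; ring
  have e7 : |h0 - h1| = |h1 + (-h0)| := by rw [← abs_neg]; congr 1; ring
  have e8 : |h0 - h1| = |(-h1) + h0| := by congr 1; ring
  have hkey : ∀ P Q : ℝ, P + Q ≤ 2 → P - Q ≤ 2 → -P + Q ≤ 2 → -P - Q ≤ 2 →
      f0 * P + f1 * Q ≤ 2 := by
    intro P Q h1 h2 h3 h4
    have a1 := absmul P hf0
    have a2 := absmul Q hf1
    rcases abs_cases P with ⟨p1, _⟩ | ⟨p1, _⟩ <;> rcases abs_cases Q with ⟨p2, _⟩ | ⟨p2, _⟩ <;>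
      rw [p1] at a1 <;> rw [p2] at a2 <;> linarith
  have x1 := absmul (h0 + h1) hg0
  have x2 := absmul (-(h0 + h1)) hg0
  have x3 := absmul (h0 - h1) hg0
  have x4 := absmul (-(h0 - h1)) hg0
  have y1 := absmul (h0 + h1) hg1
  have y2 := absmul (-(h0 + h1)) hg1
  have y3 := absmul (h0 - h1) hg1
  have y4 := absmul (-(h0 - h1)) hg1
  rw [abs_neg] at x2 x4 y2 y4
  have hfin := hkey (s00 * (g0 * h0) + s01 * (g1 * h1)) (s10 * (g0 * h1) + s11 * (g1 * h0))
  have goal_eq : s00 * (f0 * g0 * h0) + s01 * (f0 * g1 * h1) + s10 * (f1 * g0 * h1) +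
      s11 * (f1 * g1 * h0) = f0 * (s00 * (g0 * h0) + s01 * (g1 * h1)) +
      f1 * (s10 * (g0 * h1) + s11 * (g1 * h0)) := by ring
  rw [goal_eq]
  apply hfin <;> rcases c00 with rfl | rfl <;> rcases c01 with rfl | rfl <;>
    rcases c10 with rfl | rfl <;> rcases c11 with rfl | rfl <;>
    first
    | (exfalso; norm_num at hs; done)
    | linarith

lemma Vq_ABC : Vq {A, B, C} = 4 * Real.log 2 - 3 / 4 * Real.log 3 := by
  have h : ∀ w : Wt, cnt {A, B, C} w = if (w.1 || w.2.1) then 3 else 1 := by decide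
  unfold Vq
  simp only [h]
  have e1 : Real.log (16 / 3) = 4 * Real.log 2 - Real.log 3 := by
    rw [Real.log_div (by norm_num) (by norm_num), show (16 : ℝ) = 2 ^ 4 by norm_num, Real.log_pow]
    norm_num
  have e2 : Real.log 16 = 4 * Real.log 2 := by
    rw [show (16 : ℝ) = 2 ^ 4 by norm_num, Real.log_pow]
    norm_num
  simp only [Fintype.sum_prod_type, Fintype.sum_bool]
  simp only [Bool.or_true, Bool.or_false, Bool.true_or, if_true, if_false, Bool.false_eq_true,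
    Nat.cast_ofNat, Nat.cast_one, div_one, e1, e2]
  ring

end Pool.Agent.V11263.Ent
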