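import Mathlib
import Pool.Agent.V11263.EntF

set_option autoImplicit false

namespace Pool.Agent.V11263.Ent

open Finset Filter Topology Obs

section finite
variable (S : Sp) (at_ : ∀ v, Bool → S.α v)

open Classical in
/-- indicator that the variable `v` takes its atom number `b` -/
noncomputable def ui (v : Obs) (b : Bool) (ω : ∀ v, S.α v) : ℝ := if ω v = at_ v b then 1 else 0

open Classical in
/-- indicator that the variable `v` is not at an atom -/
noncomputable def ri (v : Obs) (ω : ∀ v, S.α v) : ℝ := if (∀ b, ω v ≠ at_ v b) then 1 else 0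

/-- the sign function of the atoms -/
noncomputable def sg (v : Obs) (ω : ∀ v, S.α v) : ℝ := 2 * ui S at_ v true ω - 1

lemma res_eq (v : Obs) : res S at_ v = ∑ ω, S.q ω * ri S at_ v ω := by
  unfold res ri
  apply Finset.sum_congr rfl
  intro ω _
  split_ifs <;> simp

lemma ui_cases {v : Obs} (hne : at_ v true ≠ at_ v false) (ω : ∀ v, S.α v) :
    (ui S at_ v true ω = 1 ∧ ui S at_ v false ω = 0 ∧ ri S at_ v ω = 0) ∨
    (ui S at_ v true ω = 0 ∧ ui S at_ v false ω = 1 ∧ ri S at_ v ω = 0) ∨
    (ui S at_ v true ω = 0 ∧ ui S at_ v false ω = 0 ∧ ri S at_ v ω = 1) := by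
  classical
  unfold ui ri
  by_cases hT : ω v = at_ v true
  · left
    have hF : ω v ≠ at_ v false := by rw [hT]; exact hne
    refine ⟨if_pos hT, if_neg hF, if_neg (fun h => h true hT)⟩
  · by_cases hF : ω v = at_ v false
    · right; left
      exact ⟨if_neg hT, if_pos hF, if_neg (fun h => h false hF)⟩
    · right; right
      refine ⟨if_neg hT, if_neg hF, if_pos ?_⟩
      intro b
      cases b
      · exact hF
      · exact hT

lemma mm_ABC (a b c : Bool) : mm S at_ {A, B, C} (ta false false false a b c) =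
    ∑ ω, S.q ω * (ui S at_ A a ω * ui S at_ B b ω * ui S at_ C c ω) := by
  classical
  unfold mm ui
  apply Finset.sum_congr rfl
  intro ω _
  simp only [Finset.forall_mem_insert, Finset.mem_singleton, forall_eq, ta]
  by_cases h1 : ω A = at_ A a <;> by_cases h2 : ω B = at_ B b <;> by_cases h3 : ω C = at_ C c <;>
    simp [h1, h2, h3]

lemma mm_six (i j k a b c : Bool) : mm S at_ {X, Y, Z, A, B, C} (ta i j k a b c) =
    ∑ ω, S.q ω * ((ui S at_ X i ω * ui S at_ Y j ω * ui S at_ Z k ω) *
      (ui S at_ A a ω * ui S at_ B b ω * ui S at_ C c ω)) := by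
  classical
  unfold mm ui
  apply Finset.sum_congr rfl
  intro ω _
  simp only [Finset.forall_mem_insert, Finset.mem_singleton, forall_eq, ta]
  by_cases h1 : ω A = at_ A a <;> by_cases h2 : ω B = at_ B b <;> by_cases h3 : ω C = at_ C c <;>
  by_cases h4 : ω X = at_ X i <;> by_cases h5 : ω Y = at_ Y j <;> by_cases h6 : ω Z = at_ Z k <;>
    simp [h1, h2, h3, h4, h5, h6]

lemma mm_XYZ (i j k : Bool) : mm S at_ {X, Y, Z} (ta i j k false false false) =
    ms S.q (fun ω => (ω X, ω Y, ω Z)) (at_ X i, at_ Y j, at_ Z k) := by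
  classical
  unfold mm ms
  apply Finset.sum_congr rfl
  intro ω _
  simp only [Finset.forall_mem_insert, Finset.mem_singleton, forall_eq, ta, Prod.mk.injEq]

/-- signed correlation on the event that the inputs are given atoms -/
noncomputable def TT (i j k : Bool) : ℝ :=
  ∑ ω, S.q ω * ((ui S at_ X i ω * ui S at_ Y j ω * ui S at_ Z k ω) *
      (sg S at_ A ω * sg S at_ B ω * sg S at_ C ω))

/-- sign of a bit -/
def χ (b : Bool) : ℝ := if b then 1 else -1

lemma ui_bd (v : Obs) (b : Bool) (ω : ∀ v, S.α v) : 0 ≤ ui S at_ v b ω ∧ ui S at_ v b ω ≤ 1 := by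
  unfold ui
  split_ifs <;> norm_num

lemma TT_approx (hA : at_ A true ≠ at_ A false) (hB : at_ B true ≠ at_ B false)
    (hC : at_ C true ≠ at_ C false) (i j k : Bool) :
    |TT S at_ i j k - ∑ a, ∑ b, ∑ c, χ a * χ b * χ c *
      mm S at_ {X, Y, Z, A, B, C} (ta i j k a b c)| ≤
      res S at_ A + res S at_ B + res S at_ C := by
  have e : TT S at_ i j k - ∑ a, ∑ b, ∑ c, χ a * χ b * χ c *
      mm S at_ {X, Y, Z, A, B, C} (ta i j k a b c) = ∑ ω, S.q ω *
        ((ui S at_ X i ω * ui S at_ Y j ω * ui S at_ Z k ω) *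
        (sg S at_ A ω * sg S at_ B ω * sg S at_ C ω -
        (ui S at_ A true ω - ui S at_ A false ω) * (ui S at_ B true ω - ui S at_ B false ω) *
          (ui S at_ C true ω - ui S at_ C false ω))) := by
    simp only [mm_six, Fintype.sum_bool, χ, if_true, if_false, Bool.false_eq_true, Finset.mul_sum]
    unfold TT
    rw [← Finset.sum_add_distrib, ← Finset.sum_add_distrib, ← Finset.sum_add_distrib,
      ← Finset.sum_add_distrib, ← Finset.sum_add_distrib, ← Finset.sum_add_distrib,
      ← Finset.sum_add_distrib, ← Finset.sum_sub_distrib]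
    apply Finset.sum_congr rfl
    intro ω _
    ring
  rw [e, res_eq, res_eq, res_eq, ← Finset.sum_add_distrib, ← Finset.sum_add_distrib]
  refine (Finset.abs_sum_le_sum_abs _ _).trans ?_
  apply Finset.sum_le_sum
  intro ω _
  rw [abs_mul, abs_of_nonneg (S.nonneg ω), ← mul_add, ← mul_add]
  apply mul_le_mul_of_nonneg_left _ (S.nonneg ω)
  obtain ⟨x0, x1⟩ := ui_bd S at_ X i ω
  obtain ⟨y0, y1⟩ := ui_bd S at_ Y j ω
  obtain ⟨z0, z1⟩ := ui_bd S at_ Z k ω
  have w0 : 0 ≤ ui S at_ X i ω * ui S at_ Y j ω * ui S at_ Z k ω := by positivity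
  have w1 : ui S at_ X i ω * ui S at_ Y j ω * ui S at_ Z k ω ≤ 1 := by
    calc _ ≤ (1 : ℝ) * 1 * 1 := by gcongr
      _ = 1 := by norm_num
  rw [abs_mul, abs_of_nonneg w0]
  have key : |sg S at_ A ω * sg S at_ B ω * sg S at_ C ω -
        (ui S at_ A true ω - ui S at_ A false ω) * (ui S at_ B true ω - ui S at_ B false ω) *
          (ui S at_ C true ω - ui S at_ C false ω)| ≤
          ri S at_ A ω + ri S at_ B ω + ri S at_ C ω := by
    unfold sg
    rcases ui_cases S at_ hA ω with ⟨a1, a2, a3⟩ | ⟨a1, a2, a3⟩ | ⟨a1, a2, a3⟩ <;>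
    rcases ui_cases S at_ hB ω with ⟨b1, b2, b3⟩ | ⟨b1, b2, b3⟩ | ⟨b1, b2, b3⟩ <;>
    rcases ui_cases S at_ hC ω with ⟨c1, c2, c3⟩ | ⟨c1, c2, c3⟩ | ⟨c1, c2, c3⟩ <;>
    rw [a1, a2, a3, b1, b2, b3, c1, c2, c3] <;> norm_num
  calc _ ≤ 1 * |sg S at_ A ω * sg S at_ B ω * sg S at_ C ω -
        (ui S at_ A true ω - ui S at_ A false ω) * (ui S at_ B true ω - ui S at_ B false ω) *
          (ui S at_ C true ω - ui S at_ C false ω)| := mul_le_mul_of_nonneg_right w1 (abs_nonneg _)
    _ ≤ _ := by rw [one_mul]; exact key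

/-- locality -/
lemma TT_loc (k₀ : Bool) (w : Bool → Bool → ℝ)
    (hw : ∀ i j, w i j = mm S at_ {X, Y, Z} (ta i j (xor k₀ (xor i j)) false false false))
    (hpos : ∀ i j, 0 < w i j) (s : Bool → Bool → ℝ) (hs : ∀ i j, s i j = 1 ∨ s i j = -1)
    (hprod : s false false * s false true * s true false * s true true = -1) :
    ∑ i, ∑ j, s i j * (TT S at_ i j (xor k₀ (xor i j)) / w i j) ≤ 2 := by
  classical
  obtain ⟨L, iL, p, F, G, K, hp0, hp1, hF, hG, hK, hloc⟩ := S.loc
    (fun a => if a = at_ A true then 1 else -1) (fun b => if b = at_ B true then 1 else -1)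
    (fun c => if c = at_ C true then 1 else -1)
    (fun a => by split_ifs <;> norm_num) (fun a => by split_ifs <;> norm_num)
    (fun a => by split_ifs <;> norm_num)
  have hT : ∀ i j k, TT S at_ i j k = mm S at_ {X, Y, Z} (ta i j k false false false) *
      ∑ l, p l * (F (at_ X i) l * G (at_ Y j) l * K (at_ Z k) l) := by
    intro i j k
    rw [mm_XYZ, ← hloc]
    unfold TT
    apply Finset.sum_congr rfl
    intro ω _
    unfold ui sg ui
    by_cases h4 : ω X = at_ X i <;> by_cases h5 : ω Y = at_ Y j <;> by_cases h6 : ω Z = at_ Z k <;>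
      simp only [h4, h5, h6, if_true, if_false, and_self, and_true, and_false, false_and, true_and,
        mul_zero, zero_mul, mul_one, one_mul]
    congr 1
    by_cases h1 : ω A = at_ A true <;> by_cases h2 : ω B = at_ B true <;>
      by_cases h3 : ω C = at_ C true <;> simp [h1, h2, h3] <;> norm_num
  have hE : ∀ i j, TT S at_ i j (xor k₀ (xor i j)) / w i j =
      ∑ l, p l * (F (at_ X i) l * G (at_ Y j) l * K (at_ Z (xor k₀ (xor i j))) l) := by
    intro i j
    rw [hT, ← hw, mul_div_cancel_left₀ _ (hpos i j).ne']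
  simp only [hE, Fintype.sum_bool]
  simp only [Finset.mul_sum]
  rw [← Finset.sum_add_distrib, ← Finset.sum_add_distrib, ← Finset.sum_add_distrib]
  calc _ ≤ ∑ l, p l * 2 := by
        apply Finset.sum_le_sum
        intro l _
        have := mermin (hF (at_ X false) l) (hF (at_ X true) l) (hG (at_ Y false) l)
          (hG (at_ Y true) l) (hK (at_ Z (xor k₀ (xor false false))) l)
          (hK (at_ Z (xor k₀ (xor false true))) l) (hs false false) (hs false true)
          (hs true false) (hs true true) hprod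
        have e1 : (true ^^ true) = (false ^^ false) := rfl
        have e2 : (true ^^ false) = (false ^^ true) := rfl
        rw [e1, e2]
        have h2 := mul_le_mul_of_nonneg_left this (hp0 l)
        refine le_trans (le_of_eq ?_) h2
        ring
    _ = 2 := by rw [← Finset.sum_mul, hp1, one_mul]

/-- entropy of the outputs in terms of the atoms -/
lemma ent_approx (hA : at_ A true ≠ at_ A false) (hB : at_ B true ≠ at_ B false)
    (hC : at_ C true ≠ at_ C false) :
    |HH S {A, B, C} - ∑ a, ∑ b, ∑ c, Real.negMulLog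
      (mm S at_ {A, B, C} (ta false false false a b c))| ≤
      nrm S.q (fun ω => hh S {A, B, C, X, Y} ω - 4 * Real.log 2) +
      4 * Real.log 2 * (res S at_ A + res S at_ B + res S at_ C) := by
  classical
  have hval : ∀ a b c, Real.negMulLog (mm S at_ {A, B, C} (ta false false false a b c)) =
      ∑ ω, S.q ω * (ui S at_ A a ω * ui S at_ B b ω * ui S at_ C c ω) * hh S {A, B, C} ω := by
    intro a b c
    have h1 : ∀ ω, S.q ω * (ui S at_ A a ω * ui S at_ B b ω * ui S at_ C c ω) * hh S {A, B, C} ω =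
        S.q ω * (ui S at_ A a ω * ui S at_ B b ω * ui S at_ C c ω) *
          (-Real.log (mm S at_ {A, B, C} (ta false false false a b c))) := by
      intro ω
      by_cases hω : ω A = at_ A a ∧ ω B = at_ B b ∧ ω C = at_ C c
      · congr 1
        unfold hh sur ms mm
        congr 2
        apply Finset.sum_congr rfl
        intro ω' _
        have : rs S {A, B, C} ω' = rs S {A, B, C} ω ↔
            (∀ v ∈ ({A, B, C} : Finset Obs), ω' v = at_ v (ta false false false a b c v)) := by
          rw [rs_eq_iff]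
          simp only [Finset.forall_mem_insert, Finset.mem_singleton, forall_eq, ta]
          rw [hω.1, hω.2.1, hω.2.2]
        by_cases h3 : rs S {A, B, C} ω' = rs S {A, B, C} ω
        · rw [if_pos h3, if_pos (this.mp h3)]
        · rw [if_neg h3, if_neg (fun h4 => h3 (this.mpr h4))]
      · have : ui S at_ A a ω * ui S at_ B b ω * ui S at_ C c ω = 0 := by
          unfold ui
          by_cases h1 : ω A = at_ A a <;> by_cases h2 : ω B = at_ B b <;>
            by_cases h3 : ω C = at_ C c <;> simp_all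
        rw [this]; ring
    simp only [h1]
    rw [← Finset.sum_mul, ← mm_ABC]
    unfold Real.negMulLog
    ring
  simp only [hval, Fintype.sum_bool]
  unfold HH ent
  rw [← Finset.sum_add_distrib, ← Finset.sum_add_distrib, ← Finset.sum_add_distrib,
      ← Finset.sum_add_distrib, ← Finset.sum_add_distrib, ← Finset.sum_add_distrib,
      ← Finset.sum_add_distrib, ← Finset.sum_sub_distrib]
  rw [res_eq, res_eq, res_eq, ← Finset.sum_add_distrib, ← Finset.sum_add_distrib, Finset.mul_sum]
  unfold nrm
  rw [← Finset.sum_add_distrib]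
  refine (Finset.abs_sum_le_sum_abs _ _).trans ?_
  apply Finset.sum_le_sum
  intro ω _
  rcases (S.nonneg ω).eq_or_lt with h0 | h0
  · rw [← h0]; simp
  have hle : hh S {A, B, C} ω ≤ hh S {A, B, C, X, Y} ω := by
    apply sur_le S.nonneg _ _ _ h0
    intro ω ω' h
    rw [rs_eq_iff] at h ⊢
    intro v hv
    apply h v
    revert hv
    revert v
    decide
  have hnn : 0 ≤ hh S {A, B, C} ω := sur_nonneg S.nonneg S.sum_one _ _
  have hle2 : hh S {A, B, C} ω ≤ |hh S {A, B, C, X, Y} ω - 4 * Real.log 2| + 4 * Real.log 2 := by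
    have := le_abs_self (hh S {A, B, C, X, Y} ω - 4 * Real.log 2)
    linarith
  have hab := abs_nonneg (hh S {A, B, C, X, Y} ω - 4 * Real.log 2)
  have hl2 : 0 < Real.log 2 := Real.log_pos (by norm_num)
  have hch : sur S.q (rs S {A, B, C}) ω = hh S {A, B, C} ω := rfl
  rw [hch]
  obtain ⟨h, hh'⟩ : ∃ h, h = hh S {A, B, C} ω := ⟨_, rfl⟩
  obtain ⟨t, ht⟩ : ∃ t, t = |hh S {A, B, C, X, Y} ω - 4 * Real.log 2| := ⟨_, rfl⟩
  rw [← hh'] at hnn hle2 ⊢
  rw [← ht] at hle2 hab ⊢
  have hfac : ∀ u : ℝ, 0 ≤ u → u ≤ 1 → ∀ r : ℝ, 1 - u ≤ r → |S.q ω * h - S.q ω * u * h| ≤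
      S.q ω * t + 4 * Real.log 2 * (S.q ω * r) := by
    intro u hu0 hu1 r hr
    have e : S.q ω * h - S.q ω * u * h = S.q ω * ((1 - u) * h) := by ring
    rw [e, abs_of_nonneg (by apply mul_nonneg h0.le; apply mul_nonneg <;> linarith)]
    have h3 : (1 - u) * h ≤ t + 4 * Real.log 2 * r := by
      calc (1 - u) * h ≤ (1 - u) * (t + 4 * Real.log 2) :=
            mul_le_mul_of_nonneg_left hle2 (by linarith)
        _ = (1 - u) * t + (1 - u) * (4 * Real.log 2) := by ring
        _ ≤ 1 * t + r * (4 * Real.log 2) := by gcongr; linarith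
        _ = _ := by ring
    calc S.q ω * ((1 - u) * h) ≤ S.q ω * (t + 4 * Real.log 2 * r) :=
          mul_le_mul_of_nonneg_left h3 h0.le
      _ = _ := by ring
  have hsum : S.q ω * h - (S.q ω * (ui S at_ A true ω * ui S at_ B true ω * ui S at_ C true ω) * h +
      S.q ω * (ui S at_ A true ω * ui S at_ B true ω * ui S at_ C false ω) * h +
      (S.q ω * (ui S at_ A true ω * ui S at_ B false ω * ui S at_ C true ω) * h +
        S.q ω * (ui S at_ A true ω * ui S at_ B false ω * ui S at_ C false ω) * h) +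
      (S.q ω * (ui S at_ A false ω * ui S at_ B true ω * ui S at_ C true ω) * h +
        S.q ω * (ui S at_ A false ω * ui S at_ B true ω * ui S at_ C false ω) * h +
        (S.q ω * (ui S at_ A false ω * ui S at_ B false ω * ui S at_ C true ω) * h +
          S.q ω * (ui S at_ A false ω * ui S at_ B false ω * ui S at_ C false ω) * h))) =
      S.q ω * h - S.q ω * ((ui S at_ A true ω + ui S at_ A false ω) *
        (ui S at_ B true ω + ui S at_ B false ω) * (ui S at_ C true ω + ui S at_ C false ω)) * h := by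
    ring
  rw [hsum]
  rw [show S.q ω * ri S at_ A ω + S.q ω * ri S at_ B ω + S.q ω * ri S at_ C ω =
    S.q ω * (ri S at_ A ω + ri S at_ B ω + ri S at_ C ω) by ring]
  apply hfac
  · rcases ui_cases S at_ hA ω with ⟨a1, a2, a3⟩ | ⟨a1, a2, a3⟩ | ⟨a1, a2, a3⟩ <;>
    rcases ui_cases S at_ hB ω with ⟨b1, b2, b3⟩ | ⟨b1, b2, b3⟩ | ⟨b1, b2, b3⟩ <;>
    rcases ui_cases S at_ hC ω with ⟨c1, c2, c3⟩ | ⟨c1, c2, c3⟩ | ⟨c1, c2, c3⟩ <;>
    rw [a1, a2, b1, b2, c1, c2] <;> norm_num
  · rcases ui_cases S at_ hA ω with ⟨a1, a2, a3⟩ | ⟨a1, a2, a3⟩ | ⟨a1, a2, a3⟩ <;>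
    rcases ui_cases S at_ hB ω with ⟨b1, b2, b3⟩ | ⟨b1, b2, b3⟩ | ⟨b1, b2, b3⟩ <;>
    rcases ui_cases S at_ hC ω with ⟨c1, c2, c3⟩ | ⟨c1, c2, c3⟩ | ⟨c1, c2, c3⟩ <;>
    rw [a1, a2, b1, b2, c1, c2] <;> norm_num
  · rcases ui_cases S at_ hA ω with ⟨a1, a2, a3⟩ | ⟨a1, a2, a3⟩ | ⟨a1, a2, a3⟩ <;>
    rcases ui_cases S at_ hB ω with ⟨b1, b2, b3⟩ | ⟨b1, b2, b3⟩ | ⟨b1, b2, b3⟩ <;>
    rcases ui_cases S at_ hC ω with ⟨c1, c2, c3⟩ | ⟨c1, c2, c3⟩ | ⟨c1, c2, c3⟩ <;>
    rw [a1, a2, a3, b1, b2, b3, c1, c2, c3] <;> norm_num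

end finite

theorem core {ι : Type*} (g : Ultrafilter ι) (M : ι → Sp)
    (hV : ∀ s, Tendsto (fun n => HH (M n) s) g (𝓝 (Vq s))) : False := by
  obtain ⟨⟨cX, cY, cZ, cA, cB, cC⟩, ⟨cXY, cXZ, cYZ, cXYZ⟩, cABXY, cACXY, cBCXY, cABCXY, c6⟩ :=
    small_all hV
  choose at_ hat using fun n v => exists_atoms_fun (M n) v
  have hsm : ∀ v, v ≠ D → Small (g : Filter ι) M (fun n ω => hh (M n) {v} ω - Real.log 2) := by
    intro v hv
    cases v
    · exact cX
    · exact cY
    · exact cZ
    · exact cA
    · exact cB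
    · exact cC
    · exact absurd rfl hv
  have hev : ∀ v, v ≠ D → ∀ᶠ n in (g : Filter ι),
      nrm (M n).q (fun ω => hh (M n) {v} ω - Real.log 2) < 1 / 50 := by
    intro v hv
    exact (hsm v hv).eventually (gt_mem_nhds (by norm_num))
  have hinj : ∀ v, v ≠ D → ∀ᶠ n in (g : Filter ι), at_ n v true ≠ at_ n v false := by
    intro v hv
    filter_upwards [hev v hv] with n hn
    exact (hat n v hn).1
  have hres : ∀ v, v ≠ D → Tendsto (fun n => res (M n) (at_ n) v) g (𝓝 0) := by
    intro v hv
    have h1 : Tendsto (fun n => 8 * nrm (M n).q (fun ω => hh (M n) {v} ω - Real.log 2)) g (𝓝 0) := by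
      have := (hsm v hv : Tendsto _ _ _).const_mul 8
      simpa using this
    apply squeeze_zero' (Filter.Eventually.of_forall fun n => res_nonneg _ _ _) _ h1
    filter_upwards [hev v hv] with n hn
    exact (hat n v hn).2
  have hlim : ∀ s t, ∃ x, Tendsto (fun n => mm (M n) (at_ n) s t) g (𝓝 x) := by
    intro s t
    obtain ⟨x, -, hx⟩ := (isCompact_Icc (a := (0:ℝ)) (b := 1)).ultrafilter_le_nhds
      (g.map (fun n => mm (M n) (at_ n) s t)) (by
        rw [Filter.le_principal_iff]
        change _ ∈ Filter.map (fun n => mm (M n) (at_ n) s t) (g : Filter ι)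
        rw [Filter.mem_map]
        exact Filter.univ_mem' fun n => ⟨mm_nonneg _ _ _ _, mm_le_one _ _ _ _⟩)
    exact ⟨x, hx⟩
  choose μ hμ using hlim
  have hM3 : ∀ (s : Finset Obs) (k : ℕ), Small (g : Filter ι) M
      (fun n ω => hh (M n) s ω - k * Real.log 2) → ∀ t, μ s t = 0 ∨ μ s t = (1 / 2) ^ k := by
    intro s k hs t
    have h1 : Tendsto (fun n => |(-Real.negMulLog (mm (M n) (at_ n) s t)) +
        (k * Real.log 2) * mm (M n) (at_ n) s t|) g
        (𝓝 |(-Real.negMulLog (μ s t)) + (k * Real.log 2) * μ s t|) := by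
      apply Tendsto.abs
      apply Tendsto.add
      · exact ((Real.continuous_negMulLog.tendsto _).comp (hμ s t)).neg
      · exact (hμ s t).const_mul _
    have h2 : Tendsto (fun n => |(-Real.negMulLog (mm (M n) (at_ n) s t)) +
        (k * Real.log 2) * mm (M n) (at_ n) s t|) g (𝓝 0) :=
      squeeze_zero (fun n => abs_nonneg _) (fun n => mm_contrib (M n) (at_ n) s t _) hs
    have h3 := tendsto_nhds_unique h1 h2
    rw [abs_eq_zero] at h3
    unfold Real.negMulLog at h3
    have h4 : μ s t * (Real.log (μ s t) + k * Real.log 2) = 0 := by linarith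
    rcases mul_eq_zero.mp h4 with h5 | h5
    · exact Or.inl h5
    · have h0 : 0 ≤ μ s t := ge_of_tendsto' (hμ s t) fun n => mm_nonneg _ _ _ _
      rcases h0.eq_or_lt with h6 | h6
      · exact Or.inl h6.symm
      · right
        have h7 : Real.log (μ s t) = Real.log ((1 / 2) ^ k) := by
          rw [Real.log_pow, one_div, Real.log_inv]
          linarith
        exact Real.log_injOn_pos (Set.mem_Ioi.mpr h6) (Set.mem_Ioi.mpr (by positivity)) h7
  have hL : Lim μ := by
    refine ⟨?_, ?_, ?_, ?_, ?_, ?_, ?_, ?_, ?_, ?_⟩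
    · intro t
      refine tendsto_nhds_unique (hμ ∅ t) ?_
      simp only [mm_empty]
      exact tendsto_const_nhds
    · intro s v hvs hvD t
      have h1 : Tendsto (fun n => mm (M n) (at_ n) s t -
          (mm (M n) (at_ n) (insert v s) (Function.update t v true) +
          mm (M n) (at_ n) (insert v s) (Function.update t v false))) g (𝓝 0) := by
        apply squeeze_zero_norm' _ (hres v hvD)
        filter_upwards [hinj v hvD] with n hn
        rw [Real.norm_eq_abs]
        exact mm_split (M n) (at_ n) s v hvs hn t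
      have h2 := (hμ s t).sub ((hμ (insert v s) (Function.update t v true)).add
        (hμ (insert v s) (Function.update t v false)))
      have h3 := tendsto_nhds_unique h1 h2
      linarith
    · intro t
      have := hM3 {X, Y} 2 (by exact_mod_cast cXY) t
      norm_num at this ⊢
      exact this
    · intro t
      have := hM3 {X, Z} 2 (by exact_mod_cast cXZ) t
      norm_num at this ⊢
      exact this
    · intro t
      have := hM3 {Y, Z} 2 (by exact_mod_cast cYZ) t
      norm_num at this ⊢
      exact this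
    · intro t
      have := hM3 {X, Y, Z} 2 (by exact_mod_cast cXYZ) t
      norm_num at this ⊢
      exact this
    · intro t
      have := hM3 {A, B, X, Y} 4 (by exact_mod_cast cABXY) t
      norm_num at this ⊢
      exact this
    · intro t
      have := hM3 {A, C, X, Y} 4 (by exact_mod_cast cACXY) t
      norm_num at this ⊢
      exact this
    · intro t
      have := hM3 {B, C, X, Y} 4 (by exact_mod_cast cBCXY) t
      norm_num at this ⊢
      exact this
    · intro t
      have := hM3 {X, Y, Z, A, B, C} 4 (by exact_mod_cast c6) t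
      norm_num at this ⊢
      exact this
  obtain ⟨k₀, θ, hθ, hxyz, hsix⟩ := hL.struct
  -- the entropy of the outputs
  have hABC : ∀ a b c, μ {A, B, C} (ta false false false a b c) =
      if xor a (xor b c) then 1 / 4 - (θ true true + θ true false + θ false true + θ false false)
        else (θ true true + θ true false + θ false true + θ false false) := by
    intro a b c
    rw [hL.abc]
    simp only [hsix, Fintype.sum_bool]
    cases k₀ <;> cases a <;> cases b <;> cases c <;> simp <;> ring
  have hent : Vq {A, B, C} = ∑ a, ∑ b, ∑ c, Real.negMulLog (μ {A, B, C}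
      (ta false false false a b c)) := by
    refine tendsto_nhds_unique (hV {A, B, C}) ?_
    have h1 : Tendsto (fun n => ∑ a, ∑ b, ∑ c, Real.negMulLog
        (mm (M n) (at_ n) {A, B, C} (ta false false false a b c))) g
        (𝓝 (∑ a, ∑ b, ∑ c, Real.negMulLog (μ {A, B, C} (ta false false false a b c)))) := by
      apply tendsto_finsetSum
      intro a _
      apply tendsto_finsetSum
      intro b _
      apply tendsto_finsetSum
      intro c _
      exact (Real.continuous_negMulLog.tendsto _).comp (hμ _ _)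
    have h2 : Tendsto (fun n => nrm (M n).q (fun ω => hh (M n) {A, B, C, X, Y} ω - 4 * Real.log 2) +
        4 * Real.log 2 * (res (M n) (at_ n) A + res (M n) (at_ n) B + res (M n) (at_ n) C)) g
        (𝓝 0) := by
      have c' : Tendsto (fun n => nrm (M n).q
        (fun ω => hh (M n) {A, B, C, X, Y} ω - 4 * Real.log 2)) g (𝓝 0) := cABCXY
      have h3 := Filter.Tendsto.add c'
        ((((hres A (by decide)).add (hres B (by decide))).add (hres C (by decide))).const_mul
          (4 * Real.log 2))
      simpa using h3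
    have h4 : Tendsto (fun n => HH (M n) {A, B, C} - ∑ a, ∑ b, ∑ c, Real.negMulLog
        (mm (M n) (at_ n) {A, B, C} (ta false false false a b c))) g (𝓝 0) := by
      apply squeeze_zero_norm' _ h2
      filter_upwards [hinj A (by decide), hinj B (by decide), hinj C (by decide)] with n hA hB hC
      rw [Real.norm_eq_abs]
      exact ent_approx (M n) (at_ n) hA hB hC
    have h5 := h4.add h1
    simpa using h5
  -- parity
  have hprod : (32 * θ false false - 1) * (32 * θ false true - 1) * (32 * θ true false - 1) *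
      (32 * θ true true - 1) = -1 := by
    rw [Vq_ABC] at hent
    simp only [hABC, Fintype.sum_bool] at hent
    have hl2 : 0 < Real.log 2 := Real.log_pos (by norm_num)
    have l27 : Real.log 27 = 3 * Real.log 3 := by
      rw [show (27 : ℝ) = 3 ^ 3 by norm_num, Real.log_pow]; norm_num
    have l16 : Real.log 16 = 4 * Real.log 2 := by
      rw [show (16 : ℝ) = 2 ^ 4 by norm_num, Real.log_pow]; norm_num
    have l256 : Real.log 256 = 8 * Real.log 2 := by
      rw [show (256 : ℝ) = 2 ^ 8 by norm_num, Real.log_pow]; norm_num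
    have lt1 : Real.log 16 < Real.log 27 := Real.log_lt_log (by norm_num) (by norm_num)
    have lt2 : Real.log 27 < Real.log 256 := Real.log_lt_log (by norm_num) (by norm_num)
    have n0 : Real.negMulLog 0 = 0 := Real.negMulLog_zero
    have n4 : Real.negMulLog (1 / 4) = Real.log 2 / 2 := by
      unfold Real.negMulLog
      rw [one_div, Real.log_inv, show (4 : ℝ) = 2 ^ 2 by norm_num, Real.log_pow]
      norm_num
      ring
    have n8 : Real.negMulLog (1 / 8) = 3 / 8 * Real.log 2 := by
      unfold Real.negMulLog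
      rw [one_div, Real.log_inv, show (8 : ℝ) = 2 ^ 3 by norm_num, Real.log_pow]
      norm_num
      ring
    simp only [Bool.xor_true, Bool.xor_false, Bool.not_true, Bool.not_false, if_true, if_false,
      Bool.false_eq_true] at hent
    rcases hθ false false with e1 | e1 <;> rcases hθ false true with e2 | e2 <;>
      rcases hθ true false with e3 | e3 <;> rcases hθ true true with e4 | e4 <;>
      rw [e1, e2, e3, e4] at hent ⊢ <;> norm_num at hent ⊢ <;> exfalso <;>
      norm_num [n4, n8] at hent <;> linarith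
  -- the signed correlations
  have hσ : ∀ i j, (-(32 * θ i j - 1) = 1 ∨ -(32 * θ i j - 1) = -1) := by
    intro i j
    rcases hθ i j with e | e <;> rw [e] <;> norm_num
  have hw : ∀ i j, Tendsto (fun n => mm (M n) (at_ n) {X, Y, Z}
      (ta i j (xor k₀ (xor i j)) false false false)) g (𝓝 (1 / 4)) := by
    intro i j
    have := hμ {X, Y, Z} (ta i j (xor k₀ (xor i j)) false false false)
    rw [hxyz, if_pos rfl] at this
    exact this
  have hT : ∀ i j, Tendsto (fun n => TT (M n) (at_ n) i j (xor k₀ (xor i j))) g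
      (𝓝 ((1 - 32 * θ i j) / 4)) := by
    intro i j
    have h1 : Tendsto (fun n => ∑ a, ∑ b, ∑ c, χ a * χ b * χ c *
      mm (M n) (at_ n) {X, Y, Z, A, B, C} (ta i j (xor k₀ (xor i j)) a b c)) g
        (𝓝 (∑ a, ∑ b, ∑ c, χ a * χ b * χ c *
      μ {X, Y, Z, A, B, C} (ta i j (xor k₀ (xor i j)) a b c))) := by
      apply tendsto_finsetSum
      intro a _
      apply tendsto_finsetSum
      intro b _
      apply tendsto_finsetSum
      intro c _
      exact (hμ _ _).const_mul _
    have e : ∑ a, ∑ b, ∑ c, χ a * χ b * χ c *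
      μ {X, Y, Z, A, B, C} (ta i j (xor k₀ (xor i j)) a b c) = (1 - 32 * θ i j) / 4 := by
      simp only [hsix, if_true, Fintype.sum_bool, χ, Bool.xor_true, Bool.xor_false, Bool.not_true,
        Bool.not_false, if_false, Bool.false_eq_true]
      ring
    rw [e] at h1
    have h2 : Tendsto (fun n => res (M n) (at_ n) A + res (M n) (at_ n) B + res (M n) (at_ n) C) g
        (𝓝 0) := by
      have := ((hres A (by decide)).add (hres B (by decide))).add (hres C (by decide))
      simpa using this
    have h4 : Tendsto (fun n => TT (M n) (at_ n) i j (xor k₀ (xor i j)) -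
        ∑ a, ∑ b, ∑ c, χ a * χ b * χ c *
      mm (M n) (at_ n) {X, Y, Z, A, B, C} (ta i j (xor k₀ (xor i j)) a b c)) g (𝓝 0) := by
      apply squeeze_zero_norm' _ h2
      filter_upwards [hinj A (by decide), hinj B (by decide), hinj C (by decide)] with n hA hB hC
      rw [Real.norm_eq_abs]
      exact TT_approx (M n) (at_ n) hA hB hC i j _
    have h5 := h4.add h1
    simpa using h5
  have hE : Tendsto (fun n => ∑ i, ∑ j, (-(32 * θ i j - 1)) *
      (TT (M n) (at_ n) i j (xor k₀ (xor i j)) /
        mm (M n) (at_ n) {X, Y, Z} (ta i j (xor k₀ (xor i j)) false false false))) g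
      (𝓝 (∑ i, ∑ j, (-(32 * θ i j - 1)) * (((1 - 32 * θ i j) / 4) / (1 / 4)))) := by
    apply tendsto_finsetSum
    intro i _
    apply tendsto_finsetSum
    intro j _
    exact ((hT i j).div (hw i j) (by norm_num)).const_mul _
  have hle : ∑ i, ∑ j, (-(32 * θ i j - 1)) * (((1 - 32 * θ i j) / 4) / (1 / 4)) ≤ 2 := by
    refine le_of_tendsto hE ?_
    have hp : ∀ᶠ n in (g : Filter ι), ∀ i j, 0 < mm (M n) (at_ n) {X, Y, Z}
        (ta i j (xor k₀ (xor i j)) false false false) := by
      rw [Filter.eventually_all]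
      intro i
      rw [Filter.eventually_all]
      intro j
      exact (hw i j).eventually (lt_mem_nhds (by norm_num))
    filter_upwards [hp] with n hn
    refine TT_loc (M n) (at_ n) k₀ _ (fun i j => rfl) hn _ hσ ?_
    linear_combination hprod
  have hge : ∑ i, ∑ j, (-(32 * θ i j - 1)) * (((1 - 32 * θ i j) / 4) / (1 / 4)) = 4 := by
    have : ∀ i j, (-(32 * θ i j - 1)) * (((1 - 32 * θ i j) / 4) / (1 / 4)) = 1 := by
      intro i j
      rcases hθ i j with e | e <;> rw [e] <;> norm_num
    simp only [this]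
    simp
    norm_num
  linarith

end Pool.Agent.V11263.Ent
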