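import Mathlib
import Pool.Agent.V11263.EntG
import Pool.Agent.V11263.Causal

set_option autoImplicit false

namespace Pool.Agent.V11263.Ent

open Finset Filter Topology Obs Causal

/-- the edges of the causal structure used here -/
def edge₀ : Obs ⊕ Unit → Obs ⊕ Unit → Bool
  | Sum.inl X, Sum.inl Z => true
  | Sum.inl Y, Sum.inl Z => true
  | Sum.inl X, Sum.inl A => true
  | Sum.inr _, Sum.inl A => true
  | Sum.inl Y, Sum.inl B => true
  | Sum.inr _, Sum.inl B => true
  | Sum.inl Z, Sum.inl C => true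
  | Sum.inr _, Sum.inl C => true
  | Sum.inl A, Sum.inl D => true
  | Sum.inl Y, Sum.inl D => true
  | _, _ => false

/-- a rank function -/
def rank₀ : Obs ⊕ Unit → ℕ
  | Sum.inl Z => 1
  | Sum.inl A => 1
  | Sum.inl B => 1
  | Sum.inl C => 2
  | Sum.inl D => 2
  | _ => 0

/-- The causal structure: observed nodes `X, Y, Z, A, B, C, D` and one unobserved node `Λ`;
edges `X → Z`, `Y → Z`, `X → A`, `Λ → A`, `Y → B`, `Λ → B`, `Z → C`, `Λ → C`, `A → D`, `Y → D`. -/
abbrev C₀ : CausalStructure where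
  O := Obs
  U := Unit
  edge v w := edge₀ v w = true
  acyclic := ⟨rank₀, by decide⟩

section bridge
variable {O : Type} [Fintype O] [DecidableEq O] {α : O → Type} [∀ o, Fintype (α o)]

lemma entropy_eq (q : (∀ o, α o) → ℝ) (S : Finset O) :
    entropy q S * Real.log 2 = ent q (fun (x : ∀ o, α o) (o : S) => x o) := by
  unfold entropy
  rw [div_mul_cancel₀ _ (Real.log_pos (by norm_num)).ne']
  have h1 : ∀ y : ∀ o : S, α o, marginal q S y = ms q (fun (x : ∀ o, α o) (o : S) => x o) y := by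
    intro y
    unfold marginal ms
    apply Finset.sum_congr rfl
    intro x _
    by_cases h : (fun o : S => x o) = y
    · rw [if_pos h, if_pos h]
    · rw [if_neg h, if_neg h]
  simp only [h1]
  unfold ent sur
  rw [← sum_ms (fun (x : ∀ o, α o) (o : S) => x o)
    (fun y => -Real.log (ms q (fun (x : ∀ o, α o) (o : S) => x o) y))]
  apply Finset.sum_congr rfl
  intro y _
  unfold Real.negMulLog
  ring

end bridge

section prod
lemma univ_Obs : (Finset.univ : Finset Obs) = {X, Y, Z, A, B, C, D} := by decide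

lemma prod_Obs {R : Type*} [CommMonoid R] (f : Obs → R) :
    ∏ o, f o = f X * (f Y * (f Z * (f A * (f B * (f C * f D))))) := by
  rw [univ_Obs]
  rw [Finset.prod_insert (by decide), Finset.prod_insert (by decide), Finset.prod_insert (by decide),
    Finset.prod_insert (by decide), Finset.prod_insert (by decide), Finset.prod_insert (by decide),
    Finset.prod_singleton]

variable {α : Obs → Type}

/-- an assignment from its values -/
def mk (x : α X) (y : α Y) (z : α Z) (a : α A) (b : α B) (c : α C) (d : α D) : ∀ o, α o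
  | X => x | Y => y | Z => z | A => a | B => b | C => c | D => d

lemma sum_Obs [∀ o, Fintype (α o)] (f : (∀ o, α o) → ℝ) :
    ∑ ω, f ω = ∑ x, ∑ y, ∑ z, ∑ a, ∑ b, ∑ c, ∑ d, f (mk x y z a b c d) := by
  let e : (∀ o, α o) ≃ α X × α Y × α Z × α A × α B × α C × α D :=
    { toFun := fun ω => (ω X, ω Y, ω Z, ω A, ω B, ω C, ω D)
      invFun := fun t => mk t.1 t.2.1 t.2.2.1 t.2.2.2.1 t.2.2.2.2.1 t.2.2.2.2.2.1 t.2.2.2.2.2.2
      left_inv := fun ω => by funext o; cases o <;> rfl
      right_inv := fun t => rfl }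
  rw [← e.symm.sum_comp]
  simp only [Fintype.sum_prod_type]
  rfl

end prod

section model
variable (M : ClassicalModel C₀)

/-- base points -/
noncomputable def x0 : ∀ o, M.α o := fun o => Classical.choice (M.nα o)
noncomputable def l0 : ∀ u, M.β u := fun u => Classical.choice (M.nβ u)

noncomputable def pR (l : M.β ()) : ℝ := M.R () (x0 M) (l0 M) l
noncomputable def pX (x : M.α X) : ℝ := M.P X (x0 M) (l0 M) x
noncomputable def pY (y : M.α Y) : ℝ := M.P Y (x0 M) (l0 M) y
noncomputable def pZ (x : M.α X) (y : M.α Y) (z : M.α Z) : ℝ :=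
  M.P Z (mk (α := M.α) x y (x0 M Z) (x0 M A) (x0 M B) (x0 M C) (x0 M D)) (l0 M) z
noncomputable def pA (x : M.α X) (l : M.β ()) (a : M.α A) : ℝ :=
  M.P A (mk (α := M.α) x (x0 M Y) (x0 M Z) (x0 M A) (x0 M B) (x0 M C) (x0 M D)) (fun _ => l) a
noncomputable def pB (y : M.α Y) (l : M.β ()) (b : M.α B) : ℝ :=
  M.P B (mk (α := M.α) (x0 M X) y (x0 M Z) (x0 M A) (x0 M B) (x0 M C) (x0 M D)) (fun _ => l) b
noncomputable def pC (z : M.α Z) (l : M.β ()) (c : M.α C) : ℝ :=
  M.P C (mk (α := M.α) (x0 M X) (x0 M Y) z (x0 M A) (x0 M B) (x0 M C) (x0 M D)) (fun _ => l) c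
noncomputable def pD (a : M.α A) (y : M.α Y) (d : M.α D) : ℝ :=
  M.P D (mk (α := M.α) (x0 M X) y (x0 M Z) a (x0 M B) (x0 M C) (x0 M D)) (l0 M) d

lemma dist_eq (ω : ∀ o, M.α o) : M.dist ω = ∑ l, pR M l * (pX M (ω X) * (pY M (ω Y) *
    (pZ M (ω X) (ω Y) (ω Z) * (pA M (ω X) l (ω A) * (pB M (ω Y) l (ω B) * (pC M (ω Z) l (ω C) *
      pD M (ω A) (ω Y) (ω D))))))) := by
  unfold ClassicalModel.dist
  have e : ∀ f : (∀ u : Unit, M.β u) → ℝ, ∑ l, f l = ∑ b : M.β (), f (fun _ => b) := by
    intro f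
    let e : (∀ u : Unit, M.β u) ≃ M.β () :=
      { toFun := fun l => l ()
        invFun := fun b => fun _ => b
        left_inv := fun l => by funext u; rfl
        right_inv := fun b => rfl }
    rw [← e.symm.sum_comp]
    rfl
  refine (e _).trans ?_
  apply Finset.sum_congr rfl
  intro l _
  have hP := prod_Obs (fun o => M.P o ω (fun _ => l) (ω o))
  have hR : ∏ u : Unit, M.R u ω (fun _ => l) l = M.R () ω (fun _ => l) l :=
    Fintype.prod_unique (fun u : Unit => M.R u ω (fun _ => l) l)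
  change (∏ o : Obs, M.P o ω (fun _ => l) (ω o)) * (∏ u : Unit, M.R u ω (fun _ => l) l) = _
  rw [hP, hR]
  have r1 : M.R () ω (fun _ => l) = M.R () (x0 M) (l0 M) := by
    apply M.R_local
    · intro o' h; exact absurd h (by revert o'; decide)
    · intro u' h; exact absurd h (by revert u'; decide)
  have r2 : M.P X ω (fun _ => l) = M.P X (x0 M) (l0 M) := by
    apply M.P_local
    · intro o' h; exact absurd h (by revert o'; decide)
    · intro u' h; exact absurd h (by revert u'; decide)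
  have r3 : M.P Y ω (fun _ => l) = M.P Y (x0 M) (l0 M) := by
    apply M.P_local
    · intro o' h; exact absurd h (by revert o'; decide)
    · intro u' h; exact absurd h (by revert u'; decide)
  have r4 : M.P Z ω (fun _ => l) =
      M.P Z (mk (α := M.α) (ω X) (ω Y) (x0 M Z) (x0 M A) (x0 M B) (x0 M C) (x0 M D)) (l0 M) := by
    apply M.P_local
    · intro o' h
      cases o' <;> first | rfl | exact absurd h (by decide)
    · intro u' h; exact absurd h (by revert u'; decide)
  have r5 : M.P A ω (fun _ => l) =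
      M.P A (mk (α := M.α) (ω X) (x0 M Y) (x0 M Z) (x0 M A) (x0 M B) (x0 M C) (x0 M D))
        (fun _ => l) := by
    apply M.P_local
    · intro o' h
      cases o' <;> first | rfl | exact absurd h (by decide)
    · intro u' h; rfl
  have r6 : M.P B ω (fun _ => l) =
      M.P B (mk (α := M.α) (x0 M X) (ω Y) (x0 M Z) (x0 M A) (x0 M B) (x0 M C) (x0 M D))
        (fun _ => l) := by
    apply M.P_local
    · intro o' h
      cases o' <;> first | rfl | exact absurd h (by decide)
    · intro u' h; rfl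
  have r7 : M.P C ω (fun _ => l) =
      M.P C (mk (α := M.α) (x0 M X) (x0 M Y) (ω Z) (x0 M A) (x0 M B) (x0 M C) (x0 M D))
        (fun _ => l) := by
    apply M.P_local
    · intro o' h
      cases o' <;> first | rfl | exact absurd h (by decide)
    · intro u' h; rfl
  have r8 : M.P D ω (fun _ => l) =
      M.P D (mk (α := M.α) (x0 M X) (ω Y) (x0 M Z) (ω A) (x0 M B) (x0 M C) (x0 M D)) (l0 M) := by
    apply M.P_local
    · intro o' h
      cases o' <;> first | rfl | exact absurd h (by decide)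
    · intro u' h; exact absurd h (by revert u'; decide)
  rw [r1, r2, r3, r4, r5, r6, r7, r8]
  unfold pR pX pY pZ pA pB pC pD
  ring

lemma pR_nonneg (l : M.β ()) : 0 ≤ pR M l := M.R_nonneg _ _ _ _
lemma pR_sum : ∑ l, pR M l = 1 := M.R_sum _ _ _
lemma pX_sum : ∑ x, pX M x = 1 := M.P_sum _ _ _
lemma pY_sum : ∑ x, pY M x = 1 := M.P_sum _ _ _
lemma pZ_sum (x y) : ∑ z, pZ M x y z = 1 := M.P_sum _ _ _
lemma pA_sum (x l) : ∑ a, pA M x l a = 1 := M.P_sum _ _ _
lemma pB_sum (x l) : ∑ a, pB M x l a = 1 := M.P_sum _ _ _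
lemma pC_sum (x l) : ∑ a, pC M x l a = 1 := M.P_sum _ _ _
lemma pD_sum (x l) : ∑ a, pD M x l a = 1 := M.P_sum _ _ _
lemma pA_nonneg (x l a) : 0 ≤ pA M x l a := M.P_nonneg _ _ _ _
lemma pB_nonneg (x l a) : 0 ≤ pB M x l a := M.P_nonneg _ _ _ _
lemma pC_nonneg (x l a) : 0 ≤ pC M x l a := M.P_nonneg _ _ _ _

lemma triple {α β γ : Type*} [Fintype α] [Fintype β] [Fintype γ] (u : α → ℝ) (v : β → ℝ)
    (w : γ → ℝ) : (∑ a, u a) * (∑ b, v b) * (∑ c, w c) = ∑ a, ∑ b, ∑ c, u a * v b * w c := by
  rw [Finset.sum_mul_sum, Finset.sum_mul]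
  apply Finset.sum_congr rfl
  intro a _
  rw [Finset.sum_mul_sum]

lemma comm4 {α β γ δ : Type*} [Fintype α] [Fintype β] [Fintype γ] [Fintype δ]
    (F : δ → α → β → γ → ℝ) : ∑ l, ∑ a, ∑ b, ∑ c, F l a b c = ∑ a, ∑ b, ∑ c, ∑ l, F l a b c := by
  rw [Finset.sum_comm]
  apply Finset.sum_congr rfl
  intro a _
  rw [Finset.sum_comm]
  apply Finset.sum_congr rfl
  intro b _
  rw [Finset.sum_comm]

lemma main_id (φ : M.α X → M.α Y → M.α Z → ℝ) (f : M.α A → ℝ) (g : M.α B → ℝ) (h : M.α C → ℝ) :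
    ∑ ω : (∀ o : Obs, M.α o), M.dist ω * (φ (ω X) (ω Y) (ω Z) * (f (ω A) * g (ω B) * h (ω C))) =
    ∑ x, ∑ y, ∑ z, φ x y z * (pX M x * pY M y * pZ M x y z) * ∑ l, pR M l *
      ((∑ a, pA M x l a * f a) * (∑ b, pB M y l b * g b) * (∑ c, pC M z l c * h c)) := by
  refine (sum_Obs (α := M.α) _).trans ?_
  apply Finset.sum_congr rfl
  intro x _
  apply Finset.sum_congr rfl
  intro y _
  apply Finset.sum_congr rfl
  intro z _
  have h1 : ∀ a b c d, M.dist (mk (α := M.α) x y z a b c d) = (∑ l, pR M l * (pX M x * (pY M y *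
    (pZ M x y z * (pA M x l a * (pB M y l b * pC M z l c)))))) * pD M a y d := by
    intro a b c d
    rw [dist_eq, Finset.sum_mul]
    apply Finset.sum_congr rfl
    intro l _
    simp only [mk]
    ring
  have h2 : ∀ a b c, ∑ d, M.dist (mk (α := M.α) x y z a b c d) * (φ x y z * (f a * g b * h c)) =
      (∑ l, pR M l * (pX M x * (pY M y *
    (pZ M x y z * (pA M x l a * (pB M y l b * pC M z l c)))))) * (φ x y z * (f a * g b * h c)) := by
    intro a b c
    simp only [h1]
    rw [← Finset.sum_mul, ← Finset.mul_sum, pD_sum, mul_one]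
  change ∑ a, ∑ b, ∑ c, ∑ d, M.dist (mk (α := M.α) x y z a b c d) *
    (φ x y z * (f a * g b * h c)) = _
  simp only [h2, triple]
  simp only [Finset.mul_sum, Finset.sum_mul]
  refine Eq.trans ?_ (comm4 _).symm
  apply Finset.sum_congr rfl
  intro a _
  apply Finset.sum_congr rfl
  intro b _
  apply Finset.sum_congr rfl
  intro c _
  apply Finset.sum_congr rfl
  intro l _
  ring

lemma main_id1 (φ : M.α X → M.α Y → M.α Z → ℝ) :
    ∑ ω : (∀ o : Obs, M.α o), M.dist ω * φ (ω X) (ω Y) (ω Z) =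
    ∑ x, ∑ y, ∑ z, φ x y z * (pX M x * pY M y * pZ M x y z) := by
  have := main_id M φ (fun _ => 1) (fun _ => 1) (fun _ => 1)
  simp only [mul_one, pA_sum, pB_sum, pC_sum, pR_sum] at this
  exact this

lemma ms_iff {Ω β γ : Type*} [Fintype Ω] (q : Ω → ℝ) (F : Ω → β) (G : Ω → γ) (b : β) (c : γ)
    (h : ∀ ω, F ω = b ↔ G ω = c) : ms q F b = ms q G c := by
  unfold ms
  apply Finset.sum_congr rfl
  intro ω _
  by_cases h1 : F ω = b
  · rw [if_pos h1, if_pos ((h ω).mp h1)]
  · rw [if_neg h1, if_neg (fun h2 => h1 ((h ω).mpr h2))]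

lemma ms_xyz (x : M.α X) (y : M.α Y) (z : M.α Z) :
    ms M.dist (fun ω : (∀ o : Obs, M.α o) => (ω X, ω Y, ω Z)) (x, y, z) =
      pX M x * pY M y * pZ M x y z := by
  classical
  have := main_id1 M (fun x' y' z' => if x' = x ∧ y' = y ∧ z' = z then 1 else 0)
  have e : ms M.dist (fun ω : (∀ o : Obs, M.α o) => (ω X, ω Y, ω Z)) (x, y, z) =
      ∑ ω : (∀ o : Obs, M.α o), M.dist ω * (if ω X = x ∧ ω Y = y ∧ ω Z = z then 1 else 0) := by
    unfold ms
    apply Finset.sum_congr rfl
    intro ω _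
    simp only [Prod.mk.injEq]
    by_cases h : ω X = x ∧ ω Y = y ∧ ω Z = z
    · rw [if_pos h, if_pos h, mul_one]
    · rw [if_neg h, if_neg h, mul_zero]
  rw [e, this]
  rw [Finset.sum_eq_single x, Finset.sum_eq_single y, Finset.sum_eq_single z]
  · simp
  · intro z' _ hz; rw [if_neg (fun h => hz h.2.2)]; ring
  · simp
  · intro y' _ hy
    apply Finset.sum_eq_zero
    intro z' _
    rw [if_neg (fun h => hy h.2.1)]; ring
  · simp
  · intro x' _ hx
    apply Finset.sum_eq_zero
    intro y' _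
    apply Finset.sum_eq_zero
    intro z' _
    rw [if_neg (fun h => hx h.1)]; ring
  · simp

lemma ms_xy (x : M.α X) (y : M.α Y) :
    ms M.dist (fun ω : (∀ o : Obs, M.α o) => (ω X, ω Y)) (x, y) = pX M x * pY M y := by
  classical
  have h1 : ∑ z, ms M.dist (fun ω : (∀ o : Obs, M.α o) => (ω X, ω Y, ω Z)) (x, y, z) =
      ms M.dist (fun ω : (∀ o : Obs, M.α o) => (ω X, ω Y)) (x, y) := by
    have := sum_ms_fst (q := M.dist) (fun ω : (∀ o : Obs, M.α o) => ω Z)
      (fun ω : (∀ o : Obs, M.α o) => (ω X, ω Y)) (x, y)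
    rw [← this]
    apply Finset.sum_congr rfl
    intro z _
    apply ms_iff
    intro ω
    constructor
    · intro h
      rw [Prod.mk.injEq, Prod.mk.injEq] at h
      rw [h.1, h.2.1, h.2.2]
    · intro h
      rw [Prod.mk.injEq, Prod.mk.injEq] at h
      rw [h.1, h.2.1, h.2.2]
  rw [← h1, Finset.sum_congr rfl (fun z _ => ms_xyz M x y z)]
  rw [← Finset.mul_sum, pZ_sum, mul_one]

lemma ms_x (x : M.α X) : ms M.dist (fun ω : (∀ o : Obs, M.α o) => ω X) x = pX M x := by
  have := sum_ms_fst (q := M.dist) (fun ω : (∀ o : Obs, M.α o) => ω Y)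
      (fun ω : (∀ o : Obs, M.α o) => ω X) x
  rw [← this]
  have h2 : ∀ y, ms M.dist (fun ω : (∀ o : Obs, M.α o) => (ω Y, ω X)) (y, x) = pX M x * pY M y := by
    intro y
    rw [← ms_xy]
    apply ms_iff
    intro ω
    constructor
    · intro h
      rw [Prod.mk.injEq] at h
      rw [h.1, h.2]
    · intro h
      rw [Prod.mk.injEq] at h
      rw [h.1, h.2]
  rw [Finset.sum_congr rfl (fun y _ => h2 y)]
  rw [← Finset.mul_sum, pY_sum, mul_one]

lemma ms_y (y : M.α Y) : ms M.dist (fun ω : (∀ o : Obs, M.α o) => ω Y) y = pY M y := by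
  have := sum_ms_fst (q := M.dist) (fun ω : (∀ o : Obs, M.α o) => ω X)
      (fun ω : (∀ o : Obs, M.α o) => ω Y) y
  rw [← this, Finset.sum_congr rfl (fun x _ => ms_xy M x y)]
  rw [← Finset.sum_mul, pX_sum, one_mul]

lemma avg_le {κ : Type*} [Fintype κ] (p f : κ → ℝ) (h0 : ∀ k, 0 ≤ p k) (h1 : ∑ k, p k = 1)
    (hf : ∀ k, |f k| ≤ 1) : |∑ k, p k * f k| ≤ 1 := by
  calc |∑ k, p k * f k| ≤ ∑ k, |p k * f k| := Finset.abs_sum_le_sum_abs _ _
    _ ≤ ∑ k, p k := by
        apply Finset.sum_le_sum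
        intro k _
        rw [abs_mul, abs_of_nonneg (h0 k)]
        exact mul_le_of_le_one_right (h0 k) (hf k)
    _ = 1 := h1

/-- the abstract space of a classical model -/
noncomputable def toSp : Sp where
  α := M.α
  q := M.dist
  nonneg := fun ω => by
    unfold ClassicalModel.dist
    apply Finset.sum_nonneg
    intro l _
    apply mul_nonneg
    · exact Finset.prod_nonneg fun o _ => M.P_nonneg _ _ _ _
    · exact Finset.prod_nonneg fun o _ => M.R_nonneg _ _ _ _
  sum_one := by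
    have := main_id1 M (fun _ _ _ => 1)
    simp only [mul_one, one_mul] at this
    refine this.trans ?_
    simp only [← Finset.mul_sum, pZ_sum, mul_one, pY_sum, pX_sum]
  indep := fun x y => by
    rw [ms_xy, ms_x, ms_y]
  loc := fun f g h hf hg hh => by
    classical
    refine ⟨M.β (), inferInstance, pR M, fun x l => ∑ a, pA M x l a * f a,
      fun y l => ∑ b, pB M y l b * g b, fun z l => ∑ c, pC M z l c * h c, pR_nonneg M, pR_sum M,
      fun x l => avg_le _ _ (pA_nonneg M x l) (pA_sum M x l) hf,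
      fun x l => avg_le _ _ (pB_nonneg M x l) (pB_sum M x l) hg,
      fun x l => avg_le _ _ (pC_nonneg M x l) (pC_sum M x l) hh, ?_⟩
    intro x y z
    have h1 := main_id M (fun x' y' z' => if x' = x ∧ y' = y ∧ z' = z then 1 else 0) f g h
    rw [ms_xyz]
    have h2 : (∑ ω : (∀ o : Obs, M.α o), (if ω X = x ∧ ω Y = y ∧ ω Z = z then
          M.dist ω * (f (ω A) * g (ω B) * h (ω C)) else 0)) =
        ∑ ω : (∀ o : Obs, M.α o), M.dist ω * ((if ω X = x ∧ ω Y = y ∧ ω Z = z then 1 else 0) *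
          (f (ω A) * g (ω B) * h (ω C))) := by
      apply Finset.sum_congr rfl
      intro ω _
      by_cases hc : ω X = x ∧ ω Y = y ∧ ω Z = z
      · rw [if_pos hc, if_pos hc, one_mul]
      · rw [if_neg hc, if_neg hc, zero_mul, mul_zero]
    refine Eq.trans ?_ (h2.trans (h1.trans ?_))
    · apply Finset.sum_congr rfl
      intro ω _
      by_cases hc : ω X = x ∧ ω Y = y ∧ ω Z = z
      · simp only [if_pos hc]
      · simp only [if_neg hc]
    rw [Finset.sum_eq_single x, Finset.sum_eq_single y, Finset.sum_eq_single z]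
    · rw [if_pos ⟨rfl, rfl, rfl⟩, one_mul]
    · intro z' _ hz; rw [if_neg (fun h => hz h.2.2), zero_mul, zero_mul]
    · intro h; exact absurd (Finset.mem_univ _) h
    · intro y' _ hy
      apply Finset.sum_eq_zero
      intro z' _
      rw [if_neg (fun h => hy h.2.1), zero_mul, zero_mul]
    · intro h; exact absurd (Finset.mem_univ _) h
    · intro x' _ hx
      apply Finset.sum_eq_zero
      intro y' _
      apply Finset.sum_eq_zero
      intro z' _
      rw [if_neg (fun h => hx h.1), zero_mul, zero_mul]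
    · intro h; exact absurd (Finset.mem_univ _) h

end model

/-- A vector with the entropies `Vq` is not in the closure of the classical entropy set. -/
theorem not_mem_closure (v : {S : Finset Obs // S.Nonempty} → ℝ)
    (hv : ∀ S, v S * Real.log 2 = Vq S.1) : v ∉ closure (classicalEntropySet C₀) := by
  intro hcl
  obtain ⟨w, hw, hlim⟩ := mem_closure_iff_seq_limit.mp hcl
  choose M hM using hw
  refine core (hyperfilter ℕ) (fun n => toSp (M n)) ?_
  intro s
  have hle : (hyperfilter ℕ : Filter ℕ) ≤ atTop := Nat.hyperfilter_le_atTop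
  rcases s.eq_empty_or_nonempty with rfl | hs
  · have h0 : Vq ∅ = 0 := by rw [Vq_eq ∅ 0 cnt_tab1.1]; simp
    rw [h0]
    have : ∀ n, HH (toSp (M n)) ∅ = 0 := by
      intro n
      unfold HH ent
      apply Finset.sum_eq_zero
      intro ω _
      have := hh_empty (toSp (M n)) ω
      unfold hh at this
      rw [this, mul_zero]
    simp only [this]
    exact tendsto_const_nhds
  · have h1 : Tendsto (fun n => w n ⟨s, hs⟩ * Real.log 2) atTop (𝓝 (v ⟨s, hs⟩ * Real.log 2)) :=
      ((continuous_apply (⟨s, hs⟩ : {S : Finset Obs // S.Nonempty})).tendsto v |>.comp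
        hlim).mul_const _
    rw [hv] at h1
    have h2 : ∀ n, w n ⟨s, hs⟩ * Real.log 2 = HH (toSp (M n)) s := by
      intro n
      rw [hM n]
      exact entropy_eq (O := Obs) (α := (M n).α) (M n).dist s
    simp only [h2] at h1
    exact h1.mono_left hle

end Pool.Agent.V11263.Ent
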