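import Mathlib
import Pool.Agent.V11263.EntH

set_option autoImplicit false

namespace Pool.Agent.V11263.Ent

open Finset Obs Causal Matrix
open scoped ComplexOrder

/-- the quantum distribution: uniform on the 16 points `pt w` -/
noncomputable def qQ (x : Obs → Bool) : ℝ := ∑ w : Wt, if pt w = x then 1 / 16 else 0

lemma sum_qQ (f : (Obs → Bool) → ℝ) : ∑ x, qQ x * f x = ∑ w : Wt, (1 / 16) * f (pt w) := by
  unfold qQ
  simp_rw [Finset.sum_mul]
  rw [Finset.sum_comm]
  apply Finset.sum_congr rfl
  intro w _
  simp [ite_mul]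

lemma ent_qQ (s : Finset Obs) : ent qQ (fun (x : Obs → Bool) (o : s) => x o) = Vq s := by
  unfold ent
  rw [sum_qQ, ← Finset.mul_sum]
  unfold Vq
  congr 1
  apply Finset.sum_congr rfl
  intro w _
  unfold sur
  have h : ms qQ (fun (x : Obs → Bool) (o : s) => x o) (fun o : s => pt w o) = cnt s w / 16 := by
    classical
    have h1 : ms qQ (fun (x : Obs → Bool) (o : s) => x o) (fun o : s => pt w o) =
        ∑ x, qQ x * (if (fun o : s => x o) = (fun o : s => pt w o) then 1 else 0) := by
      unfold ms
      apply Finset.sum_congr rfl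
      intro x _
      by_cases h : (fun o : s => x o) = (fun o : s => pt w o)
      · rw [if_pos h, if_pos h, mul_one]
      · rw [if_neg h, if_neg h, mul_zero]
    rw [h1, sum_qQ]
    unfold cnt
    rw [Finset.card_filter]
    push_cast
    rw [Finset.sum_div]
    apply Finset.sum_congr rfl
    intro w' _
    have h2 : ((fun o : s => pt w' o) = (fun o : s => pt w o)) ↔ (∀ v ∈ s, pt w' v = pt w v) := by
      constructor
      · intro h v hv
        exact congrFun h ⟨v, hv⟩
      · intro h
        funext o
        exact h o o.2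
    by_cases h : ∀ v ∈ s, pt w' v = pt w v
    · rw [if_pos h, if_pos (h2.mpr h)]; ring
    · rw [if_neg h, if_neg (fun h' => h (h2.mp h'))]; ring
  rw [h, ← Real.log_inv, inv_div]

/-- index types of the systems sent by the unobserved node -/
abbrev Iidx : Obs → Type
  | A => Bool
  | B => Bool
  | C => Bool
  | _ => Unit

instance fIidx : ∀ o, Fintype (Iidx o)
  | A => inferInstanceAs (Fintype Bool)
  | B => inferInstanceAs (Fintype Bool)
  | C => inferInstanceAs (Fintype Bool)
  | X => inferInstanceAs (Fintype Unit)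
  | Y => inferInstanceAs (Fintype Unit)
  | Z => inferInstanceAs (Fintype Unit)
  | D => inferInstanceAs (Fintype Unit)

instance dIidx : ∀ o, DecidableEq (Iidx o)
  | A => inferInstanceAs (DecidableEq Bool)
  | B => inferInstanceAs (DecidableEq Bool)
  | C => inferInstanceAs (DecidableEq Bool)
  | X => inferInstanceAs (DecidableEq Unit)
  | Y => inferInstanceAs (DecidableEq Unit)
  | Z => inferInstanceAs (DecidableEq Unit)
  | D => inferInstanceAs (DecidableEq Unit)

/-- index assignments from their values at `A`, `B`, `C` -/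
def mk3 (a b c : Bool) : ∀ o, Iidx o
  | A => a
  | B => b
  | C => c
  | X => ()
  | Y => ()
  | Z => ()
  | D => ()

lemma sum_Iidx {R : Type*} [AddCommMonoid R] (f : (∀ o, Iidx o) → R) :
    ∑ i, f i = ∑ a, ∑ b, ∑ c, f (mk3 a b c) := by
  let e : (∀ o, Iidx o) ≃ Bool × Bool × Bool :=
    { toFun := fun ω => (ω A, ω B, ω C)
      invFun := fun t => mk3 t.1 t.2.1 t.2.2
      left_inv := fun ω => by funext o; cases o <;> rfl
      right_inv := fun t => rfl }
  rw [← e.symm.sum_comp]
  simp only [Fintype.sum_prod_type]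
  rfl

lemma sum_unit {R : Type*} [AddCommMonoid R] {β : Type*} [Fintype β] (f : (Unit → β) → R) :
    ∑ i, f i = ∑ b, f (fun _ => b) := by
  let e : (Unit → β) ≃ β :=
    { toFun := fun ω => ω ()
      invFun := fun b => fun _ => b
      left_inv := fun ω => by funext o; rfl
      right_inv := fun t => rfl }
  rw [← e.symm.sum_comp]
  rfl

/-- the GHZ vector -/
noncomputable def ghz (a b c : Bool) : ℂ := if a = b ∧ b = c then ((Real.sqrt (1 / 2) : ℝ) : ℂ) else 0

/-- eigenvector (times `√2`) of `σ_X` (`m = false`) or `σ_Y` (`m = true`) for the eigenvalue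
`(-1)^a` -/
noncomputable def ev (m a : Bool) (s : Bool) : ℂ :=
  if s then (if a then -1 else 1) * (if m then Complex.I else 1) else 1

/-- spectral projector of `σ_X` or `σ_Y` -/
noncomputable def pauli (m a : Bool) : Matrix Bool Bool ℂ :=
  (1 / 2 : ℂ) • vecMulVec (ev m a) (star (ev m a))

lemma pauli_psd (m a : Bool) : (pauli m a).PosSemidef := by
  unfold pauli
  apply Matrix.PosSemidef.smul
  · exact Matrix.posSemidef_vecMulVec_self_star _
  · rw [Complex.le_def]; norm_num

lemma pauli_sum (m : Bool) : ∑ a, pauli m a = 1 := by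
  ext s t
  rw [Fintype.sum_bool]
  simp only [pauli, Matrix.add_apply, Matrix.smul_apply, vecMulVec_apply, Pi.star_apply,
    smul_eq_mul, ev]
  cases m <;> cases s <;> cases t <;> simp <;> norm_num

/-- the POVM elements -/
noncomputable def Eop : ∀ o : Obs, (Obs → Bool) → Bool → Matrix (Unit → Iidx o) (Unit → Iidx o) ℂ
  | X => fun _ _ => (1 / 2 : ℂ) • 1
  | Y => fun _ _ => (1 / 2 : ℂ) • 1
  | Z => fun x a => if a = xor (x X) (x Y) then 1 else 0
  | A => fun x a => (pauli (x X) a).submatrix (fun f => f ()) (fun f => f ())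
  | B => fun x a => (pauli (x Y) a).submatrix (fun f => f ()) (fun f => f ())
  | C => fun x a => (pauli (x Z) a).submatrix (fun f => f ()) (fun f => f ())
  | D => fun x a => if a = xor (x A) (x Y) then 1 else 0

lemma Eop_X (x : Obs → Bool) (a : Bool) : Eop X x a = (1 / 2 : ℂ) • 1 := rfl
lemma Eop_Y (x : Obs → Bool) (a : Bool) : Eop Y x a = (1 / 2 : ℂ) • 1 := rfl
lemma Eop_Z (x : Obs → Bool) (a : Bool) :
    Eop Z x a = if a = xor (x X) (x Y) then 1 else 0 := rfl
lemma Eop_A (x : Obs → Bool) (a : Bool) :
    Eop A x a = (pauli (x X) a).submatrix (fun f => f ()) (fun f => f ()) := rfl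
lemma Eop_B (x : Obs → Bool) (a : Bool) :
    Eop B x a = (pauli (x Y) a).submatrix (fun f => f ()) (fun f => f ()) := rfl
lemma Eop_C (x : Obs → Bool) (a : Bool) :
    Eop C x a = (pauli (x Z) a).submatrix (fun f => f ()) (fun f => f ()) := rfl
lemma Eop_D (x : Obs → Bool) (a : Bool) :
    Eop D x a = if a = xor (x A) (x Y) then 1 else 0 := rfl

lemma one_submatrix_unit : (1 : Matrix Bool Bool ℂ).submatrix (fun f : Unit → Bool => f ())
    (fun f : Unit → Bool => f ()) = 1 := by
  ext f g
  simp only [Matrix.submatrix_apply, Matrix.one_apply]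
  by_cases h : f = g
  · rw [if_pos h, if_pos (by rw [h])]
  · rw [if_neg h, if_neg]
    intro h2
    apply h
    funext u
    exact h2

lemma Eop_psd (o : Obs) (x : Obs → Bool) (a : Bool) : (Eop o x a).PosSemidef := by
  have hh : (0 : ℂ) ≤ 1 / 2 := by rw [Complex.le_def]; norm_num
  cases o
  · exact Matrix.PosSemidef.one.smul hh
  · exact Matrix.PosSemidef.one.smul hh
  · rw [Eop_Z]
    split_ifs
    · exact Matrix.PosSemidef.one
    · exact Matrix.PosSemidef.zero
  · exact (pauli_psd _ _).submatrix _
  · exact (pauli_psd _ _).submatrix _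
  · exact (pauli_psd _ _).submatrix _
  · rw [Eop_D]
    split_ifs
    · exact Matrix.PosSemidef.one
    · exact Matrix.PosSemidef.zero

lemma sum_ite_eq_bool {R : Type*} [AddCommMonoid R] (r : R) (c : Bool) :
    ∑ a : Bool, (if a = c then r else 0) = r := by
  rw [Finset.sum_ite_eq' Finset.univ c (fun _ => r), if_pos (Finset.mem_univ _)]

lemma Eop_sum (o : Obs) (x : Obs → Bool) : ∑ a, Eop o x a = 1 := by
  cases o
  · simp only [Eop_X]
    rw [Fintype.sum_bool, ← add_smul]; norm_num
  · simp only [Eop_Y]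
    rw [Fintype.sum_bool, ← add_smul]; norm_num
  · simp only [Eop_Z]
    exact sum_ite_eq_bool _ _
  · simp only [Eop_A]
    rw [Fintype.sum_bool]
    refine Eq.trans ?_ one_submatrix_unit
    rw [← pauli_sum (x X), Fintype.sum_bool]
    rfl
  · simp only [Eop_B]
    rw [Fintype.sum_bool]
    refine Eq.trans ?_ one_submatrix_unit
    rw [← pauli_sum (x Y), Fintype.sum_bool]
    rfl
  · simp only [Eop_C]
    rw [Fintype.sum_bool]
    refine Eq.trans ?_ one_submatrix_unit
    rw [← pauli_sum (x Z), Fintype.sum_bool]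
    rfl
  · simp only [Eop_D]
    exact sum_ite_eq_bool _ _

/-- the Kraus operator preparing the GHZ state -/
noncomputable def Kop : Matrix ((∀ o, Iidx o) × (Unit → Unit)) (Unit → Unit) ℂ :=
  Matrix.of fun out _ => ghz (out.1 A) (out.1 B) (out.1 C)

lemma Kop_sum : Kopᴴ * Kop = 1 := by
  ext i j
  have hij : i = j := Subsingleton.elim _ _
  rw [hij, Matrix.one_apply_eq, Matrix.mul_apply, Fintype.sum_prod_type]
  simp only [Kop, Matrix.conjTranspose_apply, Matrix.of_apply]
  simp only [sum_Iidx, sum_unit, Fintype.sum_bool, mk3, ghz]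
  have h2 : ((Real.sqrt (1 / 2) : ℝ) : ℂ) * ((Real.sqrt (1 / 2) : ℝ) : ℂ) = 1 / 2 := by
    rw [← Complex.ofReal_mul, Real.mul_self_sqrt (by norm_num)]
    norm_num
  simp
  have h3 : (((Real.sqrt 2) : ℝ) : ℂ)⁻¹ * (((Real.sqrt 2) : ℝ) : ℂ)⁻¹ = 1 / 2 := by
    rw [← mul_inv, ← Complex.ofReal_mul, Real.mul_self_sqrt (by norm_num)]
    norm_num
  rw [h3]
  norm_num

/-- the quantum model: GHZ state measured with the observables of Mermin's game -/
noncomputable def QM : QuantumModel C₀ where
  α := fun _ => Bool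
  I := fun _ o => Iidx o
  J := fun _ _ => Unit
  κ := fun _ => Unit
  I_trivial := fun u o h => by
    cases o <;> first | rfl | exact absurd rfl h
  J_trivial := fun u u' h => rfl
  K := fun _ _ _ => Kop
  K_sum := fun u x => by
    rw [Fintype.sum_unique]
    exact Kop_sum
  K_local := fun _ _ _ _ => rfl
  E := fun o x a => Eop o x a
  E_posSemidef := fun o x a => Eop_psd o x a
  E_sum := fun o x => Eop_sum o x
  E_local := fun o x x' h => by
    cases o
    · rfl
    · rfl
    · have h1 := h X rfl
      have h2 := h Y rfl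
      funext a
      rw [Eop_Z, Eop_Z, h1, h2]
    · have h1 := h X rfl
      funext a
      rw [Eop_A, Eop_A, h1]
    · have h1 := h Y rfl
      funext a
      rw [Eop_B, Eop_B, h1]
    · have h1 := h Z rfl
      funext a
      rw [Eop_C, Eop_C, h1]
    · have h1 := h A rfl
      have h2 := h Y rfl
      funext a
      rw [Eop_D, Eop_D, h1, h2]

end Pool.Agent.V11263.Ent
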