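import Mathlib
import Pool.Agent.V11263.EntI

set_option autoImplicit false

namespace Pool.Agent.V11263.Ent

open Finset Obs Causal Matrix
open scoped ComplexOrder

/-- the contraction of GHZ amplitudes with POVM elements -/
noncomputable def amp (x : Obs → Bool) (a b c a' b' c' : Bool) : ℂ :=
  ghz a b c * star (ghz a' b' c') * ((1 / 2) * ((1 / 2) *
    ((if x Z = xor (x X) (x Y) then 1 else 0) * (pauli (x X) (x A) a' a *
      (pauli (x Y) (x B) b' b * (pauli (x Z) (x C) c' c *
        (if x D = xor (x A) (x Y) then 1 else 0)))))))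

lemma QM_dist (x : Obs → Bool) : QM.dist x =
    (∑ a, ∑ b, ∑ c, ∑ a', ∑ b', ∑ c', amp x a b c a' b' c').re := by
  have key : ∀ i i' : (Unit → ∀ o, Iidx o), ∀ j j' : (Unit → Unit → Unit),
      (∏ u : Unit, ∑ k : Unit, Kop (i u, j u) (fun u' => j' u' u) *
        star (Kop (i' u, j' u) (fun u' => j' u' u))) *
      (∏ o : Obs, Eop o x (x o) (fun u => i' u o) (fun u => i u o)) =
      amp x (i () A) (i () B) (i () C) (i' () A) (i' () B) (i' () C) := by
    intro i i' j j'
    rw [prod_Obs, Fintype.prod_unique, Fintype.sum_unique]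
    have e1 : Eop X x (x X) (fun u => i' u X) (fun u => i u X) = 1 / 2 := by
      rw [Eop_X, Matrix.smul_apply, Subsingleton.elim (fun u => i' u X) (fun u => i u X),
        Matrix.one_apply_eq]
      norm_num
    have e2 : Eop Y x (x Y) (fun u => i' u Y) (fun u => i u Y) = 1 / 2 := by
      rw [Eop_Y, Matrix.smul_apply, Subsingleton.elim (fun u => i' u Y) (fun u => i u Y),
        Matrix.one_apply_eq]
      norm_num
    have e3 : Eop Z x (x Z) (fun u => i' u Z) (fun u => i u Z) =
        if x Z = xor (x X) (x Y) then 1 else 0 := by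
      rw [Eop_Z, Subsingleton.elim (fun u => i' u Z) (fun u => i u Z)]
      by_cases h : x Z = xor (x X) (x Y)
      · rw [if_pos h, if_pos h, Matrix.one_apply_eq]
      · rw [if_neg h, if_neg h, Matrix.zero_apply]
    have e4 : Eop D x (x D) (fun u => i' u D) (fun u => i u D) =
        if x D = xor (x A) (x Y) then 1 else 0 := by
      rw [Eop_D, Subsingleton.elim (fun u => i' u D) (fun u => i u D)]
      by_cases h : x D = xor (x A) (x Y)
      · rw [if_pos h, if_pos h, Matrix.one_apply_eq]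
      · rw [if_neg h, if_neg h, Matrix.zero_apply]
    rw [e1, e2, e3, e4]
    rfl
  have hd : QM.dist x = (∑ i : (Unit → ∀ o, Iidx o), ∑ i' : (Unit → ∀ o, Iidx o),
      ∑ j : (Unit → Unit → Unit), ∑ j' : (Unit → Unit → Unit),
      (∏ u : Unit, ∑ k : Unit, Kop (i u, j u) (fun u' => j' u' u) *
        star (Kop (i' u, j' u) (fun u' => j' u' u))) *
      (∏ o : Obs, Eop o x (x o) (fun u => i' u o) (fun u => i u o))).re := by
    rfl
  rw [hd]
  simp only [key]
  simp only [Finset.sum_const, Finset.card_univ, sum_unit, sum_Iidx, mk3]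
  simp

lemma star_ghz (a b c : Bool) : star (ghz a b c) = ghz a b c := by
  unfold ghz
  split_ifs
  · rw [Complex.star_def, Complex.conj_ofReal]
  · rw [star_zero]

lemma ghz_diag (a : Bool) : ghz a a a = ((Real.sqrt (1 / 2) : ℝ) : ℂ) := by
  unfold ghz
  rw [if_pos ⟨rfl, rfl⟩]

lemma ghz_mul : ((Real.sqrt (1 / 2) : ℝ) : ℂ) * ((Real.sqrt (1 / 2) : ℝ) : ℂ) = 1 / 2 := by
  rw [← Complex.ofReal_mul, Real.mul_self_sqrt (by norm_num)]
  norm_num

lemma sum_ghz (f : Bool → Bool → Bool → ℂ) :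
    ∑ a, ∑ b, ∑ c, ghz a b c * f a b c =
      ((Real.sqrt (1 / 2) : ℝ) : ℂ) * (f true true true + f false false false) := by
  simp only [Fintype.sum_bool, ghz]
  simp
  ring

lemma amp_sum (x : Obs → Bool) : ∑ a, ∑ b, ∑ c, ∑ a', ∑ b', ∑ c', amp x a b c a' b' c' =
    (1 / 2) * ((1 / 2) * ((1 / 2) * ((if x Z = xor (x X) (x Y) then 1 else 0) *
      (if x D = xor (x A) (x Y) then 1 else 0) *
      ∑ s, ∑ t, pauli (x X) (x A) t s * pauli (x Y) (x B) t s * pauli (x Z) (x C) t s))) := by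
  have h1 : ∀ a b c, ∑ a', ∑ b', ∑ c', amp x a b c a' b' c' = ghz a b c *
      ∑ a', ∑ b', ∑ c', ghz a' b' c' * ((1 / 2) * ((1 / 2) *
    ((if x Z = xor (x X) (x Y) then 1 else 0) * (pauli (x X) (x A) a' a *
      (pauli (x Y) (x B) b' b * (pauli (x Z) (x C) c' c *
        (if x D = xor (x A) (x Y) then 1 else 0))))))) := by
    intro a b c
    simp only [Finset.mul_sum]
    apply Finset.sum_congr rfl
    intro a' _
    apply Finset.sum_congr rfl
    intro b' _
    apply Finset.sum_congr rfl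
    intro c' _
    unfold amp
    rw [star_ghz]
    ring
  simp only [h1]
  simp only [sum_ghz]
  simp only [Fintype.sum_bool]
  rw [show ∀ u v w z : ℂ, ((Real.sqrt (1 / 2) : ℝ) : ℂ) * (((Real.sqrt (1 / 2) : ℝ) : ℂ) * (u + v) +
    ((Real.sqrt (1 / 2) : ℝ) : ℂ) * (w + z)) = (((Real.sqrt (1 / 2) : ℝ) : ℂ) *
    ((Real.sqrt (1 / 2) : ℝ) : ℂ)) * ((u + v) + (w + z)) from fun u v w z => by ring]
  rw [ghz_mul]
  ring

lemma pauli_val (x y a b c : Bool) :
    ∑ s, ∑ t, pauli x a t s * pauli y b t s * pauli (xor x y) c t s =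
      if c = xor a (xor b (x || y)) then 1 / 2 else 0 := by
  have I2 : Complex.I * Complex.I = -1 := Complex.I_mul_I
  simp only [Fintype.sum_bool, pauli, Matrix.smul_apply, vecMulVec_apply, Pi.star_apply,
    smul_eq_mul, ev]
  cases x <;> cases y <;> cases a <;> cases b <;> cases c <;> simp <;> ring_nf <;>
    simp only [Complex.I_sq] <;> norm_num

lemma pt_iff (x : Obs → Bool) (w : Wt) : pt w = x ↔ w = (x X, x Y, x A, x B) ∧
    x Z = xor (x X) (x Y) ∧ x C = xor (x A) (xor (x B) (x X || x Y)) ∧ x D = xor (x A) (x Y) := by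
  constructor
  · rintro rfl
    exact ⟨rfl, rfl, rfl, rfl⟩
  · rintro ⟨rfl, h1, h2, h3⟩
    funext o
    cases o
    · rfl
    · rfl
    · exact h1.symm
    · rfl
    · rfl
    · exact h2.symm
    · exact h3.symm

lemma qQ_eq (x : Obs → Bool) : qQ x = if x Z = xor (x X) (x Y) ∧
    x C = xor (x A) (xor (x B) (x X || x Y)) ∧ x D = xor (x A) (x Y) then 1 / 16 else 0 := by
  unfold qQ
  simp only [pt_iff]
  rw [Finset.sum_eq_single (x X, x Y, x A, x B)]
  · simp
  · intro w _ hw
    rw [if_neg (fun h => hw h.1)]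
  · intro h
    exact absurd (Finset.mem_univ _) h

lemma QM_dist_val (x : Obs → Bool) : QM.dist x = qQ x := by
  rw [QM_dist, amp_sum, qQ_eq]
  by_cases h1 : x Z = xor (x X) (x Y)
  · rw [h1, pauli_val]
    by_cases h2 : x D = xor (x A) (x Y)
    · by_cases h3 : x C = xor (x A) (xor (x B) (x X || x Y))
      · rw [if_pos rfl, if_pos h2, if_pos h3, if_pos ⟨rfl, h3, h2⟩]
        norm_num
      · rw [if_pos rfl, if_pos h2, if_neg h3, if_neg (fun h => h3 h.2.1)]
        simp
    · have h4 : ¬ ((x X ^^ x Y) = (x X ^^ x Y) ∧ x C = (x A ^^ (x B ^^ (x X || x Y))) ∧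
          x D = (x A ^^ x Y)) := fun h => h2 h.2.2
      rw [if_neg h4, if_neg h2]
      simp
  · have h4 : ¬ (x Z = (x X ^^ x Y) ∧ x C = (x A ^^ (x B ^^ (x X || x Y))) ∧
          x D = (x A ^^ x Y)) := fun h => h1 h.1
    rw [if_neg h4, if_neg h1]
    simp

theorem QM_dist_eq : QM.dist = qQ := funext QM_dist_val

theorem separation : ∃ C : CausalStructure,
    closure (classicalEntropySet C) ≠ closure (quantumEntropySet C) := by
  refine ⟨C₀, fun heq => ?_⟩
  have h1 : entropyVector QM.dist ∈ closure (quantumEntropySet C₀) := subset_closure ⟨QM, rfl⟩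
  rw [← heq] at h1
  refine not_mem_closure _ ?_ h1
  intro S
  have h2 : entropyVector QM.dist S * Real.log 2 = ent qQ (fun (x : Obs → Bool) (o : S.1) => x o) := by
    rw [QM_dist_eq]
    exact entropy_eq (O := Obs) (α := fun _ => Bool) qQ S.1
  rw [h2, ent_qQ]

end Pool.Agent.V11263.Ent
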