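import Mathlib

namespace Pool.Agent.V11263.Uni

open Matrix
open scoped ComplexOrder

/-- Labels of the computational basis of `N` qubits. -/
abbrev Idx (N : ℕ) := Fin N → Fin 2

/-- Operators on `N` qubits. -/
abbrev Op (N : ℕ) := Matrix (Idx N) (Idx N) ℂ

/-- The Pauli operator `σ_n = n_x X + n_y Y + n_z Z`. -/
noncomputable def sig (n : Fin 3 → ℝ) : Matrix (Fin 2) (Fin 2) ℂ :=
  !![(n 2 : ℂ), (n 0 : ℂ) - (n 1 : ℂ) * Complex.I; (n 0 : ℂ) + (n 1 : ℂ) * Complex.I, -(n 2 : ℂ)]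

/-- The tensor product of one-qubit operators. -/
def prodOp {N : ℕ} (A : Fin N → Matrix (Fin 2) (Fin 2) ℂ) : Op N :=
  Matrix.of fun s t => ∏ i, A i (s i) (t i)

/-- `⊗_{i ∈ I} σ_n^{(i)}`. -/
noncomputable def obs {N : ℕ} (n : Fin 3 → ℝ) (I : Finset (Fin N)) : Op N :=
  prodOp fun i => if i ∈ I then sig n else 1

/-- The uniform data `D_ρ(n, I) = Tr(ρ ⊗_{i ∈ I} σ_n^{(i)})`. -/
noncomputable def data {N : ℕ} (ρ : Op N) (n : Fin 3 → ℝ) (I : Finset (Fin N)) : ℂ :=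
  (ρ * obs n I).trace

/-- Equality of the uniform data. -/
def SameData {N : ℕ} (ρ σ : Op N) : Prop :=
  ∀ n : Fin 3 → ℝ, n 0 ^ 2 + n 1 ^ 2 + n 2 ^ 2 = 1 → ∀ I, data ρ n I = data σ n I

/-- Density matrices. -/
def IsState {N : ℕ} (ρ : Op N) : Prop := ρ.PosSemidef ∧ ρ.trace = 1

/-- Unit vectors. -/
def IsUnitVec {N : ℕ} (v : Idx N → ℂ) : Prop := star v ⬝ᵥ v = 1

/-- The operator `|v⟩⟨v|`. -/
def proj {N : ℕ} (v : Idx N → ℂ) : Op N := vecMulVec v (star v)

lemma prodOp_mul {N : ℕ} (A B : Fin N → Matrix (Fin 2) (Fin 2) ℂ) :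
    prodOp A * prodOp B = prodOp (fun i => A i * B i) := by
  ext x y
  simp only [prodOp, Matrix.mul_apply, Matrix.of_apply]
  rw [Finset.prod_univ_sum]
  simp [Finset.prod_mul_distrib]

lemma prodOp_one {N : ℕ} : (prodOp (fun _ => 1) : Op N) = 1 := by
  ext x y
  simp only [prodOp, Matrix.of_apply]
  by_cases h : x = y
  · subst h; simp
  · rw [Matrix.one_apply_ne h]
    obtain ⟨i, hi⟩ := Function.ne_iff.mp h
    exact Finset.prod_eq_zero (Finset.mem_univ i) (Matrix.one_apply_ne hi)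

lemma prodOp_conjTranspose {N : ℕ} (A : Fin N → Matrix (Fin 2) (Fin 2) ℂ) :
    (prodOp A)ᴴ = prodOp (fun i => (A i)ᴴ) := by
  ext x y
  simp only [prodOp, Matrix.of_apply, Matrix.conjTranspose_apply, star_prod]

lemma sig_sq {n : Fin 3 → ℝ} (hn : n 0 ^ 2 + n 1 ^ 2 + n 2 ^ 2 = 1) : sig n * sig n = 1 := by
  have h : ((n 0 : ℂ)) ^ 2 + (n 1 : ℂ) ^ 2 + (n 2 : ℂ) ^ 2 = 1 := by exact_mod_cast hn
  ext i j
  fin_cases i <;> fin_cases j <;>
    simp [sig, Matrix.mul_apply, Fin.sum_univ_two]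
  · linear_combination h - (n 1 : ℂ) ^ 2 * Complex.I_sq
  · ring
  · ring
  · linear_combination h - (n 1 : ℂ) ^ 2 * Complex.I_sq

lemma sig_herm (n : Fin 3 → ℝ) : (sig n)ᴴ = sig n := by
  ext i j
  fin_cases i <;> fin_cases j <;> simp [sig, Matrix.conjTranspose_apply] <;> ring

lemma obs_herm {N : ℕ} (n : Fin 3 → ℝ) (I : Finset (Fin N)) : (obs n I)ᴴ = obs n I := by
  rw [obs, prodOp_conjTranspose]
  congr 1
  funext i
  split_ifs
  · exact sig_herm n
  · simp

lemma obs_mul {N : ℕ} {n : Fin 3 → ℝ} (hn : n 0 ^ 2 + n 1 ^ 2 + n 2 ^ 2 = 1)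
    (I J : Finset (Fin N)) : obs n I * obs n J = obs n (symmDiff I J) := by
  rw [obs, obs, obs, prodOp_mul]
  congr 1
  funext i
  simp only [Finset.mem_symmDiff]
  by_cases h1 : i ∈ I <;> by_cases h2 : i ∈ J <;> simp [h1, h2, sig_sq hn]

lemma data_proj {N : ℕ} (v : Idx N → ℂ) (n : Fin 3 → ℝ) (I : Finset (Fin N)) :
    data (proj v) n I = star v ⬝ᵥ (obs n I *ᵥ v) := by
  rw [data, proj, Matrix.trace_mul_comm, Matrix.mul_vecMulVec, Matrix.trace_vecMulVec,
    dotProduct_comm]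

/-- total spin -/
noncomputable def tot {N : ℕ} (n : Fin 3 → ℝ) : Op N := ∑ i, obs n {i}

lemma tot_herm {N : ℕ} (n : Fin 3 → ℝ) : (tot n : Op N)ᴴ = tot n := by
  rw [tot, Matrix.conjTranspose_sum]
  exact Finset.sum_congr rfl fun i _ => obs_herm n {i}

lemma tot_norm {N : ℕ} {n : Fin 3 → ℝ} (hn : n 0 ^ 2 + n 1 ^ 2 + n 2 ^ 2 = 1) (v : Idx N → ℂ) :
    star ((tot n : Op N) *ᵥ v) ⬝ᵥ ((tot n : Op N) *ᵥ v) =
      ∑ i, ∑ j, data (proj v) n (symmDiff {i} {j}) := by
  have h1 : star ((tot n : Op N) *ᵥ v) ⬝ᵥ ((tot n : Op N) *ᵥ v) =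
      star v ⬝ᵥ (((tot n : Op N) * tot n) *ᵥ v) := by
    rw [Matrix.star_mulVec, tot_herm, ← Matrix.dotProduct_mulVec, Matrix.mulVec_mulVec]
  have h2 : (tot n : Op N) * tot n = ∑ i, ∑ j, obs n (symmDiff {i} {j}) := by
    rw [tot, Finset.sum_mul_sum]
    exact Finset.sum_congr rfl fun i _ => Finset.sum_congr rfl fun j _ => obs_mul hn _ _
  rw [h1, h2]
  simp only [data_proj, Matrix.sum_mulVec, dotProduct_sum]

/-- A pure state with the data of a pure state killed by the total spin is killed as well. -/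
lemma tot_zero {N : ℕ} {n : Fin 3 → ℝ} (hn : n 0 ^ 2 + n 1 ^ 2 + n 2 ^ 2 = 1)
    {v w : Idx N → ℂ} (h : SameData (proj w) (proj v)) (hv : (tot n : Op N) *ᵥ v = 0) :
    (tot n : Op N) *ᵥ w = 0 := by
  have h1 := tot_norm hn w
  have h2 := tot_norm hn v
  rw [hv] at h2
  have h3 : star ((tot n : Op N) *ᵥ w) ⬝ᵥ ((tot n : Op N) *ᵥ w) = 0 := by
    rw [h1]
    simp only [h n hn]
    rw [← h2]
    simp
  exact dotProduct_star_self_eq_zero.mp h3

/-- the `x` direction -/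
def ex : Fin 3 → ℝ := ![1, 0, 0]
/-- the `z` direction -/
def ez : Fin 3 → ℝ := ![0, 0, 1]

lemma ex_unit : ex 0 ^ 2 + ex 1 ^ 2 + ex 2 ^ 2 = 1 := by simp [ex]
lemma ez_unit : ez 0 ^ 2 + ez 1 ^ 2 + ez 2 ^ 2 = 1 := by simp [ez]

/-- sign -/
def sgn (a : Fin 2) : ℤ := if a = 0 then 1 else -1

lemma sig_ez (a b : Fin 2) : sig ez a b = if a = b then (sgn a : ℂ) else 0 := by
  fin_cases a <;> fin_cases b <;> simp [sig, ez, sgn]

lemma sig_ex (a b : Fin 2) : sig ex a b = if a = 1 - b then 1 else 0 := by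
  fin_cases a <;> fin_cases b <;> simp [sig, ex]

lemma obs_ez {N : ℕ} (I : Finset (Fin N)) :
    (obs ez I : Op N) = Matrix.diagonal fun s => ∏ i ∈ I, (sgn (s i) : ℂ) := by
  ext s t
  rw [obs, prodOp, Matrix.of_apply, Matrix.diagonal_apply]
  by_cases h : s = t
  · subst h
    rw [if_pos rfl, ← Finset.prod_subset (Finset.subset_univ I)]
    · exact Finset.prod_congr rfl fun i hi => by rw [if_pos hi, sig_ez, if_pos rfl]
    · intro i _ hi
      rw [if_neg hi, Matrix.one_apply_eq]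
  · rw [if_neg h]
    obtain ⟨i, hi⟩ := Function.ne_iff.mp h
    refine Finset.prod_eq_zero (Finset.mem_univ i) ?_
    split_ifs
    · rw [sig_ez, if_neg hi]
    · exact Matrix.one_apply_ne hi

/-- flipping a bit -/
def flip {N : ℕ} (s : Idx N) (i : Fin N) : Idx N := Function.update s i (1 - s i)

lemma obs_ex {N : ℕ} (i : Fin N) (v : Idx N → ℂ) (s : Idx N) :
    ((obs ex {i} : Op N) *ᵥ v) s = v (flip s i) := by
  rw [Matrix.mulVec, dotProduct, Finset.sum_eq_single (flip s i)]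
  · rw [obs, prodOp, Matrix.of_apply, Finset.prod_eq_one, one_mul]
    intro j _
    by_cases hj : j = i
    · subst hj
      rw [if_pos (Finset.mem_singleton_self j), sig_ex, if_pos]
      simp [flip]
    · rw [if_neg (by simpa using hj), flip, Function.update_of_ne hj, Matrix.one_apply_eq]
  · intro t _ ht
    rw [obs, prodOp, Matrix.of_apply]
    obtain ⟨j, hj⟩ := Function.ne_iff.mp ht
    rw [Finset.prod_eq_zero (Finset.mem_univ j), zero_mul]
    by_cases hji : j = i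
    · subst hji
      rw [if_pos (Finset.mem_singleton_self j), sig_ex, if_neg]
      intro h
      apply hj
      rw [flip, Function.update_self, h]
      simp
    · rw [if_neg (by simpa using hji)]
      rw [flip, Function.update_of_ne hji] at hj
      exact Matrix.one_apply_ne (Ne.symm hj)
  · simp

lemma tot_ex {N : ℕ} (v : Idx N → ℂ) (s : Idx N) :
    ((tot ex : Op N) *ᵥ v) s = ∑ i, v (flip s i) := by
  rw [tot, Matrix.sum_mulVec, Finset.sum_apply]
  exact Finset.sum_congr rfl fun i _ => obs_ex i v s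

lemma tot_ez {N : ℕ} (v : Idx N → ℂ) (s : Idx N) :
    ((tot ez : Op N) *ᵥ v) s = (∑ i, (sgn (s i) : ℂ)) * v s := by
  rw [tot, Matrix.sum_mulVec, Finset.sum_apply, Finset.sum_mul]
  refine Finset.sum_congr rfl fun i _ => ?_
  rw [obs_ez, Matrix.mulVec_diagonal, Finset.prod_singleton]

lemma data_ez {N : ℕ} (v : Idx N → ℂ) (I : Finset (Fin N)) :
    data (proj v) ez I = ∑ s, (∏ i ∈ I, (sgn (s i) : ℂ)) * (star (v s) * v s) := by
  rw [data_proj, dotProduct]
  refine Finset.sum_congr rfl fun s _ => ?_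
  rw [obs_ez, Matrix.mulVec_diagonal, Pi.star_apply]
  ring

/-! ### Rotations -/

/-- the same rotation on all the qubits -/
def rot {N : ℕ} (U : Matrix (Fin 2) (Fin 2) ℂ) : Op N := prodOp fun _ => U

lemma obs_conj {N : ℕ} {U : Matrix (Fin 2) (Fin 2) ℂ} (hU : U * Uᴴ = 1) {n : Fin 3 → ℝ}
    (hn : U * sig ez * Uᴴ = sig n) (I : Finset (Fin N)) :
    (rot U : Op N) * obs ez I * (rot U)ᴴ = obs n I := by
  rw [rot, obs, obs, prodOp_conjTranspose, prodOp_mul, prodOp_mul]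
  congr 1
  funext i
  split_ifs
  · exact hn
  · rw [mul_one, hU]

lemma exists_rot {n : Fin 3 → ℝ} (hn : n 0 ^ 2 + n 1 ^ 2 + n 2 ^ 2 = 1) :
    ∃ U : Matrix (Fin 2) (Fin 2) ℂ, U * Uᴴ = 1 ∧ U.det = 1 ∧ U * sig ez * Uᴴ = sig n := by
  by_cases hz : n 2 = -1
  · have h0 : n 0 = 0 := by nlinarith [sq_nonneg (n 0), sq_nonneg (n 1)]
    have h1 : n 1 = 0 := by nlinarith [sq_nonneg (n 0), sq_nonneg (n 1)]
    refine ⟨!![0, -1; 1, 0], ?_, ?_, ?_⟩
    · ext i j
      fin_cases i <;> fin_cases j <;> simp [Matrix.mul_apply, Fin.sum_univ_two]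
    · simp [Matrix.det_fin_two]
    · ext i j
      fin_cases i <;> fin_cases j <;>
        simp [sig, ez, Matrix.mul_apply, Fin.sum_univ_two, hz, h0, h1]
  · have hz1 : -1 ≤ n 2 := by nlinarith [sq_nonneg (n 0), sq_nonneg (n 1)]
    have hp : 0 < 1 + n 2 := by
      rcases hz1.lt_or_eq with h | h
      · linarith
      · exact absurd h.symm hz
    set r : ℝ := Real.sqrt (2 * (1 + n 2)) with hr
    have hr2 : r ^ 2 = 2 * (1 + n 2) := Real.sq_sqrt (by positivity)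
    have hrp : 0 < r := Real.sqrt_pos.mpr (by positivity)
    have hrc : (r : ℂ) ≠ 0 := by exact_mod_cast hrp.ne'
    have hr2c : (r : ℂ) ^ 2 = 2 * (1 + (n 2 : ℂ)) := by exact_mod_cast hr2
    have hnc : ((n 0 : ℂ)) ^ 2 + (n 1 : ℂ) ^ 2 + (n 2 : ℂ) ^ 2 = 1 := by exact_mod_cast hn
    refine ⟨((r : ℂ)⁻¹) • !![1 + (n 2 : ℂ), -((n 0 : ℂ) - (n 1 : ℂ) * Complex.I);
      (n 0 : ℂ) + (n 1 : ℂ) * Complex.I, 1 + (n 2 : ℂ)], ?_, ?_, ?_⟩
    · ext i j
      fin_cases i <;> fin_cases j <;>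
        simp [Matrix.mul_apply, Fin.sum_univ_two, Matrix.conjTranspose_apply]
      · field_simp
        linear_combination hnc - hr2c - (n 1 : ℂ) ^ 2 * Complex.I_sq
      · field_simp
        ring
      · field_simp
        ring
      · field_simp
        linear_combination hnc - hr2c - (n 1 : ℂ) ^ 2 * Complex.I_sq
    · rw [Matrix.det_smul, Matrix.det_fin_two]
      simp
      field_simp
      linear_combination hnc - hr2c - (n 1 : ℂ) ^ 2 * Complex.I_sq
    · ext i j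
      fin_cases i <;> fin_cases j <;>
        simp [sig, ez, Matrix.mul_apply, Fin.sum_univ_two, Matrix.conjTranspose_apply]
      · field_simp
        linear_combination -hnc - (n 2 : ℂ) * hr2c + (n 1 : ℂ) ^ 2 * Complex.I_sq
      · field_simp
        linear_combination -((n 0 : ℂ) - (n 1 : ℂ) * Complex.I) * hr2c
      · field_simp
        linear_combination -((n 0 : ℂ) + (n 1 : ℂ) * Complex.I) * hr2c
      · field_simp
        linear_combination hnc + (n 2 : ℂ) * hr2c - (n 1 : ℂ) ^ 2 * Complex.I_sq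

/-- For a rotation invariant vector the data do not depend on the direction. -/
lemma data_inv {N : ℕ} {v : Idx N → ℂ}
    (hv : ∀ V : Matrix (Fin 2) (Fin 2) ℂ, V.det = 1 → (rot V : Op N) *ᵥ v = v)
    {n : Fin 3 → ℝ} (hn : n 0 ^ 2 + n 1 ^ 2 + n 2 ^ 2 = 1) (I : Finset (Fin N)) :
    data (proj v) n I = data (proj v) ez I := by
  obtain ⟨U, hU, hdet, hs⟩ := exists_rot hn
  have hd : (Uᴴ).det = 1 := by rw [Matrix.det_conjTranspose, hdet, star_one]
  have hw : ((rot U : Op N)ᴴ) *ᵥ v = v := by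
    rw [rot, prodOp_conjTranspose]
    exact hv _ hd
  rw [data_proj, data_proj, ← obs_conj hU hs, ← Matrix.mulVec_mulVec, hw,
    ← Matrix.mulVec_mulVec, Matrix.dotProduct_mulVec]
  have : star v ᵥ* (rot U : Op N) = star v := by
    have := congrArg star hw
    rwa [Matrix.star_mulVec, Matrix.conjTranspose_conjTranspose] at this
  rw [this]

end Pool.Agent.V11263.Uni
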