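import Mathlib
import Pool.Agent.V11263.UniA

namespace Pool.Agent.V11263.Uni

open Matrix
open scoped ComplexOrder

/-- the sign of a pair of bits -/
def e2 (a b : Fin 2) : ℤ := if a = b then 0 else if a = 0 then 1 else -1

/-- products of three singlets, along the matching `{p 0, p 1}, {p 2, p 3}, {p 4, p 5}` -/
def S3 (p : Fin 6 → Fin 6) (s : Idx 6) : ℤ :=
  e2 (s (p 0)) (s (p 1)) * e2 (s (p 2)) (s (p 3)) * e2 (s (p 4)) (s (p 5))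

/-- table of matchings -/
def tb : Fin 6 → Fin 3 → Fin 6 → Fin 6 := ![![![0, 5, 1, 2, 3, 4], ![0, 4, 1, 3, 2, 5], ![0, 1, 2, 4, 3, 5]], ![![0, 3, 1, 2, 4, 5], ![0, 2, 1, 4, 3, 5], ![4, 0, 1, 3, 2, 5]], ![![0, 5, 1, 4, 2, 3], ![0, 3, 1, 5, 2, 4], ![4, 0, 1, 3, 2, 5]], ![![0, 5, 1, 4, 2, 3], ![0, 4, 1, 3, 2, 5], ![3, 0, 1, 5, 2, 4]], ![![0, 1, 2, 3, 4, 5], ![5, 0, 1, 3, 2, 4], ![2, 0, 1, 4, 3, 5]], ![![0, 5, 1, 2, 3, 4], ![4, 0, 1, 5, 2, 3], ![2, 0, 1, 4, 3, 5]]]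

/-- the six sign vectors -/
def g (τ : Fin 6) (s : Idx 6) : ℤ := S3 (tb τ 0) s + S3 (tb τ 1) s + S3 (tb τ 2) s

/-- the strings of weight three -/
def St : Fin 20 → Idx 6 := ![![1, 1, 1, 0, 0, 0], ![1, 1, 0, 1, 0, 0], ![1, 0, 1, 1, 0, 0], ![0, 1, 1, 1, 0, 0], ![1, 1, 0, 0, 1, 0], ![1, 0, 1, 0, 1, 0], ![0, 1, 1, 0, 1, 0], ![1, 0, 0, 1, 1, 0], ![0, 1, 0, 1, 1, 0], ![0, 0, 1, 1, 1, 0], ![1, 1, 0, 0, 0, 1], ![1, 0, 1, 0, 0, 1], ![0, 1, 1, 0, 0, 1], ![1, 0, 0, 1, 0, 1], ![0, 1, 0, 1, 0, 1], ![0, 0, 1, 1, 0, 1], ![1, 0, 0, 0, 1, 1], ![0, 1, 0, 0, 1, 1], ![0, 0, 1, 0, 1, 1], ![0, 0, 0, 1, 1, 1]]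

/-- values of the sign vectors -/
def E : Fin 6 → Fin 20 → ℤ := ![![-1, -1, 1, 1, 1, -1, 1, 1, -1, -1, 1, 1, -1, -1, 1, -1, -1, -1, 1, 1], ![1, -1, -1, 1, -1, 1, -1, 1, 1, -1, 1, -1, -1, 1, -1, 1, -1, 1, 1, -1], ![-1, 1, -1, 1, 1, 1, -1, -1, -1, 1, -1, 1, 1, 1, -1, -1, -1, 1, -1, 1], ![-1, 1, 1, -1, -1, 1, 1, -1, 1, -1, 1, -1, 1, -1, -1, 1, 1, -1, -1, 1], ![1, 1, -1, -1, -1, -1, 1, 1, -1, 1, -1, 1, -1, -1, 1, 1, 1, 1, -1, -1], ![1, -1, 1, -1, 1, -1, -1, -1, 1, 1, -1, -1, 1, 1, 1, -1, 1, -1, 1, -1]]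

lemma sum_cons {n : ℕ} {M : Type*} [AddCommMonoid M] (H : (Fin (n + 1) → Fin 2) → M) :
    ∑ t, H t = ∑ a : Fin 2, ∑ t : Fin n → Fin 2, H (Matrix.vecCons a t) := by
  rw [← (Fin.consEquiv (fun _ => Fin 2)).sum_comp, Fintype.sum_prod_type]
  rfl

lemma sum6 {M : Type*} [AddCommMonoid M] (H : Idx 6 → M) :
    ∑ t, H t = ∑ a : Fin 2, ∑ b : Fin 2, ∑ c : Fin 2, ∑ d : Fin 2, ∑ e : Fin 2, ∑ f : Fin 2,
      H ![a, b, c, d, e, f] := by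
  rw [sum_cons]
  refine Finset.sum_congr rfl fun a _ => ?_
  rw [sum_cons]
  refine Finset.sum_congr rfl fun b _ => ?_
  rw [sum_cons]
  refine Finset.sum_congr rfl fun c _ => ?_
  rw [sum_cons]
  refine Finset.sum_congr rfl fun d _ => ?_
  rw [sum_cons]
  refine Finset.sum_congr rfl fun e _ => ?_
  rw [sum_cons]
  refine Finset.sum_congr rfl fun f _ => ?_
  rw [Fintype.sum_unique]
  congr 1

lemma all6 {P : Idx 6 → Prop} (h : ∀ a b c d e f : Fin 2, P ![a, b, c, d, e, f]) (s : Idx 6) :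
    P s := by
  have : s = ![s 0, s 1, s 2, s 3, s 4, s 5] := by
    ext i
    fin_cases i <;> rfl
  rw [this]
  exact h _ _ _ _ _ _

lemma det2 (V : Matrix (Fin 2) (Fin 2) ℂ) (hV : V.det = 1) (a b : Fin 2) :
    V a 0 * V b 1 - V a 1 * V b 0 = (e2 a b : ℂ) := by
  rw [Matrix.det_fin_two] at hV
  fin_cases a <;> fin_cases b <;> simp [e2]
  · ring
  · exact hV
  · linear_combination -hV
  · ring

lemma rot_S3_id (V : Matrix (Fin 2) (Fin 2) ℂ) (hV : V.det = 1) (s : Idx 6) :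
    ∑ t : Idx 6, (∏ i, V (s i) (t i)) * (S3 id t : ℂ) = (S3 id s : ℂ) := by
  rw [sum6]
  have h : (S3 id s : ℂ) = (e2 (s 0) (s 1) : ℂ) * e2 (s 2) (s 3) * e2 (s 4) (s 5) := by
    simp [S3]
  rw [h, ← det2 V hV, ← det2 V hV, ← det2 V hV]
  simp only [Fin.sum_univ_two, Fin.prod_univ_six, S3, id, e2]
  simp
  ring

lemma rot_S3 (V : Matrix (Fin 2) (Fin 2) ℂ) (hV : V.det = 1) (p : Equiv.Perm (Fin 6))
    (s : Idx 6) :
    ((rot V : Op 6) *ᵥ (fun t => (S3 p t : ℂ))) s = (S3 p s : ℂ) := by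
  have h := rot_S3_id V hV (s ∘ p)
  have e1 : (S3 id (s ∘ p) : ℂ) = (S3 p s : ℂ) := rfl
  rw [← e1, ← h, Matrix.mulVec, dotProduct]
  rw [← Equiv.sum_comp (Equiv.arrowCongr p (Equiv.refl (Fin 2)))
    (fun t => (rot V : Op 6) s t * (S3 p t : ℂ))]
  refine Finset.sum_congr rfl fun t _ => ?_
  simp only [rot, prodOp, Matrix.of_apply, Function.comp]
  congr 1
  · rw [← Equiv.prod_comp p]
    refine Finset.prod_congr rfl fun i _ => ?_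
    simp [Equiv.arrowCongr]
  · simp [Equiv.arrowCongr, S3]

lemma tb_perm (τ : Fin 6) (k : Fin 3) : ∃ p : Equiv.Perm (Fin 6), (p : Fin 6 → Fin 6) = tb τ k := by
  have h : ∀ τ k, Function.Injective (tb τ k) := by decide
  exact ⟨Equiv.ofBijective _ (Finite.injective_iff_bijective.mp (h τ k)), rfl⟩

/-- the sign vectors, as complex vectors -/
def gc (τ : Fin 6) : Idx 6 → ℂ := fun s => (g τ s : ℂ)

lemma rot_g (V : Matrix (Fin 2) (Fin 2) ℂ) (hV : V.det = 1) (τ : Fin 6) :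
    (rot V : Op 6) *ᵥ gc τ = gc τ := by
  have h : gc τ = (fun t => (S3 (tb τ 0) t : ℂ)) + (fun t => (S3 (tb τ 1) t : ℂ)) +
      (fun t => (S3 (tb τ 2) t : ℂ)) := by
    ext s
    simp [gc, g]
  have k : ∀ j, (rot V : Op 6) *ᵥ (fun t => (S3 (tb τ j) t : ℂ)) =
      (fun t => (S3 (tb τ j) t : ℂ)) := by
    intro j
    obtain ⟨p, hp⟩ := tb_perm τ j
    rw [← hp]
    ext s
    exact rot_S3 V hV p s
  rw [h, Matrix.mulVec_add, Matrix.mulVec_add, k, k, k]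

lemma g_sq (τ τ' : Fin 6) (s : Idx 6) : g τ s * g τ s = g τ' s * g τ' s := by
  have h : ∀ τ : Fin 6, ∀ a b c d e f : Fin 2, g τ ![a, b, c, d, e, f] * g τ ![a, b, c, d, e, f] =
      g 0 ![a, b, c, d, e, f] * g 0 ![a, b, c, d, e, f] := by decide
  have h' : ∀ τ, g τ s * g τ s = g 0 s * g 0 s := fun τ =>
    all6 (P := fun s => g τ s * g τ s = g 0 s * g 0 s) (h τ) s
  rw [h' τ, h' τ']

end Pool.Agent.V11263.Uni
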