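import Mathlib

namespace Pool.Agent.V11263.Uni

open Finset

/-- Five homogeneous linear equations in six unknowns have a nonzero solution. -/
lemma exists_sol (A : Matrix (Fin 5) (Fin 6) ℝ) : ∃ x : Fin 6 → ℝ, x ≠ 0 ∧ A.mulVec x = 0 := by
  have h : LinearMap.ker (Matrix.mulVecLin A) ≠ ⊥ :=
    LinearMap.ker_ne_bot_of_finrank_lt (by simp)
  obtain ⟨x, hx, h0⟩ := Submodule.exists_mem_ne_zero_of_ne_bot h
  exact ⟨x, h0, by simpa using hx⟩

/-- A nonzero vector orthogonal to `1` and to an injective `k` has at least three nonzero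
coordinates. -/
lemma supp_three {k x : Fin 6 → ℝ} (hk : Function.Injective k) (hx : x ≠ 0)
    (h1 : ∑ i, x i = 0) (h2 : ∑ i, k i * x i = 0) (Z : Finset (Fin 6))
    (hZ : ∀ i, x i ≠ 0 → i ∈ Z) : 3 ≤ Z.card := by
  by_contra hcon
  push Not at hcon
  obtain ⟨p, q, hpq⟩ : ∃ p q : Fin 6, Z ⊆ {p, q} := by
    have : Z.card ≤ 2 := by omega
    interval_cases h : Z.card
    · exact ⟨0, 0, by rw [Finset.card_eq_zero.mp h]; exact Finset.empty_subset _⟩
    · obtain ⟨a, ha⟩ := Finset.card_eq_one.mp h
      exact ⟨a, a, by rw [ha]; simp⟩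
    · obtain ⟨a, b, _, ha⟩ := Finset.card_eq_two.mp h
      exact ⟨a, b, by rw [ha]⟩
  have hz : ∀ i, i ≠ p → i ≠ q → x i = 0 := by
    intro i hp hq
    by_contra hne
    have := hpq (hZ i hne)
    simp [hp, hq] at this
  apply hx
  by_cases hpq' : p = q
  · subst hpq'
    rw [Finset.sum_eq_single p (fun i _ hi => hz i hi hi) (by simp)] at h1
    ext i
    by_cases hi : i = p
    · rw [hi, h1]; rfl
    · exact hz i hi hi
  · have e1 : ∀ f : Fin 6 → ℝ, (∀ i, i ≠ p → i ≠ q → f i = 0) → ∑ i, f i = f p + f q := by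
      intro f hf
      rw [← Finset.sum_subset (Finset.subset_univ ({p, q} : Finset (Fin 6)))]
      · rw [Finset.sum_pair hpq']
      · intro i _ hi
        simp only [Finset.mem_insert, Finset.mem_singleton, not_or] at hi
        exact hf i hi.1 hi.2
    rw [e1 _ hz] at h1
    rw [e1 _ (fun i hp hq => by rw [hz i hp hq, mul_zero])] at h2
    have h3 : (k p - k q) * x p = 0 := by
      have : x q = -x p := by linarith
      rw [this] at h2
      linarith
    have h4 : k p - k q ≠ 0 := sub_ne_zero.mpr (fun h => hpq' (hk h))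
    have h5 : x p = 0 := by
      rcases mul_eq_zero.mp h3 with h | h
      · exact absurd h h4
      · exact h
    ext i
    by_cases hi : i = p
    · rw [hi, h5]; rfl
    by_cases hi' : i = q
    · rw [hi']
      simp
      linarith
    · exact hz i hi hi'

/-- The core linear algebra statement. -/
lemma core {a b k : Fin 6 → ℝ} (hk : Function.Injective k)
    (ha : ∑ i, a i = 0) (hb : ∑ i, b i = 0) (hks : ∑ i, k i = 0)
    {R : Fin 6 → Fin 6 → ℝ} (hR : ∀ p q, R p q = a p * a q + b p * b q - k p * k q)
    (htr : ∑ i, R i i = 0) (hoff : ∀ p q, p ≠ q → R p q = -(R p p + R q q) / 4) :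
    ∀ p q, R p q = 0 := by
  -- the action of `R`
  have key : ∀ x : Fin 6 → ℝ, ∑ i, x i = 0 → ∑ i, a i * x i = 0 → ∑ i, b i * x i = 0 →
      ∃ μ : ℝ, ∀ p, 3 / 2 * R p p * x p = μ - (∑ i, k i * x i) * k p := by
    intro x hx hax hbx
    refine ⟨∑ i, R i i * x i / 4, ?_⟩
    intro p
    have e1 : ∑ q, R p q * x q = - (∑ i, k i * x i) * k p := by
      have : ∀ q, R p q * x q = a p * (a q * x q) + b p * (b q * x q) - k p * (k q * x q) := by
        intro q; rw [hR]; ring
      simp only [this, Finset.sum_sub_distrib, Finset.sum_add_distrib, ← Finset.mul_sum]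
      rw [hax, hbx]; ring
    have e2 : ∑ q, R p q * x q = 3 / 2 * R p p * x p - ∑ i, R i i * x i / 4 := by
      have h1 : ∀ q, R p q * x q = (-(R p p) / 4 * x q - R q q * x q / 4) +
          (if q = p then 3 / 2 * R p p * x p else 0) := by
        intro q
        by_cases hq : q = p
        · subst hq
          rw [if_pos rfl]; ring
        · rw [if_neg hq, hoff p q (Ne.symm hq)]; ring
      simp only [h1, Finset.sum_add_distrib, Finset.sum_sub_distrib, ← Finset.mul_sum]
      rw [hx, Finset.sum_ite_eq' Finset.univ p]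
      simp
      ring
    linarith
  set Z : Finset (Fin 6) := Finset.univ.filter (fun p => R p p = 0) with hZ
  have memZ : ∀ p, p ∈ Z ↔ R p p = 0 := fun p => by simp [hZ]
  -- step 1
  have step1 : 3 ≤ Z.card := by
    obtain ⟨x, hx0, hx⟩ := exists_sol (Matrix.of ![fun _ => 1, a, b, k, Pi.single 0 1])
    have r0 := congrFun hx 0
    have r1 := congrFun hx 1
    have r2 := congrFun hx 2
    have r3 := congrFun hx 3
    have r4 := congrFun hx 4
    simp only [Matrix.mulVec, dotProduct, Matrix.of_apply, Matrix.cons_val_zero,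
      Matrix.cons_val_one, Matrix.cons_val, Pi.zero_apply, one_mul] at r0 r1 r2 r3 r4
    rw [Finset.sum_eq_single 0 (fun i _ hi => by rw [Pi.single_eq_of_ne hi, zero_mul])
      (by simp), Pi.single_eq_same, one_mul] at r4
    obtain ⟨μ, hμ⟩ := key x r0 r1 r2
    have hμ0 : μ = 0 := by
      have := hμ 0
      rw [r4, r3] at this
      linarith
    refine supp_three hk hx0 r0 r3 Z ?_
    intro i hi
    rw [memZ]
    have := hμ i
    rw [r3, hμ0] at this
    have h2 : R i i * x i = 0 := by linarith
    rcases mul_eq_zero.mp h2 with h | h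
    · exact h
    · exact absurd h hi
  obtain ⟨p, hp, q, hq, hpq⟩ : ∃ p ∈ Z, ∃ q ∈ Z, p ≠ q :=
    Finset.one_lt_card.mp (by omega)
  have step2 : 5 ≤ Z.card := by
    obtain ⟨x, hx0, hx⟩ := exists_sol (Matrix.of ![fun _ => 1, a, b, Pi.single p 1, Pi.single q 1])
    have r0 := congrFun hx 0
    have r1 := congrFun hx 1
    have r2 := congrFun hx 2
    have r3 := congrFun hx 3
    have r4 := congrFun hx 4
    simp only [Matrix.mulVec, dotProduct, Matrix.of_apply, Matrix.cons_val_zero,
      Matrix.cons_val_one, Matrix.cons_val, Pi.zero_apply, one_mul] at r0 r1 r2 r3 r4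
    rw [Finset.sum_eq_single p (fun i _ hi => by rw [Pi.single_eq_of_ne hi, zero_mul])
      (by simp), Pi.single_eq_same, one_mul] at r3
    rw [Finset.sum_eq_single q (fun i _ hi => by rw [Pi.single_eq_of_ne hi, zero_mul])
      (by simp), Pi.single_eq_same, one_mul] at r4
    obtain ⟨μ, hμ⟩ := key x r0 r1 r2
    have hp0 := hμ p
    have hq0 := hμ q
    rw [r3, mul_zero] at hp0
    rw [r4, mul_zero] at hq0
    have hc : ∑ i, k i * x i = 0 := by
      have h3 : (∑ i, k i * x i) * (k p - k q) = 0 := by linarith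
      rcases mul_eq_zero.mp h3 with h | h
      · exact h
      · exact absurd (hk (sub_eq_zero.mp h)) hpq
    have hμ0 : μ = 0 := by
      rw [hc] at hp0; linarith
    have h3 := supp_three hk hx0 r0 hc ((Z.erase p).erase q) (by
      intro i hi
      have hip : i ≠ p := fun h => hi (by rw [h]; exact r3)
      have hiq : i ≠ q := fun h => hi (by rw [h]; exact r4)
      rw [Finset.mem_erase, Finset.mem_erase]
      refine ⟨hiq, hip, ?_⟩
      rw [memZ]
      have := hμ i
      rw [hc, hμ0] at this
      have h2 : R i i * x i = 0 := by linarith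
      rcases mul_eq_zero.mp h2 with h | h
      · exact h
      · exact absurd h hi)
    rw [Finset.card_erase_of_mem (Finset.mem_erase.mpr ⟨Ne.symm hpq, hq⟩),
      Finset.card_erase_of_mem hp] at h3
    omega
  have hdiag : ∀ i, R i i = 0 := by
    have hc : (Finset.univ \ Z).card ≤ 1 := by
      rw [Finset.card_sdiff_of_subset (Finset.subset_univ _)]
      simp
      omega
    intro i
    by_contra hne
    have hi : i ∈ Finset.univ \ Z := by simp [memZ, hne]
    have hs : ∀ j, j ≠ i → R j j = 0 := by
      intro j hj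
      by_contra hne'
      have hj' : j ∈ Finset.univ \ Z := by simp [memZ, hne']
      exact hj (Finset.card_le_one.mp hc j hj' i hi)
    rw [Finset.sum_eq_single i (fun j _ hj => hs j hj) (by simp)] at htr
    exact hne htr
  intro p q
  by_cases h : p = q
  · rw [h]; exact hdiag q
  · rw [hoff p q h, hdiag p, hdiag q]; norm_num

end Pool.Agent.V11263.Uni
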