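import Mathlib
import Pool.Agent.V11263.UniB
import Pool.Agent.V11263.UniC

namespace Pool.Agent.V11263.Uni

open Matrix
open scoped ComplexOrder

/-- total `z` weight -/
def ws (s : Idx 6) : ℤ := ∑ i, sgn (s i)

/-- strings of weight two -/
def Rt : Fin 15 → Idx 6 := ![![1, 1, 0, 0, 0, 0], ![1, 0, 1, 0, 0, 0], ![0, 1, 1, 0, 0, 0], ![1, 0, 0, 1, 0, 0], ![0, 1, 0, 1, 0, 0], ![0, 0, 1, 1, 0, 0], ![1, 0, 0, 0, 1, 0], ![0, 1, 0, 0, 1, 0], ![0, 0, 1, 0, 1, 0], ![0, 0, 0, 1, 1, 0], ![1, 0, 0, 0, 0, 1], ![0, 1, 0, 0, 0, 1], ![0, 0, 1, 0, 0, 1], ![0, 0, 0, 1, 0, 1], ![0, 0, 0, 0, 1, 1]]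

/-- incidence -/
def Bm : Fin 15 → Fin 20 → ℤ := ![![1, 1, 0, 0, 1, 0, 0, 0, 0, 0, 1, 0, 0, 0, 0, 0, 0, 0, 0, 0], ![1, 0, 1, 0, 0, 1, 0, 0, 0, 0, 0, 1, 0, 0, 0, 0, 0, 0, 0, 0], ![1, 0, 0, 1, 0, 0, 1, 0, 0, 0, 0, 0, 1, 0, 0, 0, 0, 0, 0, 0], ![0, 1, 1, 0, 0, 0, 0, 1, 0, 0, 0, 0, 0, 1, 0, 0, 0, 0, 0, 0], ![0, 1, 0, 1, 0, 0, 0, 0, 1, 0, 0, 0, 0, 0, 1, 0, 0, 0, 0, 0], ![0, 0, 1, 1, 0, 0, 0, 0, 0, 1, 0, 0, 0, 0, 0, 1, 0, 0, 0, 0], ![0, 0, 0, 0, 1, 1, 0, 1, 0, 0, 0, 0, 0, 0, 0, 0, 1, 0, 0, 0], ![0, 0, 0, 0, 1, 0, 1, 0, 1, 0, 0, 0, 0, 0, 0, 0, 0, 1, 0, 0], ![0, 0, 0, 0, 0, 1, 1, 0, 0, 1, 0, 0, 0, 0, 0, 0, 0, 0, 1, 0], ![0, 0, 0, 0, 0, 0, 0, 1, 1, 1, 0, 0, 0, 0, 0, 0, 0, 0, 0, 1], ![0, 0, 0, 0, 0, 0, 0, 0, 0, 0, 1, 1, 0, 1, 0, 0, 1, 0, 0, 0], ![0, 0, 0, 0, 0,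 0, 0, 0, 0, 0, 1, 0, 1, 0, 1, 0, 0, 1, 0, 0], ![0, 0, 0, 0, 0, 0, 0, 0, 0, 0, 0, 1, 1, 0, 0, 1, 0, 0, 1, 0], ![0, 0, 0, 0, 0, 0, 0, 0, 0, 0, 0, 0, 0, 1, 1, 1, 0, 0, 0, 1], ![0, 0, 0, 0, 0, 0, 0, 0, 0, 0, 0, 0, 0, 0, 0, 0, 1, 1, 1, 1]]

/-- coefficients -/
def Cm : Fin 20 → Fin 15 → ℤ := ![![6, 6, 6, -2, -2, -2, -2, -2, -2, 2, -2, -2, -2, 2, 2], ![6, -2, -2, 6, 6, -2, -2, -2, 2, -2, -2, -2, 2, -2, 2], ![-2, 6, -2, 6, -2, 6, -2, 2, -2, -2, -2, 2, -2, -2, 2], ![-2, -2, 6, -2, 6, 6, 2, -2, -2, -2, 2, -2, -2, -2, 2], ![6, -2, -2, -2, -2, 2, 6, 6, -2, -2, -2, -2, 2, 2, -2], ![-2, 6, -2, -2, 2, -2, 6, -2, 6, -2, -2, 2, -2, 2, -2], ![-2, -2, 6, 2, -2, -2, -2, 6, 6, -2, 2, -2, -2, 2, -2], ![-2, -2, 2, 6, -2, -2, 6, -2, -2, 6, -2, 2, 2, -2, -2], ![-2, 2, -2, -2,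 6, -2, -2, 6, -2, 6, 2, -2, 2, -2, -2], ![2, -2, -2, -2, -2, 6, -2, -2, 6, 6, 2, 2, -2, -2, -2], ![6, -2, -2, -2, -2, 2, -2, -2, 2, 2, 6, 6, -2, -2, -2], ![-2, 6, -2, -2, 2, -2, -2, 2, -2, 2, 6, -2, 6, -2, -2], ![-2, -2, 6, 2, -2, -2, 2, -2, -2, 2, -2, 6, 6, -2, -2], ![-2, -2, 2, 6, -2, -2, -2, 2, 2, -2, 6, -2, -2, 6, -2], ![-2, 2, -2, -2, 6, -2, 2, -2, 2, -2, -2, 6, -2, 6, -2], ![2, -2, -2, -2, -2, 6, 2, 2, -2, -2, -2, -2, 6, 6, -2], ![-2, -2, 2, -2, 2, 2, 6, -2, -2, -2, 6, -2, -2, -2, 6], ![-2, 2, -2, 2, -2, 2, -2, 6, -2, -2, -2, 6, -2, -2, 6], ![2, -2, -2, 2, 2, -2, -2, -2, 6, -2, -2, -2, 6, -2, 6], ![2, 2, 2, -2, -2, -2, -2, -2, -2, 6, -2, -2, -2, 6, 6]]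

/-- first qubit of a pair -/
def pa : Fin 15 → Fin 6 := ![0, 0, 0, 0, 0, 1, 1, 1, 1, 2, 2, 2, 3, 3, 4]
/-- second qubit of a pair -/
def pb : Fin 15 → Fin 6 := ![1, 2, 3, 4, 5, 2, 3, 4, 5, 3, 4, 5, 4, 5, 5]
/-- partners -/
def Pt : Fin 15 → Fin 6 → Fin 6 := ![![4, 2, 1, 5, 0, 3], ![1, 0, 5, 4, 3, 2], ![2, 3, 0, 1, 5, 4], ![3, 5, 4, 0, 2, 1], ![5, 4, 3, 2, 1, 0], ![5, 3, 4, 1, 2, 0], ![3, 4, 5, 0, 1, 2], ![1, 0, 3, 2, 5, 4], ![2, 5, 0, 4, 3, 1], ![4, 5, 3, 2, 0, 1], ![2, 4, 0, 5, 1, 3], ![3, 2, 1, 0, 5, 4], ![5, 2, 1, 4, 3, 0], ![1, 0, 4, 5, 2, 3], ![4, 3, 5, 1, 0, 2]]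

set_option maxRecDepth 100000

lemma St_inj : Function.Injective St := by decide

lemma St_surj (s : Idx 6) : ws s = 0 → ∃ k, St k = s := by
  refine all6 (P := fun s => ws s = 0 → ∃ k, St k = s) ?_ s
  decide

lemma St_ws : ∀ k, ws (St k) = 0 := by decide

lemma g_St : ∀ τ k, g τ (St k) = E τ k := by decide

lemma g_off (τ : Fin 6) (s : Idx 6) : ws s ≠ 0 → g τ s = 0 := by
  refine all6 (P := fun s => ws s ≠ 0 → g τ s = 0) ?_ s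
  revert τ
  decide

lemma g_flip (τ : Fin 6) (s : Idx 6) : ∑ i, g τ (flip s i) = 0 := by
  refine all6 (P := fun s => ∑ i, g τ (flip s i) = 0) ?_ s
  revert τ
  decide

lemma g_sum (s : Idx 6) : ∑ τ, g τ s = 0 := by
  refine all6 (P := fun s => ∑ τ, g τ s = 0) ?_ s
  decide

lemma E_sum : ∀ k, ∑ τ, E τ k = 0 := by decide

lemma Bm_eq : ∀ r k, (∑ i : Fin 6, if St k = flip (Rt r) i then (1 : ℤ) else 0) = Bm r k := by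
  decide

lemma frame : ∀ k l, (if k = l then (24 : ℤ) else 0) - ∑ τ, E τ k * E τ l =
    ∑ r, Cm k r * Bm r l := by decide

lemma gram : ∀ τ υ, ∑ k, E τ k * E υ k = if τ = υ then 20 else -4 := by decide

lemma Mtab : ∀ m τ υ, ∑ k, sgn (St k (pa m)) * sgn (St k (pb m)) * (E τ k * E υ k) =
    4 - (if τ = υ then 8 else 0) - (if υ = Pt m τ then 16 else 0) := by decide

lemma pab : ∀ m, pa m ≠ pb m := by decide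

end Pool.Agent.V11263.Uni
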