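import Mathlib
import Pool.Agent.V11263.UniD

namespace Pool.Agent.V11263.Uni

open Matrix
open scoped ComplexOrder

lemma sum_St {M : Type*} [AddCommMonoid M] (F : Idx 6 → M) (h : ∀ s, ws s ≠ 0 → F s = 0) :
    ∑ s, F s = ∑ k, F (St k) := by
  rw [← Finset.sum_subset (Finset.subset_univ (Finset.univ.image St)),
    Finset.sum_image (fun a _ b _ hab => St_inj hab)]
  intro s _ hs
  apply h
  intro h0
  obtain ⟨k, hk⟩ := St_surj s h0
  exact hs (Finset.mem_image.mpr ⟨k, Finset.mem_univ k, hk⟩)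

/-- Vectors killed by the total spins along `x` and `z`. -/
structure Sing (φ : Idx 6 → ℂ) : Prop where
  hx : (tot ex : Op 6) *ᵥ φ = 0
  hz : (tot ez : Op 6) *ᵥ φ = 0

namespace Sing

variable {φ : Idx 6 → ℂ} (hφ : Sing φ)

include hφ

lemma off (s : Idx 6) (hs : ws s ≠ 0) : φ s = 0 := by
  have h := congrFun hφ.hz s
  rw [tot_ez, Pi.zero_apply] at h
  rcases mul_eq_zero.mp h with h | h
  · exfalso
    apply hs
    rw [ws]
    exact_mod_cast h
  · exact h

lemma expand (s : Idx 6) : φ s = ∑ k, (if St k = s then (1 : ℂ) else 0) * φ (St k) := by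
  by_cases h : ws s = 0
  · obtain ⟨k, hk⟩ := St_surj s h
    rw [Finset.sum_eq_single k]
    · rw [if_pos hk, hk, one_mul]
    · intro l _ hl
      rw [if_neg (fun h' => hl (St_inj (h'.trans hk.symm))), zero_mul]
    · simp
  · rw [hφ.off s h, Finset.sum_eq_zero]
    intro k _
    rw [if_neg, zero_mul]
    intro h'
    apply h
    rw [← h', St_ws]

lemma rel (r : Fin 15) : ∑ k, (Bm r k : ℂ) * φ (St k) = 0 := by
  have h := congrFun hφ.hx (Rt r)
  rw [tot_ex, Pi.zero_apply] at h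
  rw [← h]
  have e : ∀ i, φ (flip (Rt r) i) =
      ∑ k, (if St k = flip (Rt r) i then (1 : ℂ) else 0) * φ (St k) := fun i => hφ.expand _
  simp only [e]
  rw [Finset.sum_comm]
  refine Finset.sum_congr rfl fun k _ => ?_
  rw [← Finset.sum_mul, ← Bm_eq]
  push_cast
  rfl

end Sing

/-- frame coefficients -/
noncomputable def cf (φ : Idx 6 → ℂ) (τ : Fin 6) : ℂ := ∑ l, (E τ l : ℂ) * φ (St l)

lemma cf_sum (φ : Idx 6 → ℂ) : ∑ τ, cf φ τ = 0 := by
  simp only [cf]
  rw [Finset.sum_comm]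
  refine Finset.sum_eq_zero fun l _ => ?_
  rw [← Finset.sum_mul]
  have := E_sum l
  have h : (∑ τ, (E τ l : ℂ)) = ((∑ τ, E τ l : ℤ) : ℂ) := by push_cast; rfl
  rw [h, this]
  simp

lemma Sing.recon {φ : Idx 6 → ℂ} (hφ : Sing φ) (k : Fin 20) :
    24 * φ (St k) = ∑ τ, (E τ k : ℂ) * cf φ τ := by
  have h1 : ∑ l, ((((if k = l then (24 : ℤ) else 0) - ∑ τ, E τ k * E τ l : ℤ)) : ℂ) * φ (St l) =
      0 := by
    have : ∀ l, ((((if k = l then (24 : ℤ) else 0) - ∑ τ, E τ k * E τ l : ℤ)) : ℂ) * φ (St l) =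
        ∑ r, (Cm k r : ℂ) * ((Bm r l : ℂ) * φ (St l)) := by
      intro l
      rw [frame k l]
      push_cast
      rw [Finset.sum_mul]
      exact Finset.sum_congr rfl fun r _ => by ring
    simp only [this]
    rw [Finset.sum_comm]
    refine Finset.sum_eq_zero fun r _ => ?_
    rw [← Finset.mul_sum, hφ.rel r, mul_zero]
  have h2 : ∑ l, ((((if k = l then (24 : ℤ) else 0) - ∑ τ, E τ k * E τ l : ℤ)) : ℂ) * φ (St l) =
      24 * φ (St k) - ∑ τ, (E τ k : ℂ) * cf φ τ := by
    push_cast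
    simp only [sub_mul, Finset.sum_sub_distrib]
    congr 1
    · rw [Finset.sum_eq_single k]
      · simp
      · intro l _ hl
        rw [if_neg (Ne.symm hl), zero_mul]
      · simp
    · simp only [cf, Finset.mul_sum, Finset.sum_mul]
      rw [Finset.sum_comm]
      exact Finset.sum_congr rfl fun τ _ => Finset.sum_congr rfl fun l _ => by ring
  rw [h2] at h1
  linear_combination h1

/-- weighted sums in terms of the frame coefficients -/
lemma Sing.weighted {φ : Idx 6 → ℂ} (hφ : Sing φ) (w : Fin 20 → ℤ) :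
    576 * ∑ k, (w k : ℂ) * (star (φ (St k)) * φ (St k)) =
      ∑ τ, ∑ υ, ((∑ k, w k * (E τ k * E υ k) : ℤ) : ℂ) * (star (cf φ τ) * cf φ υ) := by
  have h : ∀ k, 576 * ((w k : ℂ) * (star (φ (St k)) * φ (St k))) =
      ∑ τ, ∑ υ, ((w k * (E τ k * E υ k) : ℤ) : ℂ) * (star (cf φ τ) * cf φ υ) := by
    intro k
    have e1 := hφ.recon k
    have e2 : 24 * star (φ (St k)) = ∑ τ, (E τ k : ℂ) * star (cf φ τ) := by
      have := congrArg star e1
      rw [star_mul', star_sum] at this
      simpa using this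
    calc 576 * ((w k : ℂ) * (star (φ (St k)) * φ (St k))) =
        (w k : ℂ) * ((24 * star (φ (St k))) * (24 * φ (St k))) := by ring
      _ = _ := by
        rw [e1, e2, Finset.sum_mul_sum, Finset.mul_sum]
        refine Finset.sum_congr rfl fun τ _ => ?_
        rw [Finset.mul_sum]
        refine Finset.sum_congr rfl fun υ _ => ?_
        push_cast
        ring
  rw [Finset.mul_sum]
  simp only [h]
  rw [Finset.sum_comm]
  refine Finset.sum_congr rfl fun τ _ => ?_
  rw [Finset.sum_comm]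
  refine Finset.sum_congr rfl fun υ _ => ?_
  push_cast
  rw [Finset.sum_mul]

lemma Sing.data_z {φ : Idx 6 → ℂ} (hφ : Sing φ) (I : Finset (Fin 6)) :
    data (proj φ) ez I = ∑ k, ((∏ i ∈ I, sgn (St k i) : ℤ) : ℂ) * (star (φ (St k)) * φ (St k)) := by
  rw [data_ez, sum_St]
  · refine Finset.sum_congr rfl fun k _ => ?_
    push_cast
    rfl
  · intro s hs
    rw [hφ.off s hs]
    simp

/-- The consequences of equal data, for two vectors killed by the total spins. -/
lemma eq_data {φ ψ : Idx 6 → ℂ} (hφ : Sing φ) (hψ : Sing ψ)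
    (h : SameData (proj φ) (proj ψ)) :
    (∑ τ, (star (cf φ τ) * cf φ τ - star (cf ψ τ) * cf ψ τ) = 0) ∧
    ∀ m, ∑ τ, (star (cf φ τ) * cf φ (Pt m τ) - star (cf ψ τ) * cf ψ (Pt m τ)) = 0 := by
  set D : Fin 6 → Fin 6 → ℂ := fun τ υ => star (cf φ τ) * cf φ υ - star (cf ψ τ) * cf ψ υ with hD
  have hs : ∑ τ, ∑ υ, D τ υ = 0 := by
    simp only [hD, Finset.sum_sub_distrib, ← Finset.mul_sum, cf_sum, mul_zero, Finset.sum_const_zero,
      sub_zero]
  have hw : ∀ (w : Fin 20 → ℤ), (∑ k, (w k : ℂ) * (star (φ (St k)) * φ (St k)) =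
      ∑ k, (w k : ℂ) * (star (ψ (St k)) * ψ (St k))) →
      ∑ τ, ∑ υ, ((∑ k, w k * (E τ k * E υ k) : ℤ) : ℂ) * D τ υ = 0 := by
    intro w hw
    have h1 := hφ.weighted w
    have h2 := hψ.weighted w
    rw [hw, h2] at h1
    simp only [hD, mul_sub, Finset.sum_sub_distrib]
    rw [← h1, sub_self]
  have htr : ∑ τ, D τ τ = 0 := by
    have h0 := h ez ez_unit ∅
    rw [hφ.data_z, hψ.data_z] at h0
    simp only [Finset.prod_empty] at h0
    have h1 := hw (fun _ => 1) h0
    simp only [one_mul] at h1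
    have e : ∀ τ υ, ((∑ k, E τ k * E υ k : ℤ) : ℂ) * D τ υ =
        -4 * D τ υ + (if τ = υ then 24 * D τ υ else 0) := by
      intro τ υ
      rw [gram τ υ]
      split_ifs <;> push_cast <;> ring
    simp only [e, Finset.sum_add_distrib, ← Finset.mul_sum, hs, Finset.sum_ite_eq,
      Finset.mem_univ, if_true, mul_zero, zero_add] at h1
    rcases mul_eq_zero.mp h1 with h2 | h2
    · norm_num at h2
    · exact h2
  refine ⟨htr, ?_⟩
  intro m
  have h0 := h ez ez_unit {pa m, pb m}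
  rw [hφ.data_z, hψ.data_z] at h0
  simp only [Finset.prod_pair (pab m)] at h0
  have h1 := hw (fun k => sgn (St k (pa m)) * sgn (St k (pb m))) h0
  have e : ∀ τ υ, ((∑ k, (fun k => sgn (St k (pa m)) * sgn (St k (pb m))) k *
      (E τ k * E υ k) : ℤ) : ℂ) * D τ υ =
      4 * D τ υ - (if τ = υ then 8 * D τ υ else 0) - (if υ = Pt m τ then 16 * D τ υ else 0) := by
    intro τ υ
    rw [Mtab m τ υ]
    split_ifs <;> push_cast <;> ring
  simp only [e, Finset.sum_sub_distrib, ← Finset.mul_sum, hs, Finset.sum_ite_eq,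
    Finset.sum_ite_eq', Finset.mem_univ, if_true, mul_zero, zero_sub, htr, neg_zero] at h1
  have h2 : (-16 : ℂ) * ∑ τ, D τ (Pt m τ) = 0 := by
    linear_combination h1
  rcases mul_eq_zero.mp h2 with h3 | h3
  · norm_num at h3
  · exact h3

/-- The linear algebra behind the perfect matchings. -/
lemma lin {R : Fin 6 → Fin 6 → ℝ} (hsym : ∀ p q, R p q = R q p) (hrow : ∀ p, ∑ q, R p q = 0)
    (htr : ∑ p, R p p = 0) (hm : ∀ m, ∑ p, R p (Pt m p) = 0) :
    ∀ p q, p ≠ q → R p q = -(R p p + R q q) / 4 := by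
  have r0 := hrow 0
  have r1 := hrow 1
  have r2 := hrow 2
  have r3 := hrow 3
  have r4 := hrow 4
  have r5 := hrow 5
  have m0 := hm 0
  have m1 := hm 1
  have m2 := hm 2
  have m3 := hm 3
  have m4 := hm 4
  have m5 := hm 5
  have m6 := hm 6
  have m7 := hm 7
  have m8 := hm 8
  have m9 := hm 9
  have m10 := hm 10
  have m11 := hm 11
  have m12 := hm 12
  have m13 := hm 13
  have m14 := hm 14
  simp only [Fin.sum_univ_six, Pt, Matrix.cons_val_zero, Matrix.cons_val_one, Matrix.cons_val] at *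
  have s01 := hsym 1 0
  have s02 := hsym 2 0
  have s03 := hsym 3 0
  have s04 := hsym 4 0
  have s05 := hsym 5 0
  have s12 := hsym 2 1
  have s13 := hsym 3 1
  have s14 := hsym 4 1
  have s15 := hsym 5 1
  have s23 := hsym 3 2
  have s24 := hsym 4 2
  have s25 := hsym 5 2
  have s34 := hsym 4 3
  have s35 := hsym 5 3
  have s45 := hsym 5 4
  intro p q hpq
  fin_cases p <;> fin_cases q <;> first | exact absurd rfl hpq | (simp only [Fin.zero_eta, Fin.mk_one, Fin.reduceFinMk]; linarith)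

end Pool.Agent.V11263.Uni
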