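import Mathlib

set_option autoImplicit false

namespace Pool.Agent.V11263.Check

open Finset

/-- `l a b = ∑ (-1)^k C(a,k) C(b,k)`, defined by its recurrence. -/
def l : ℕ → ℕ → ℤ
  | 0, _ => 1
  | _ + 1, 0 => 1
  | a + 1, b + 1 => l (a + 1) b + l a (b + 1) - 2 * l a b
termination_by a b => a + b

lemma l_zero_left (b : ℕ) : l 0 b = 1 := by rw [l]
lemma l_zero_right (a : ℕ) : l a 0 = 1 := by cases a <;> rw [l]
lemma l_succ (a b : ℕ) : l (a + 1) (b + 1) = l (a + 1) b + l a (b + 1) - 2 * l a b := by rw [l]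

lemma l_symm : ∀ a b, l a b = l b a := by
  have key : ∀ s a b, a + b = s → l a b = l b a := by
    intro s
    induction s using Nat.strong_induction_on with
    | _ s ih =>
      intro a b hs
      rcases a with _ | a
      · rw [l_zero_left, l_zero_right]
      rcases b with _ | b
      · rw [l_zero_left, l_zero_right]
      rw [l_succ, l_succ, ih (a + 1 + b) (by omega) (a + 1) b rfl,
        ih (a + (b + 1)) (by omega) a (b + 1) rfl, ih (a + b) (by omega) a b rfl]
      ring
  exact fun a b => key _ a b rfl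

lemma W : ∀ a b : ℕ, (a : ℤ) * (l a b - l (a - 1) b) = b * (l a b - l a (b - 1)) := by
  have key : ∀ s a b : ℕ, a + b = s → (a : ℤ) * (l a b - l (a - 1) b) = b * (l a b - l a (b - 1)) := by
    intro s
    induction s using Nat.strong_induction_on with
    | _ s ih =>
      intro a b hs
      rcases a with _ | a
      · simp [l_zero_left]
      rcases b with _ | b
      · simp [l_zero_right]
      have h1 := ih (a + 1 + b) (by omega) (a + 1) b rfl
      have h2 := ih (a + (b + 1)) (by omega) a (b + 1) rfl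
      have h3 := ih (a + b) (by omega) a b rfl
      have e1 : (b : ℤ) * (l (a + 1) b - l (a + 1) (b - 1)) = b * (l a b - 2 * l a (b - 1)) := by
        rcases b with _ | b
        · simp
        · simp only [Nat.add_sub_cancel]
          rw [l_succ]; ring
      have e2 : (a : ℤ) * (l a (b + 1) - l (a - 1) (b + 1)) = a * (l a b - 2 * l (a - 1) b) := by
        rcases a with _ | a
        · simp
        · simp only [Nat.add_sub_cancel]
          rw [l_succ]; ring
      simp only [Nat.add_sub_cancel] at h1 h2 ⊢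
      rw [e1] at h1
      rw [e2] at h2
      rw [l_succ]
      push_cast at h1 h2 h3 ⊢
      linear_combination h1 + h2 - 2 * h3
  exact fun a b => key _ a b rfl

lemma rec3 (a b : ℕ) (m : ℤ) (hm : m = (a : ℤ) - b) :
    (m + 1) * (b + 2) * (a + 1) * l a (b + 2) + (m - 1) * (a + 2) * (b + 1) * l (a + 2) b =
      ((m - 1) * (a + 2) ^ 2 + (m + 1) * (b + 2) ^ 2 - 2 * m * (m ^ 2 - 1)) * l (a + 1) (b + 1) := by
  have h1 := W (a + 1) (b + 2)
  have h2 := W (a + 2) (b + 1)
  have h3 := W (a + 2) (b + 2)
  have h4 := l_succ (a + 1) (b + 1)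
  simp only [Nat.add_sub_cancel, show a + 2 - 1 = a + 1 by omega, show b + 2 - 1 = b + 1 by omega,
    show a + 1 + 1 = a + 2 by omega, show b + 1 + 1 = b + 2 by omega] at h1 h2 h3 h4
  rw [h4] at h3
  push_cast at h1 h2 h3
  subst hm
  generalize l a (b + 2) = Lm at *
  generalize l (a + 2) b = Lp at *
  generalize l (a + 1) (b + 1) = L0 at *
  generalize l (a + 1) (b + 2) = U at *
  generalize l (a + 2) (b + 1) = V at *
  generalize (a : ℤ) = A at *
  generalize (b : ℤ) = B at *
  -- h1 : (A+1) * (U - Lm) = (B+2) * (U - L0)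
  -- h2 : (A+2) * (V - L0) = (B+1) * (V - Lp)
  -- h3 : (A+2) * (V + U - 2L0 - U) = (B+2) * (V + U - 2 L0 - V)
  linear_combination (-(A - B + 1) * (B + 2)) * h1 + (A - B - 1) * (A + 2) * h2 - ((A - B) ^ 2 - 1) * h3

end Pool.Agent.V11263.Check
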