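import Mathlib
import Pool.Agent.V11263.CheckA

set_option autoImplicit false

namespace Pool.Agent.V11263.Check

open Finset

/-- the amplitude sum with first step `c` -/
noncomputable def F (n : ℕ) (c : Bool) (y : ℤ) : ℂ :=
  ∑ s ∈ Finset.univ.filter
      (fun s : Fin (n+1) → Bool =>
        s 0 = c ∧ ∑ i, (if s i then (1:ℤ) else -1) = y),
    (-Complex.I) ^ ((Finset.univ.filter
      (fun i : Fin n => s i.castSucc ≠ s i.succ)).card)

/-- the increment of a step -/
def eps (c : Bool) : ℤ := if c then 1 else -1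

lemma F_succ (n : ℕ) (c : Bool) (y : ℤ) :
    F (n + 1) c y = F n c (y - eps c) - Complex.I * F n (!c) (y - eps c) := by
  unfold F
  rw [Finset.sum_filter, Finset.sum_filter, Finset.sum_filter]
  rw [← (Fin.consEquiv (fun _ : Fin (n + 2) => Bool)).sum_comp, Fintype.sum_prod_type,
    Finset.mul_sum, ← Finset.sum_sub_distrib]
  have h0 : ∀ (x : Bool) (s : Fin (n + 1) → Bool),
      (Fin.consEquiv (fun _ : Fin (n + 2) => Bool)) (x, s) = Fin.cons x s := fun _ _ => rfl
  simp only [h0]
  have h1 : ∀ (x : Bool) (s : Fin (n + 1) → Bool),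
      ∑ i, (if (Fin.cons x s : Fin (n + 2) → Bool) i then (1:ℤ) else -1) =
        eps x + ∑ i, (if s i then (1:ℤ) else -1) := by
    intro x s
    rw [Fin.sum_univ_succ]
    simp [eps]
  have h2 : ∀ (x : Bool) (s : Fin (n + 1) → Bool),
      (Finset.univ.filter (fun i : Fin (n + 1) => (Fin.cons x s : Fin (n + 2) → Bool) i.castSucc ≠
        (Fin.cons x s : Fin (n + 2) → Bool) i.succ)).card =
      (if x ≠ s 0 then (Finset.univ.filter (fun i : Fin n => s i.castSucc ≠ s i.succ)).card + 1
        else (Finset.univ.filter (fun i : Fin n => s i.castSucc ≠ s i.succ)).card) := by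
    intro x s
    rw [Fin.card_filter_univ_succ]
    simp only [Fin.castSucc_zero, Fin.cons_zero, Fin.cons_succ, ← Fin.succ_castSucc]
  simp only [h1, h2, Fin.cons_zero]
  rw [Fintype.sum_bool, ← Finset.sum_add_distrib]
  apply Finset.sum_congr rfl
  intro s _
  obtain ⟨z, hz⟩ : ∃ z, z = ∑ i, (if s i then (1:ℤ) else -1) := ⟨_, rfl⟩
  obtain ⟨k, hk⟩ : ∃ k, k = (Finset.univ.filter (fun i : Fin n => s i.castSucc ≠ s i.succ)).card :=
    ⟨_, rfl⟩
  rw [← hz, ← hk]
  have h3 : (eps c + z = y) ↔ (z = y - eps c) := by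
    constructor <;> intro h <;> linarith
  cases c <;> cases hs : s 0 <;> simp_all [eps, pow_succ]
  all_goals split_ifs <;> ring

lemma sum_pm (k : ℕ) (s : Fin k → Bool) :
    ∑ i, (if s i then (1:ℤ) else -1) = 2 * ((Finset.univ.filter fun i => s i = true).card : ℤ) - k := by
  have h := Finset.card_filter_add_card_filter_not (s := (Finset.univ : Finset (Fin k)))
    (fun i => s i = true)
  rw [Finset.sum_ite, Finset.sum_const, Finset.sum_const]
  simp only [Finset.card_univ, Fintype.card_fin] at h
  simp only [nsmul_eq_mul, mul_one, mul_neg]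
  have h' : ((Finset.univ.filter fun i => s i = true).card : ℤ) +
    ((Finset.univ.filter fun i => ¬ s i = true).card : ℤ) = k := by exact_mod_cast h
  linarith

lemma F_zero (c : Bool) (y : ℤ) : F 0 c y = if y = eps c then 1 else 0 := by
  unfold F
  rw [Finset.sum_filter]
  rw [← (Equiv.funUnique (Fin 1) Bool).symm.sum_comp]
  rw [Fintype.sum_bool]
  cases c <;> simp [eps, eq_comm]

/-- if `F n c y ≠ 0` then `y` is a sum of signs starting with `c` -/
lemma exists_of_F_ne {n : ℕ} {c : Bool} {y : ℤ} (h : F n c y ≠ 0) :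
    ∃ s : Fin (n + 1) → Bool, s 0 = c ∧ ∑ i, (if s i then (1:ℤ) else -1) = y := by
  unfold F at h
  obtain ⟨s, hs, -⟩ := Finset.exists_ne_zero_of_sum_ne_zero h
  exact ⟨s, (Finset.mem_filter.mp hs).2⟩

lemma F_true_low (n : ℕ) : F n true (-(n + 1 : ℤ)) = 0 := by
  by_contra h
  obtain ⟨s, hs, hy⟩ := exists_of_F_ne h
  rw [sum_pm] at hy
  have : 0 < (Finset.univ.filter fun i => s i = true).card :=
    Finset.card_pos.mpr ⟨0, by simp [hs]⟩
  push_cast at hy
  omega

lemma F_false_high (n : ℕ) : F n false (n + 1 : ℤ) = 0 := by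
  by_contra h
  obtain ⟨s, hs, hy⟩ := exists_of_F_ne h
  rw [sum_pm] at hy
  have : (Finset.univ.filter fun i => s i = true).card < (Finset.univ : Finset (Fin (n + 1))).card :=
    Finset.card_lt_card (Finset.filter_ssubset.mpr ⟨0, Finset.mem_univ _, by simp [hs]⟩)
  rw [Finset.card_univ, Fintype.card_fin] at this
  push_cast at hy
  omega

/-- closed form of the amplitude sum with `p` steps to the right and `q` steps to the left -/
noncomputable def H (p q : ℕ) : ℂ :=
  if p = 0 then 0 else if q = 0 then 1 else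
    ((l (p - 1) q - l (p - 1) (q - 1) : ℤ) : ℂ) - Complex.I * ((l (p - 1) (q - 1) : ℤ) : ℂ)

lemma H_rec (p q : ℕ) (h : 0 < p + q) : H (p + 1) q = H p q - Complex.I * H q p := by
  have hI := Complex.I_mul_I
  rcases q with _ | q
  · have : p ≠ 0 := by omega
    simp [H, this]
  rcases p with _ | p
  · simp [H, l_zero_left]
  · simp only [H, Nat.add_sub_cancel, Nat.add_eq_zero_iff, one_ne_zero, and_false, if_false]
    rw [l_succ p q, l_symm q (p + 1), l_symm q p]
    push_cast
    linear_combination (-(l p q : ℂ)) * hI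

theorem F_closed : ∀ (n p q : ℕ), p + q = n + 1 →
    F n true ((p : ℤ) - q) = H p q ∧ F n false ((p : ℤ) - q) = H q p := by
  intro n
  induction n with
  | zero =>
    intro p q h
    rw [F_zero, F_zero]
    have : (p = 0 ∧ q = 1) ∨ (p = 1 ∧ q = 0) := by omega
    rcases this with ⟨rfl, rfl⟩ | ⟨rfl, rfl⟩ <;> simp [H, eps] <;> norm_num
  | succ n ih =>
    intro p q h
    constructor
    · rcases p with _ | p
      · have e : ((0 : ℕ) : ℤ) - q = -((n + 1 : ℕ) + 1 : ℤ) := by
          have : (q : ℤ) = n + 1 + 1 := by exact_mod_cast (by omega : q = n + 1 + 1)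
          rw [this]; push_cast; ring
        rw [e, F_true_low]
        simp [H]
      · rw [F_succ]
        have e : (((p + 1 : ℕ) : ℤ) - q) - eps true = (p : ℤ) - q := by
          simp [eps]; ring
        rw [e]
        obtain ⟨h1, h2⟩ := ih p q (by omega)
        rw [h1]
        simp only [Bool.not_true]
        rw [h2, H_rec p q (by omega)]
    · rcases q with _ | q
      · have e : (p : ℤ) - ((0 : ℕ) : ℤ) = ((n + 1 : ℕ) + 1 : ℤ) := by
          have : (p : ℤ) = n + 1 + 1 := by exact_mod_cast (by omega : p = n + 1 + 1)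
          rw [this]; push_cast; ring
        rw [e, F_false_high]
        simp [H]
      · rw [F_succ]
        have e : ((p : ℤ) - ((q + 1 : ℕ) : ℤ)) - eps false = (p : ℤ) - q := by
          simp [eps]; ring
        rw [e]
        obtain ⟨h1, h2⟩ := ih p q (by omega)
        rw [h2]
        simp only [Bool.not_false]
        rw [h1, H_rec q p (by omega)]

end Pool.Agent.V11263.Check
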