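import Mathlib
import Pool.Agent.V11263.CheckA

set_option autoImplicit false

namespace Pool.Agent.V11263.Check

open Finset

noncomputable def Y (N b : ℕ) : ℝ := (-1) ^ b * ((l (N - b) b : ℤ) : ℝ)
noncomputable def D (N b : ℕ) : ℝ := Y N (b + 1) - Y N b
noncomputable def Q (N b : ℕ) : ℝ := ((b:ℝ)+1)*((N:ℝ)-b)/((N:ℝ)-2*b-1) * D N b
noncomputable def c (N b : ℕ) : ℝ :=
  ((N:ℝ)-2*b)*(2*(((N:ℝ)-2*b)^2-1) - (N+1)^2)/(((N:ℝ)-2*b)^2-1)

lemma Q_step (N b : ℕ) (h : 2 * b + 4 ≤ N) : Q N (b + 1) = Q N b + c N (b + 1) * Y N (b + 1) := by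
  obtain ⟨a, rfl⟩ : ∃ a, N = a + b + 2 := ⟨N - b - 2, by omega⟩
  have hab : b + 2 ≤ a := by omega
  have hr := rec3 a b ((a : ℤ) - b) rfl
  have hr' : (((a:ℝ) - b) + 1) * (b + 2) * (a + 1) * ((l a (b + 2) : ℤ) : ℝ) +
      (((a:ℝ) - b) - 1) * (a + 2) * (b + 1) * ((l (a + 2) b : ℤ) : ℝ) =
      ((((a:ℝ) - b) - 1) * (a + 2) ^ 2 + (((a:ℝ) - b) + 1) * (b + 2) ^ 2 -
        2 * ((a:ℝ) - b) * (((a:ℝ) - b) ^ 2 - 1)) * ((l (a + 1) (b + 1) : ℤ) : ℝ) := by
    exact_mod_cast hr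
  have habR : (b : ℝ) + 2 ≤ a := by exact_mod_cast hab
  have e1 : a + b + 2 - (b + 1 + 1) = a := by omega
  have e2 : a + b + 2 - (b + 1) = a + 1 := by omega
  have e3 : a + b + 2 - b = a + 2 := by omega
  unfold Q c D Y
  rw [e1, e2, e3]
  push_cast
  have n1 : (a:ℝ) + b + 2 - 2 * (b + 1) - 1 ≠ 0 := by intro h; linarith
  have n2 : (a:ℝ) + b + 2 - 2 * b - 1 ≠ 0 := by intro h; linarith
  have n3 : ((a:ℝ) + b + 2 - 2 * (b + 1)) ^ 2 - 1 ≠ 0 := by
    have : (a:ℝ) + b + 2 - 2 * (b + 1) = a - b := by ring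
    rw [this]
    intro h
    nlinarith
  have m1 : (a:ℝ) + b + 2 - 2 * (b + 1) - 1 = a - b - 1 := by ring
  have m2 : (a:ℝ) + b + 2 - 2 * b - 1 = a - b + 1 := by ring
  have m3 : (a:ℝ) + b + 2 - 2 * (b + 1) = a - b := by ring
  rw [m3] at n3
  rw [m1] at n1
  rw [m2] at n2
  rw [m1, m2, m3]
  have n4 : ((a:ℝ) - b) ^ 2 - 1 = (a - b - 1) * (a - b + 1) := by ring
  rw [n4]
  generalize ((l a (b + 2) : ℤ) : ℝ) = Lm at *
  have e4 : b + 1 + 1 = b + 2 := rfl
  have e5 : (-1 : ℝ) ^ (b + 2) = (-1) ^ b := by rw [pow_add]; norm_num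
  have e6 : (-1 : ℝ) ^ (b + 1) = -(-1) ^ b := by rw [pow_add]; norm_num
  rw [e4, e5, e6]
  generalize ((l (a + 2) b : ℤ) : ℝ) = Lp at *
  generalize ((l (a + 1) (b + 1) : ℤ) : ℝ) = L0 at *
  generalize (-1 : ℝ) ^ b = e at *
  generalize (a : ℝ) = A at *
  generalize (b : ℝ) = B at *
  field_simp
  linear_combination (e) * hr'

lemma l_one (a : ℕ) : l a 1 = 1 - a := by
  induction a with
  | zero => rw [l_zero_left]; simp
  | succ a ih => rw [l_succ, ih, l_zero_right, l_zero_right]; push_cast; ring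

lemma Y_zero (N : ℕ) : Y N 0 = 1 := by simp [Y, l_zero_right]

lemma D_zero (N : ℕ) (h : 1 ≤ N) : D N 0 = N - 3 := by
  obtain ⟨a, rfl⟩ : ∃ a, N = a + 1 := ⟨N - 1, by omega⟩
  simp only [D, Y, l_one, Nat.add_sub_cancel, Nat.zero_add, l_zero_right, Nat.sub_zero]
  push_cast
  ring

/-- The key estimate: the normalised amplitude increases up to a distance `C` past the turning
point. -/
lemma main_pos (K N b : ℕ) (hK : 1 ≤ K) (hN : 1000 * (K + 3 * K ^ 2) * K ^ 2 ≤ N)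
    (hlow : (N : ℝ) / 2 ≤ (N : ℝ) - 2 * b)
    (hkap : -(K : ℝ) * N ≤ 2 * (((N:ℝ)-2*b)^2-1) - (N+1)^2)
    (hprev : ∀ i < b, 0 < D N i) : 0 < D N b := by
  obtain ⟨J, hJ⟩ : ∃ J, J = K + 3 * K ^ 2 := ⟨_, rfl⟩
  rw [← hJ] at hN
  have hKR : (1 : ℝ) ≤ K := by exact_mod_cast hK
  have hJR : (J : ℝ) = K + 3 * K ^ 2 := by rw [hJ]; push_cast; ring
  have hJ4 : (4 : ℝ) ≤ J := by rw [hJR]; nlinarith
  have hNR : 1000 * (J : ℝ) * K ^ 2 ≤ N := by exact_mod_cast hN
  have hNJ : 1000 * (J : ℝ) ≤ N := by nlinarith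
  have hN4 : (4000 : ℝ) ≤ N := by nlinarith
  by_contra hcon
  push Not at hcon
  rcases Nat.eq_zero_or_pos b with hb0 | hb0
  · subst hb0
    rw [D_zero N (by have : (1:ℝ) ≤ N := by linarith
                     exact_mod_cast this)] at hcon
    linarith
  -- positivity and monotonicity of Y up to b
  have hmono : ∀ i, i ≤ b → ∀ k, k ≤ i → Y N k ≤ Y N i := by
    intro i hi k hk
    induction i with
    | zero => have : k = 0 := by omega
              rw [this]
    | succ i ih =>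
      rcases Nat.lt_or_ge k (i + 1) with h | h
      · have h1 := ih (by omega) (by omega)
        have h2 := hprev i (by omega)
        unfold D at h2
        linarith
      · have : k = i + 1 := by omega
        rw [this]
  have hpos : ∀ i, i ≤ b → 0 < Y N i := by
    intro i hi
    have := hmono i hi 0 (by omega)
    rw [Y_zero] at this
    linarith
  obtain ⟨y, hy⟩ : ∃ y, y = Y N b := ⟨_, rfl⟩
  have hy0 : 0 < y := by rw [hy]; exact hpos b le_rfl
  have hbN : (b : ℝ) ≤ N / 4 := by linarith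
  have hmb : ∀ i : ℕ, i ≤ b → (N : ℝ) / 2 ≤ (N:ℝ) - 2 * i := by
    intro i hi
    have : (i : ℝ) ≤ b := by exact_mod_cast hi
    linarith
  -- Q at b is nonpositive
  have hQb : Q N b ≤ 0 := by
    unfold Q
    apply mul_nonpos_of_nonneg_of_nonpos
    · apply div_nonneg
      · apply mul_nonneg <;> linarith [(Nat.cast_nonneg b : (0:ℝ) ≤ b)]
      · linarith
    · exact hcon
  have hQpos : ∀ i, i < b → 0 < Q N i := by
    intro i hi
    unfold Q
    have h1 := hmb i hi.le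
    have h0 : (0:ℝ) ≤ i := Nat.cast_nonneg i
    apply mul_pos _ (hprev i hi)
    apply div_pos
    · apply mul_pos <;> linarith
    · linarith
  -- the coefficient
  have hX : ∀ j : ℕ, j ≤ b → ((4:ℝ) * j - K) * N ≤ 2 * (((N:ℝ)-2*((b - j : ℕ) : ℝ))^2-1) - (N+1)^2 := by
    intro j hj
    rw [Nat.cast_sub hj]
    have h0 : (0:ℝ) ≤ j := Nat.cast_nonneg j
    nlinarith
  have hc1 : ∀ j : ℕ, j ≤ b → -(4 * (K:ℝ)) ≤ c N (b - j) := by
    intro j hj
    have h1 := hX j hj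
    have h2 := hmb (b - j) (by omega)
    unfold c
    obtain ⟨m, hm⟩ : ∃ m, m = (N:ℝ) - 2 * ((b - j : ℕ) : ℝ) := ⟨_, rfl⟩
    rw [← hm] at h1 h2 ⊢
    have h0 : (0:ℝ) ≤ j := Nat.cast_nonneg j
    have h3 : -(K:ℝ) * N ≤ 2 * (m^2-1) - (N+1)^2 := by nlinarith
    have h4 : 0 < m ^ 2 - 1 := by nlinarith
    rw [le_div_iff₀ h4]
    have h5 : m * (-(K:ℝ) * N) ≤ m * (2 * (m^2-1) - (N+1)^2) :=
      mul_le_mul_of_nonneg_left h3 (by linarith)
    have h6 : (N:ℝ) * m ≤ 4 * (m^2 - 1) := by nlinarith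
    nlinarith
  have hc2 : ∀ j : ℕ, j ≤ b → K ≤ j → (3:ℝ) ≤ c N (b - j) := by
    intro j hj hKj
    have h1 := hX j hj
    have h2 := hmb (b - j) (by omega)
    have h2' : (N:ℝ) - 2 * ((b - j : ℕ) : ℝ) ≤ N := by
      have : (0:ℝ) ≤ ((b - j : ℕ) : ℝ) := Nat.cast_nonneg _
      linarith
    unfold c
    obtain ⟨m, hm⟩ : ∃ m, m = (N:ℝ) - 2 * ((b - j : ℕ) : ℝ) := ⟨_, rfl⟩
    rw [← hm] at h1 h2 h2' ⊢
    have hKj' : (K:ℝ) ≤ j := by exact_mod_cast hKj
    have h3 : 3 * (N:ℝ) ≤ 2 * (m^2-1) - (N+1)^2 := by nlinarith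
    have h4 : 0 < m ^ 2 - 1 := by nlinarith
    rw [le_div_iff₀ h4]
    have h5 : m * (3 * (N:ℝ)) ≤ m * (2 * (m^2-1) - (N+1)^2) :=
      mul_le_mul_of_nonneg_left h3 (by linarith)
    nlinarith
  -- b is large
  have hbig : (N:ℝ) / 8 ≤ b := by
    by_contra hlt
    push Not at hlt
    -- then c at b is nonneg and Q b > 0
    have h1 : (3:ℝ)/4 * N ≤ (N:ℝ) - 2 * b := by linarith
    have h2 : 0 ≤ c N b := by
      unfold c
      obtain ⟨m, hm⟩ : ∃ m, m = (N:ℝ) - 2 * (b : ℝ) := ⟨_, rfl⟩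
      rw [← hm] at h1 ⊢
      apply div_nonneg
      · apply mul_nonneg
        · linarith
        · nlinarith
      · nlinarith
    have h3 : 2 * (b - 1) + 4 ≤ N := by
      have : 2 * (b : ℝ) + 4 ≤ N := by linarith
      have : 2 * b + 4 ≤ N := by exact_mod_cast this
      omega
    have h4 := Q_step N (b - 1) h3
    rw [Nat.sub_add_cancel hb0] at h4
    have h5 := hQpos (b - 1) (by omega)
    have h6 := mul_nonneg h2 (hpos b le_rfl).le
    linarith
  have hJb : J + 1 ≤ b := by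
    have : (J : ℝ) + 1 ≤ b := by linarith
    exact_mod_cast this
  have hstep : ∀ j : ℕ, j + 1 ≤ b →
      Q N (b - (j + 1)) = Q N (b - j) - c N (b - j) * Y N (b - j) := by
    intro j hj
    have h3 : 2 * (b - (j + 1)) + 4 ≤ N := by
      have : 2 * (b : ℝ) + 4 ≤ N := by linarith
      have : 2 * b + 4 ≤ N := by exact_mod_cast this
      omega
    have h4 := Q_step N (b - (j + 1)) h3
    rw [show b - (j + 1) + 1 = b - j by omega] at h4
    linarith
  -- upper bound for Q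
  have hQ1 : ∀ j : ℕ, j ≤ K → j ≤ b → Q N (b - j) ≤ 4 * K * j * y := by
    intro j
    induction j with
    | zero => intro _ _; simpa using hQb
    | succ j ih =>
      intro h1 h2
      have h3 := ih (by omega) (by omega)
      rw [hstep j h2]
      have h4 := hc1 j (by omega)
      have h5 := hpos (b - j) (by omega)
      have h6 := hmono b le_rfl (b - j) (by omega)
      rw [← hy] at h6
      have h7 : -(4 * (K:ℝ)) * Y N (b - j) ≤ c N (b - j) * Y N (b - j) :=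
        mul_le_mul_of_nonneg_right h4 h5.le
      push_cast
      nlinarith
  have hQ2 : ∀ j : ℕ, j ≤ J → Q N (b - j) ≤ 4 * K ^ 2 * y := by
    intro j
    induction j with
    | zero => intro _; simp only [Nat.sub_zero]; have : 0 ≤ 4 * (K:ℝ) ^ 2 * y := by positivity
              linarith
    | succ j ih =>
      intro h1
      rcases Nat.lt_or_ge K (j + 1) with h | h
      · have h3 := ih (by omega)
        rw [hstep j (by omega)]
        have h4 := hc2 j (by omega) (by omega)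
        have h5 := hpos (b - j) (by omega)
        nlinarith
      · have h3 := hQ1 (j + 1) h (by omega)
        have h4 : ((j + 1 : ℕ) : ℝ) ≤ K := by exact_mod_cast h
        have : 4 * (K:ℝ) * ((j + 1 : ℕ) : ℝ) * y ≤ 4 * K * K * y := by gcongr
        nlinarith
  -- increments are small
  have hD : ∀ j : ℕ, j ≤ J → D N (b - j) ≤ 128 * K ^ 2 * y / N := by
    intro j hj
    have h1 := hQ2 j hj
    unfold Q at h1
    obtain ⟨i, hi⟩ : ∃ i, i = b - j := ⟨_, rfl⟩
    rw [← hi] at h1 ⊢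
    have h2 := hmb i (by omega)
    have hiR : (N:ℝ) / 16 ≤ i := by
      rw [hi, Nat.cast_sub (by omega)]
      have : (j : ℝ) ≤ J := by exact_mod_cast hj
      linarith
    have h3 : 0 < ((i:ℝ)+1)*((N:ℝ)-i) := by
      apply mul_pos <;> linarith
    have h4 : 0 < (N:ℝ) - 2 * i - 1 := by linarith
    rw [div_mul_eq_mul_div, div_le_iff₀ h4] at h1
    by_contra hh
    push Not at hh
    have h5 : 0 < 128 * (K:ℝ) ^ 2 * y / N := by positivity
    have h6 : (N:ℝ)/16 * (N/2) ≤ ((i:ℝ)+1)*((N:ℝ)-i) := by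
      apply mul_le_mul <;> linarith
    have h7 : (N:ℝ)/16 * (N/2) * (128 * (K:ℝ) ^ 2 * y / N) < ((i:ℝ)+1)*((N:ℝ)-i) * D N i := by
      calc (N:ℝ)/16 * (N/2) * (128 * (K:ℝ) ^ 2 * y / N)
          ≤ ((i:ℝ)+1)*((N:ℝ)-i) * (128 * (K:ℝ) ^ 2 * y / N) := by gcongr
        _ < _ := by gcongr
    have h8 : (N:ℝ)/16 * (N/2) * (128 * (K:ℝ) ^ 2 * y / N) = 4 * K ^ 2 * y * N := by
      field_simp
      ring
    rw [h8] at h7
    have h9 : 4 * (K:ℝ) ^ 2 * y * ((N:ℝ) - 2 * i - 1) ≤ 4 * K ^ 2 * y * N := by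
      apply mul_le_mul_of_nonneg_left
      · linarith [(Nat.cast_nonneg i : (0:ℝ) ≤ i)]
      · positivity
    linarith
  have hY : ∀ j : ℕ, j ≤ J → y - j * (128 * K ^ 2 * y / N) ≤ Y N (b - j) := by
    intro j
    induction j with
    | zero => intro _; simp [hy]
    | succ j ih =>
      intro h1
      have h2 := ih (by omega)
      have h3 := hD (j + 1) h1
      unfold D at h3
      rw [show b - (j + 1) + 1 = b - j by omega] at h3
      push_cast
      linarith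
  have hYh : ∀ j : ℕ, j ≤ J → y / 2 ≤ Y N (b - j) := by
    intro j hj
    refine le_trans ?_ (hY j hj)
    have hjR : (j : ℝ) ≤ J := by exact_mod_cast hj
    have h1 : (j:ℝ) * (128 * K ^ 2 * y / N) ≤ J * (128 * K ^ 2 * y / N) := by gcongr
    have h2 : (J:ℝ) * (128 * K ^ 2 * y / N) ≤ y / 2 := by
      rw [mul_div_assoc', div_le_iff₀ (by linarith)]
      have h3 := mul_le_mul_of_nonneg_right hNR hy0.le
      have h4 : 0 ≤ (J:ℝ) * K ^ 2 * y := by positivity
      linarith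
    linarith
  have hfin : ∀ j : ℕ, K + j ≤ J → Q N (b - (K + j)) ≤ (4 * K ^ 2 - 3 / 2 * j) * y := by
    intro j
    induction j with
    | zero => intro h; simpa using hQ2 K (by omega)
    | succ j ih =>
      intro h1
      have h2 := ih (by omega)
      rw [← add_assoc, hstep (K + j) (by omega)]
      have h3 := hc2 (K + j) (by omega) (by omega)
      have h4 := hYh (K + j) (by omega)
      push_cast
      nlinarith
  have h1 := hfin (3 * K ^ 2) (by omega)
  have h2 := hQpos (b - (K + 3 * K ^ 2)) (by omega)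
  push_cast at h1
  have : (4 * (K:ℝ) ^ 2 - 3 / 2 * (3 * K ^ 2)) * y < 0 := by
    apply mul_neg_of_neg_of_pos _ hy0
    nlinarith
  linarith

end Pool.Agent.V11263.Check
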