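import Mathlib

/-! Real symmetric matrices: spectral decompositions, determinants, and the functional
`pc Z = ∑ max 0 (log λ_i(Z))`. -/

namespace Pool.Agent.V11263.Gauss

open Matrix Polynomial

section spectral

variable {α β : Type*} [Fintype α] [DecidableEq α] [Fintype β] [DecidableEq β]

lemma spec {A : Matrix α α ℝ} (hA : A.IsHermitian) : ∃ (U : Matrix α α ℝ) (a : α → ℝ),
    U * Uᵀ = 1 ∧ Uᵀ * U = 1 ∧ A = U * diagonal a * Uᵀ ∧ (A.PosSemidef → ∀ i, 0 ≤ a i) ∧
      (A.PosDef → ∀ i, 0 < a i) := by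
  refine ⟨hA.eigenvectorUnitary, hA.eigenvalues, ?_, ?_, ?_, ?_, ?_⟩
  · rw [← Matrix.conjTranspose_eq_transpose_of_trivial]
    exact Unitary.coe_mul_star_self hA.eigenvectorUnitary
  · rw [← Matrix.conjTranspose_eq_transpose_of_trivial]
    exact Unitary.coe_star_mul_self hA.eigenvectorUnitary
  · conv_lhs => rw [hA.spectral_theorem]
    rw [← Matrix.conjTranspose_eq_transpose_of_trivial]
    rfl
  · intro h
    exact h.eigenvalues_nonneg
  · intro h
    exact h.eigenvalues_pos

/-- `f(A)` for `A = U diag(a) Uᵀ` -/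
def fn (U : Matrix α α ℝ) (a : α → ℝ) (f : ℝ → ℝ) : Matrix α α ℝ :=
  U * diagonal (fun i => f (a i)) * Uᵀ

lemma fn_symm (U : Matrix α α ℝ) (a : α → ℝ) (f : ℝ → ℝ) : (fn U a f)ᵀ = fn U a f := by
  rw [fn, Matrix.transpose_mul, Matrix.transpose_mul, Matrix.transpose_transpose,
    Matrix.diagonal_transpose, mul_assoc]

lemma fn_mul {U : Matrix α α ℝ} (hU : Uᵀ * U = 1) (a : α → ℝ) (f g : ℝ → ℝ) :
    fn U a f * fn U a g = fn U a (fun x => f x * g x) := by
  calc fn U a f * fn U a g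
      = U * diagonal (fun i => f (a i)) * (Uᵀ * U) * diagonal (fun i => g (a i)) * Uᵀ := by
        simp only [fn, mul_assoc]
    _ = U * (diagonal (fun i => f (a i)) * diagonal (fun i => g (a i))) * Uᵀ := by
        rw [hU, mul_one]; simp only [mul_assoc]
    _ = _ := by rw [Matrix.diagonal_mul_diagonal]; rfl

lemma fn_congr {U : Matrix α α ℝ} {a : α → ℝ} {f g : ℝ → ℝ} (h : ∀ i, f (a i) = g (a i)) :
    fn U a f = fn U a g := by
  unfold fn
  congr 2
  congr 1
  funext i
  exact h i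

lemma fn_one {U : Matrix α α ℝ} (hU : U * Uᵀ = 1) (a : α → ℝ) : fn U a (fun _ => 1) = 1 := by
  rw [fn, show (diagonal fun _ : α => (1 : ℝ)) = 1 from Matrix.diagonal_one, mul_one, hU]

lemma fn_sub (U : Matrix α α ℝ) (a : α → ℝ) (f g : ℝ → ℝ) :
    fn U a f - fn U a g = fn U a (fun x => f x - g x) := by
  unfold fn
  rw [← Matrix.diagonal_sub, mul_sub, sub_mul]

lemma fn_psd {U : Matrix α α ℝ} {a : α → ℝ} {f : ℝ → ℝ} (h : ∀ i, 0 ≤ f (a i)) :
    (fn U a f).PosSemidef := by
  have : (diagonal (fun i => f (a i))).PosSemidef := by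
    rw [Matrix.posSemidef_diagonal_iff]
    exact h
  have h2 := this.mul_mul_conjTranspose_same U
  rwa [Matrix.conjTranspose_eq_transpose_of_trivial] at h2

lemma fn_pd {U : Matrix α α ℝ} (hU : U * Uᵀ = 1) {a : α → ℝ} {f : ℝ → ℝ}
    (h : ∀ i, 0 < f (a i)) : (fn U a f).PosDef := by
  have hd : (diagonal (fun i => f (a i))).PosDef := by
    rw [Matrix.posDef_diagonal_iff]
    exact h
  have h2 : IsUnit U := by
    rw [Matrix.isUnit_iff_isUnit_det]
    exact Matrix.isUnit_det_of_right_inverse hU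
  have h3 := (Matrix.IsUnit.posDef_star_right_conjugate_iff h2).mpr hd
  rwa [Matrix.star_eq_conjTranspose, Matrix.conjTranspose_eq_transpose_of_trivial] at h3

lemma intertwine {U : Matrix α α ℝ} {V : Matrix β β ℝ} (hU : U * Uᵀ = 1) (hU' : Uᵀ * U = 1)
    (hV : V * Vᵀ = 1) (hV' : Vᵀ * V = 1) {a : α → ℝ} {b : β → ℝ} {W : Matrix α β ℝ}
    (h : (U * diagonal a * Uᵀ) * W = W * (V * diagonal b * Vᵀ)) (f : ℝ → ℝ) :
    fn U a f * W = W * fn V b f := by
  set X : Matrix α β ℝ := Uᵀ * W * V with hX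
  have h1 : diagonal a * X = X * diagonal b := by
    calc diagonal a * X = (Uᵀ * U) * diagonal a * (Uᵀ * W * V) := by rw [hU', one_mul]
      _ = Uᵀ * ((U * diagonal a * Uᵀ) * W) * V := by simp only [Matrix.mul_assoc]
      _ = Uᵀ * (W * (V * diagonal b * Vᵀ)) * V := by rw [h]
      _ = Uᵀ * W * V * diagonal b * (Vᵀ * V) := by simp only [Matrix.mul_assoc]
      _ = _ := by rw [hV', Matrix.mul_one]
  have h2 : diagonal (fun i => f (a i)) * X = X * diagonal (fun i => f (b i)) := by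
    ext i j
    have h3 := congrFun (congrFun h1 i) j
    simp only [Matrix.diagonal_mul, Matrix.mul_diagonal] at h3 ⊢
    by_cases hz : X i j = 0
    · simp [hz]
    · rw [mul_comm] at h3
      rw [mul_left_cancel₀ hz h3, mul_comm]
  calc fn U a f * W = U * diagonal (fun i => f (a i)) * Uᵀ * W * (V * Vᵀ) := by
        rw [hV, Matrix.mul_one, fn]
    _ = U * (diagonal (fun i => f (a i)) * X) * Vᵀ := by
        rw [hX]; simp only [Matrix.mul_assoc]
    _ = U * (Uᵀ * W * V * diagonal (fun i => f (b i))) * Vᵀ := by rw [h2, hX]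
    _ = (U * Uᵀ) * W * (V * diagonal (fun i => f (b i)) * Vᵀ) := by simp only [Matrix.mul_assoc]
    _ = _ := by rw [hU, Matrix.one_mul, fn]

/-- square root of a positive semidefinite matrix -/
lemma exists_sqrt {A : Matrix α α ℝ} (hA : A.PosSemidef) : ∃ C : Matrix α α ℝ, Cᵀ = C ∧
    C * C = A := by
  obtain ⟨U, a, hU, hU', hAe, h0, -⟩ := spec hA.isHermitian
  refine ⟨fn U a Real.sqrt, fn_symm _ _ _, ?_⟩
  rw [fn_mul hU', hAe]
  exact fn_congr (g := fun x => x) fun i => Real.mul_self_sqrt (h0 hA i)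

lemma exists_sqrt_inv {A : Matrix α α ℝ} (hA : A.PosDef) : ∃ C D : Matrix α α ℝ, Cᵀ = C ∧
    Dᵀ = D ∧ C * C = A ∧ C * D = 1 ∧ D * C = 1 := by
  obtain ⟨U, a, hU, hU', hAe, -, h0⟩ := spec hA.isHermitian
  have hp := h0 hA
  have e : fn U a Real.sqrt * fn U a (fun x => (Real.sqrt x)⁻¹) = 1 := by
    rw [fn_mul hU', ← fn_one hU a]
    exact fn_congr fun i => mul_inv_cancel₀ (Real.sqrt_pos.mpr (hp i)).ne'
  refine ⟨fn U a Real.sqrt, fn U a (fun x => (Real.sqrt x)⁻¹), fn_symm _ _ _, fn_symm _ _ _,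
    ?_, e, mul_eq_one_comm.mp e⟩
  rw [fn_mul hU', hAe]
  exact fn_congr (g := fun x => x) fun i => Real.mul_self_sqrt (hp i).le

lemma one_le_det {Q : Matrix α α ℝ} (hQ : Q.PosSemidef) : 1 ≤ (1 + Q).det := by
  obtain ⟨U, a, hU, hU', hAe, h0, -⟩ := spec hQ.isHermitian
  have h1 : 1 + Q = fn U a (fun x => 1 + x) := by
    have : fn U a (fun x => 1 + x) - fn U a (fun x => x) = 1 := by
      rw [fn_sub, ← fn_one hU a]
      exact fn_congr fun i => by ring
    rw [sub_eq_iff_eq_add] at this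
    rw [this, hAe]
    rfl
  rw [h1, fn, Matrix.det_mul, Matrix.det_mul, mul_comm U.det, mul_assoc, ← Matrix.det_mul, hU,
    Matrix.det_one, mul_one, Matrix.det_diagonal]
  refine Finset.prod_induction _ (fun x => 1 ≤ x)
    (fun x y hx hy => one_le_mul_of_one_le_of_one_le hx hy) le_rfl fun i _ => ?_
  have := h0 hQ i
  linarith

/-- monotonicity of the determinant -/
lemma det_mono {A B : Matrix α α ℝ} (hA : A.PosDef) (hB : (B - A).PosSemidef) :
    A.det ≤ B.det := by
  obtain ⟨C, D, hC, hD, hCC, hCD, hDC⟩ := exists_sqrt_inv hA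
  have h1 : B = C * (1 + D * (B - A) * D) * C := by
    calc B = A + (B - A) := by abel
      _ = C * C + (C * D) * (B - A) * (D * C) := by rw [hCC, hCD, hDC, one_mul, mul_one]
      _ = _ := by noncomm_ring
  have h2 : (D * (B - A) * D).PosSemidef := by
    have := hB.mul_mul_conjTranspose_same D
    rwa [Matrix.conjTranspose_eq_transpose_of_trivial, hD] at this
  have h3 := one_le_det h2
  have h4 : A.det = C.det * C.det := by rw [← hCC, Matrix.det_mul]
  rw [h1, Matrix.det_mul, Matrix.det_mul, h4]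
  nlinarith [mul_self_nonneg C.det]

/-- compressions of `M ≥ 1` have smaller determinant -/
lemma det_compress {M : Matrix α α ℝ} (hM : (M - 1).PosSemidef) {V : Matrix α β ℝ}
    (hV : Vᵀ * V = 1) : (Vᵀ * M * V).det ≤ M.det := by
  obtain ⟨R, hR, hRR⟩ := exists_sqrt hM
  have h1 : Vᵀ * M * V = 1 + (Vᵀ * R) * (R * V) := by
    have : M = 1 + R * R := by rw [hRR]; abel
    rw [this, Matrix.mul_add, Matrix.add_mul, Matrix.mul_one, hV]
    simp only [Matrix.mul_assoc]
  have h2 : (Vᵀ * M * V).det = (1 + (R * V) * (Vᵀ * R)).det := by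
    rw [h1, Matrix.det_one_add_mul_comm]
  rw [h2]
  have hP : (1 - V * Vᵀ).PosSemidef := by
    have e : 1 - V * Vᵀ = (1 - V * Vᵀ)ᴴ * (1 - V * Vᵀ) := by
      rw [Matrix.conjTranspose_eq_transpose_of_trivial, Matrix.transpose_sub,
        Matrix.transpose_one, Matrix.transpose_mul, Matrix.transpose_transpose, sub_mul, mul_sub,
        mul_sub, one_mul, one_mul, mul_one]
      have : V * Vᵀ * (V * Vᵀ) = V * Vᵀ := by
        calc V * Vᵀ * (V * Vᵀ) = V * (Vᵀ * V) * Vᵀ := by simp only [Matrix.mul_assoc]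
          _ = _ := by rw [hV, Matrix.mul_one]
      rw [this]
      abel
    rw [e]
    exact Matrix.posSemidef_conjTranspose_mul_self _
  apply det_mono
  · refine Matrix.PosDef.one.add_posSemidef ?_
    have e : (R * V) * (Vᵀ * R) = (R * V) * (R * V)ᴴ := by
      rw [Matrix.conjTranspose_eq_transpose_of_trivial, Matrix.transpose_mul, hR]
    rw [e]
    exact Matrix.posSemidef_self_mul_conjTranspose _
  · have e : M - (1 + (R * V) * (Vᵀ * R)) = R * (1 - V * Vᵀ) * Rᴴ := by
      rw [Matrix.conjTranspose_eq_transpose_of_trivial, hR]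
      have : M = 1 + R * R := by rw [hRR]; abel
      rw [this, mul_sub, sub_mul, mul_one]
      simp only [Matrix.mul_assoc]
      abel
    rw [e]
    exact hP.mul_mul_conjTranspose_same R

/-- `pc Z = ∑ max 0 (log λ)` over the eigenvalues of `Z` -/
noncomputable def pc (Z : Matrix α α ℝ) : ℝ := (Z.charpoly.roots.map fun x => max 0 (Real.log x)).sum

lemma charpoly_conj {U : Matrix α α ℝ} (hU' : Uᵀ * U = 1)
    (B : Matrix α α ℝ) : (U * B * Uᵀ).charpoly = B.charpoly := by
  rw [Matrix.charpoly_mul_comm, ← mul_assoc, hU', one_mul]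

lemma roots_diag (a : α → ℝ) : (diagonal a).charpoly.roots = Finset.univ.val.map a := by
  rw [Matrix.charpoly_diagonal, Polynomial.roots_prod]
  · simp
  · simp [Finset.prod_ne_zero_iff, Polynomial.X_sub_C_ne_zero]

lemma pc_fn {U : Matrix α α ℝ} (hU' : Uᵀ * U = 1) (a : α → ℝ) :
    pc (U * diagonal a * Uᵀ) = ∑ i, max 0 (Real.log (a i)) := by
  rw [pc, charpoly_conj hU', roots_diag, Multiset.map_map]
  rfl

lemma pc_nonneg (Z : Matrix α α ℝ) : 0 ≤ pc Z := by
  apply Multiset.sum_nonneg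
  intro x hx
  rw [Multiset.mem_map] at hx
  obtain ⟨y, -, rfl⟩ := hx
  exact le_max_left _ _

lemma pc_submatrix (e : β ≃ α) (Z : Matrix α α ℝ) : pc (Z.submatrix e e) = pc Z := by
  have := Matrix.charpoly_reindex e.symm Z
  rw [pc, pc, ← this]
  rfl

lemma pc_blocks (A : Matrix α α ℝ) (B : Matrix β β ℝ) : pc (fromBlocks A 0 0 B) = pc A + pc B := by
  rw [pc, pc, pc, Matrix.charpoly_fromBlocks_zero₁₂, Polynomial.roots_mul, Multiset.map_add,
    Multiset.sum_add]
  exact mul_ne_zero (Matrix.charpoly_monic _).ne_zero (Matrix.charpoly_monic _).ne_zero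

lemma exp_max (x : ℝ) (hx : 0 < x) : Real.exp (max 0 (Real.log x)) = max 1 x := by
  rcases le_total x 1 with h | h
  · rw [max_eq_left (Real.log_nonpos hx.le h), Real.exp_zero, max_eq_left h]
  · rw [max_eq_right (Real.log_nonneg h), Real.exp_log hx, max_eq_right h]

/-- the positive part -/
lemma exists_plus {Z : Matrix α α ℝ} (hZ : Z.PosDef) : ∃ M : Matrix α α ℝ,
    (M - Z).PosSemidef ∧ (M - 1).PosSemidef ∧ M.det = Real.exp (pc Z) := by
  obtain ⟨U, a, hU, hU', hZe, -, h0⟩ := spec hZ.isHermitian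
  have hp := h0 hZ
  refine ⟨fn U a (fun x => max 1 x), ?_, ?_, ?_⟩
  · nth_rewrite 1 [hZe]
    change (_ - fn U a (fun x => x)).PosSemidef
    rw [fn_sub]
    exact fn_psd fun i => by simp
  · rw [← fn_one hU a, fn_sub]
    exact fn_psd fun i => by simp
  · nth_rewrite 1 [hZe]
    rw [pc_fn hU', fn, Matrix.det_mul, Matrix.det_mul, mul_comm U.det, mul_assoc,
      ← Matrix.det_mul, hU, Matrix.det_one, mul_one, Matrix.det_diagonal, Real.exp_sum]
    exact Finset.prod_congr rfl fun i _ => (exp_max _ (hp i)).symm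

lemma pd_compress {Z : Matrix α α ℝ} (hZ : Z.PosDef) {V : Matrix α β ℝ} (hV : Vᵀ * V = 1) :
    (Vᵀ * Z * V).PosDef := by
  have h : Function.Injective V.mulVec := by
    intro x y hxy
    have := congrArg (fun z => Vᵀ *ᵥ z) hxy
    simp only [Matrix.mulVec_mulVec, hV, Matrix.one_mulVec] at this
    exact this
  have := hZ.conjTranspose_mul_mul_same h
  rwa [Matrix.conjTranspose_eq_transpose_of_trivial] at this

lemma psd_compress {Z : Matrix α α ℝ} (hZ : Z.PosSemidef) (V : Matrix α β ℝ) :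
    (Vᵀ * Z * V).PosSemidef := by
  have := hZ.conjTranspose_mul_mul_same V
  rwa [Matrix.conjTranspose_eq_transpose_of_trivial] at this

lemma det_le_exp_pc {Z : Matrix α α ℝ} (hZ : Z.PosDef) {V : Matrix α β ℝ} (hV : Vᵀ * V = 1) :
    (Vᵀ * Z * V).det ≤ Real.exp (pc Z) := by
  obtain ⟨M, h1, h2, h3⟩ := exists_plus hZ
  rw [← h3]
  refine le_trans (det_mono (pd_compress hZ hV) ?_) (det_compress h2 hV)
  rw [← Matrix.sub_mul, ← Matrix.mul_sub]
  exact psd_compress h1 V

/-- an isometry attaining the bound -/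
lemma exists_V {Z : Matrix α α ℝ} (hZ : Z.PosDef) : ∃ (s : Finset α)
    (V : Matrix α s ℝ), Vᵀ * V = 1 ∧ (Vᵀ * Z * V).det = Real.exp (pc Z) := by
  classical
  obtain ⟨U, a, hU, hU', hZe, -, h0⟩ := spec hZ.isHermitian
  have hp := h0 hZ
  set s : Finset α := Finset.univ.filter (fun i => 1 < a i) with hs
  refine ⟨s, U.submatrix id (fun i : s => i.1), ?_, ?_⟩
  · ext i j
    have := congrFun (congrFun hU' i.1) j.1
    rw [Matrix.mul_apply] at this ⊢
    rw [Matrix.one_apply] at this ⊢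
    simp only [Matrix.transpose_apply, Matrix.submatrix_apply, id, Subtype.ext_iff] at this ⊢
    exact this
  · have h1 : (U.submatrix id (fun i : s => i.1))ᵀ * Z * U.submatrix id (fun i : s => i.1) =
        diagonal (fun i : s => a i.1) := by
      have h2 : Uᵀ * Z * U = diagonal a := by
        rw [hZe]
        calc Uᵀ * (U * diagonal a * Uᵀ) * U = (Uᵀ * U) * diagonal a * (Uᵀ * U) := by
              simp only [mul_assoc]
          _ = _ := by rw [hU', one_mul, mul_one]
      ext i j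
      have h3 := congrFun (congrFun h2 i.1) j.1
      have h4 : ((U.submatrix id (fun i : s => i.1))ᵀ * Z *
          U.submatrix id (fun i : s => i.1)) i j = (Uᵀ * Z * U) i.1 j.1 := by
        simp only [Matrix.mul_apply, Matrix.transpose_apply, Matrix.submatrix_apply, id]
      rw [h4, h3, Matrix.diagonal_apply, Matrix.diagonal_apply]
      simp only [Subtype.ext_iff]
    rw [h1, Matrix.det_diagonal]
    nth_rewrite 1 [hZe]
    rw [pc_fn hU', Real.exp_sum]
    rw [Finset.prod_coe_sort s (fun i => a i), hs, Finset.prod_filter]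
    refine Finset.prod_congr rfl fun i _ => ?_
    rw [exp_max _ (hp i)]
    split_ifs with h
    · rw [max_eq_right h.le]
    · rw [max_eq_left (not_lt.mp h)]

lemma pc_le_log_det {Z M : Matrix α α ℝ} (hZ : Z.PosDef) (h1 : (M - Z).PosSemidef)
    (h2 : (M - 1).PosSemidef) : Real.exp (pc Z) ≤ M.det := by
  classical
  obtain ⟨s, V, hV, hd⟩ := exists_V hZ
  rw [← hd]
  refine le_trans (det_mono (pd_compress hZ hV) ?_) (det_compress h2 hV)
  rw [← Matrix.sub_mul, ← Matrix.mul_sub]
  exact psd_compress h1 V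

lemma pc_scale {Z Z' : Matrix α α ℝ} (hZ : Z.PosDef) (hZ' : Z'.PosDef) {c : ℝ} (hc : 1 ≤ c)
    (h : (c • Z - Z').PosSemidef) : pc Z' ≤ pc Z + Fintype.card α * Real.log c := by
  obtain ⟨M, h1, h2, h3⟩ := exists_plus hZ
  have hc0 : 0 < c := by linarith
  have h4 : Real.exp (pc Z') ≤ (c • M).det := by
    apply pc_le_log_det hZ'
    · have e : c • M - Z' = c • (M - Z) + (c • Z - Z') := by
        rw [smul_sub]; abel
      rw [e]
      exact (h1.smul hc0.le).add h
    · have e : c • M - 1 = c • (M - 1) + (c - 1) • (1 : Matrix α α ℝ) := by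
        rw [smul_sub, sub_smul, one_smul]; abel
      rw [e]
      exact (h2.smul hc0.le).add (Matrix.PosSemidef.one.smul (by linarith))
  rw [Matrix.det_smul, h3] at h4
  have h5 : c ^ Fintype.card α * Real.exp (pc Z) =
      Real.exp (pc Z + Fintype.card α * Real.log c) := by
    rw [Real.exp_add, Real.exp_nat_mul, Real.exp_log hc0, mul_comm]
  rw [h5] at h4
  exact Real.exp_le_exp.mp h4

end spectral

end Pool.Agent.V11263.Gauss
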