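import Pool.Agent.V11263.GaussA

/-! Symplectic linear algebra with respect to a complex structure `J` (`Jᵀ = -J`, `J * J = -1`). -/

namespace Pool.Agent.V11263.Gauss

open Matrix Polynomial

section sympl

variable {α β : Type*} [Fintype α] [DecidableEq α] [Fintype β] [DecidableEq β]

/-- `J` is an orthogonal complex structure -/
structure IsCS (J : Matrix α α ℝ) : Prop where
  skew : Jᵀ = -J
  sq : J * J = -1

variable {J : Matrix α α ℝ}

lemma IsCS.tmul (hJ : IsCS J) : Jᵀ * J = 1 := by rw [hJ.skew, neg_mul, hJ.sq, neg_neg]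
lemma IsCS.mult (hJ : IsCS J) : J * Jᵀ = 1 := by rw [hJ.skew, mul_neg, hJ.sq, neg_neg]

/-- symplectic matrices for `J` -/
def Sym (J S : Matrix α α ℝ) : Prop := Sᵀ * J * S = J

lemma Sym.trans (hJ : IsCS J) {S : Matrix α α ℝ} (h : Sym J S) : S * J * Sᵀ = J := by
  have h1 : (-(J * Sᵀ * J)) * S = 1 := by
    rw [neg_mul, mul_assoc, mul_assoc, ← mul_assoc Sᵀ, h, hJ.sq, neg_neg]
  have h2 := mul_eq_one_comm.mp h1
  have h3 : S * J * Sᵀ * J = -1 := by
    rw [mul_neg] at h2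
    rw [← h2, neg_neg]
    simp only [mul_assoc]
  calc S * J * Sᵀ = -(S * J * Sᵀ * (J * J)) := by rw [hJ.sq]; simp
    _ = -((S * J * Sᵀ * J) * J) := by simp only [mul_assoc]
    _ = J := by rw [h3]; simp

lemma Sym.mul {S T : Matrix α α ℝ} (hS : Sym J S) (hT : Sym J T) : Sym J (S * T) := by
  unfold Sym at *
  calc (S * T)ᵀ * J * (S * T) = Tᵀ * (Sᵀ * J * S) * T := by
        rw [Matrix.transpose_mul]; simp only [mul_assoc]
    _ = J := by rw [hS, hT]

/-- `Z = Sᵀ S` -/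
lemma Sym.gram (hJ : IsCS J) {S : Matrix α α ℝ} (h : Sym J S) : (Sᵀ * S) * J * (Sᵀ * S) = J := by
  calc (Sᵀ * S) * J * (Sᵀ * S) = Sᵀ * (S * J * Sᵀ) * S := by simp only [mul_assoc]
    _ = J := by rw [h.trans hJ, h]

lemma Sym.gram_pd (hJ : IsCS J) {S : Matrix α α ℝ} (h : Sym J S) : (Sᵀ * S).PosDef := by
  have h1 : (-(J * Sᵀ * J)) * S = 1 := by
    rw [neg_mul, mul_assoc, mul_assoc, ← mul_assoc Sᵀ, h, hJ.sq, neg_neg]
  have hinj : Function.Injective S.mulVec := by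
    intro x y hxy
    have := congrArg (fun z => (-(J * Sᵀ * J)) *ᵥ z) hxy
    simp only [Matrix.mulVec_mulVec, h1, Matrix.one_mulVec] at this
    exact this
  have := Matrix.PosDef.conjTranspose_mul_self S hinj
  rwa [Matrix.conjTranspose_eq_transpose_of_trivial] at this

/-- symmetric positive definite symplectic matrices have symplectic square roots -/
lemma sqrt_sym (hJ : IsCS J) {Y : Matrix α α ℝ} (hY : Y.PosDef) (h : Y * J * Y = J) :
    ∃ T Ti : Matrix α α ℝ, Tᵀ = T ∧ Tiᵀ = Ti ∧ T * T = Y ∧ T * Ti = 1 ∧ Ti * T = 1 ∧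
      T * J * T = J := by
  obtain ⟨U, a, hU, hU', hYe, -, h0⟩ := spec hY.isHermitian
  have hp := h0 hY
  have e1 : fn U a Real.sqrt * fn U a (fun x => (Real.sqrt x)⁻¹) = 1 := by
    rw [fn_mul hU', ← fn_one hU a]
    exact fn_congr fun i => mul_inv_cancel₀ (Real.sqrt_pos.mpr (hp i)).ne'
  have e2 := mul_eq_one_comm.mp e1
  have hYi : Y * fn U a (fun x => x⁻¹) = 1 := by
    rw [hYe]
    change fn U a (fun x => x) * _ = 1
    rw [fn_mul hU', ← fn_one hU a]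
    exact fn_congr fun i => mul_inv_cancel₀ (hp i).ne'
  have h1 : Y * J = J * fn U a (fun x => x⁻¹) := by
    calc Y * J = Y * J * (Y * fn U a (fun x => x⁻¹)) := by rw [hYi, mul_one]
      _ = (Y * J * Y) * fn U a (fun x => x⁻¹) := by simp only [mul_assoc]
      _ = _ := by rw [h]
  have h2 : fn U a Real.sqrt * J = J * fn U (fun i => (a i)⁻¹) Real.sqrt := by
    apply intertwine hU hU' hU hU'
    rw [← hYe, h1]
    rfl
  have h3 : fn U (fun i => (a i)⁻¹) Real.sqrt = fn U a (fun x => (Real.sqrt x)⁻¹) := by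
    unfold fn
    congr 2
    congr 1
    funext i
    exact Real.sqrt_inv _
  refine ⟨fn U a Real.sqrt, fn U a (fun x => (Real.sqrt x)⁻¹), fn_symm _ _ _, fn_symm _ _ _,
    ?_, e1, e2, ?_⟩
  · rw [fn_mul hU', hYe]
    exact fn_congr (g := fun x => x) fun i => Real.mul_self_sqrt (hp i).le
  · rw [h2, h3, mul_assoc, e2, mul_one]

/-- real form of the uncertainty relation -/
def Unc (J A : Matrix α α ℝ) : Prop :=
  Aᵀ = A ∧ ∀ u v : α → ℝ, 0 ≤ u ⬝ᵥ A *ᵥ u + v ⬝ᵥ A *ᵥ v + 2 * (u ⬝ᵥ J *ᵥ v)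

lemma Unc.posDef (hJ : IsCS J) {A : Matrix α α ℝ} (h : Unc J A) : A.PosDef := by
  have hH : A.IsHermitian := by
    rw [Matrix.IsHermitian, Matrix.conjTranspose_eq_transpose_of_trivial, h.1]
  rw [Matrix.posDef_iff_dotProduct_mulVec]
  refine ⟨hH, fun u hu => ?_⟩
  simp only [star_trivial]
  have h0 : 0 ≤ u ⬝ᵥ A *ᵥ u := by
    have := h.2 u 0
    simpa using this
  refine lt_of_le_of_ne h0 fun hz => hu ?_
  have h1 : ∀ t : ℝ, 0 ≤ t ^ 2 * ((J *ᵥ u) ⬝ᵥ A *ᵥ (J *ᵥ u)) - 2 * t * (u ⬝ᵥ u) := by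
    intro t
    have := h.2 u (t • (J *ᵥ u))
    rw [← hz, Matrix.mulVec_smul, Matrix.mulVec_smul, smul_dotProduct, dotProduct_smul,
      dotProduct_smul, Matrix.mulVec_mulVec, Matrix.mulVec_mulVec, hJ.sq, Matrix.neg_mulVec,
      Matrix.one_mulVec, dotProduct_neg] at this
    rw [Matrix.mulVec_mulVec]
    simp only [smul_eq_mul] at this
    linarith
  have h2 : u ⬝ᵥ u ≤ 0 := by
    set q := (J *ᵥ u) ⬝ᵥ A *ᵥ (J *ᵥ u)
    have hq : 0 ≤ q := by
      have := h.2 (J *ᵥ u) 0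
      rw [Matrix.mulVec_zero, Matrix.mulVec_zero, dotProduct_zero, dotProduct_zero] at this
      linarith
    by_contra hc
    push Not at hc
    have := h1 (u ⬝ᵥ u / (q + 1))
    have hq1 : 0 < q + 1 := by linarith
    have e : (u ⬝ᵥ u / (q + 1)) ^ 2 * q - 2 * (u ⬝ᵥ u / (q + 1)) * (u ⬝ᵥ u) =
        (u ⬝ᵥ u) ^ 2 * (q - 2 * (q + 1)) / (q + 1) ^ 2 := by
      field_simp
    rw [e] at this
    have : (u ⬝ᵥ u) ^ 2 * (q - 2 * (q + 1)) / (q + 1) ^ 2 < 0 := by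
      apply div_neg_of_neg_of_pos _ (by positivity)
      have : 0 < (u ⬝ᵥ u) ^ 2 := by positivity
      nlinarith
    linarith
  have h3 : u ⬝ᵥ u = 0 := le_antisymm h2 (by
    rw [dotProduct]; exact Finset.sum_nonneg fun i _ => mul_self_nonneg _)
  exact dotProduct_self_eq_zero.mp h3

/-- the pure part of a covariance matrix -/
lemma pure_part (hJ : IsCS J) {A : Matrix α α ℝ} (h : Unc J A) : ∃ Y : Matrix α α ℝ,
    Yᵀ = Y ∧ Y.PosDef ∧ Y * J * Y = J ∧ (A - Y).PosSemidef ∧ Y * (Jᵀ * A * J) * Y = A := by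
  obtain ⟨C, D, hC, hD, hCC, hCD, hDC⟩ := exists_sqrt_inv (h.posDef hJ)
  obtain ⟨K, hK⟩ : ∃ K : Matrix α α ℝ, K = C * J * C := ⟨_, rfl⟩
  have hKt : Kᵀ = -K := by
    rw [hK, Matrix.transpose_mul, Matrix.transpose_mul, hC, hJ.skew, ← mul_assoc]
    simp
  obtain ⟨M, hM⟩ : ∃ M : Matrix α α ℝ, M = D * J * D := ⟨_, rfl⟩
  have hMK : M * K = -1 := by
    calc M * K = D * J * (D * C) * J * C := by rw [hM, hK]; simp only [mul_assoc]
      _ = D * (J * J) * C := by rw [hDC, mul_one]; simp only [mul_assoc]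
      _ = -1 := by rw [hJ.sq, mul_neg, mul_one, neg_mul, hDC]
  have hKM : K * M = -1 := by
    have : (-M) * K = 1 := by rw [neg_mul, hMK, neg_neg]
    have h2 := mul_eq_one_comm.mp this
    rw [mul_neg] at h2
    rw [← h2, neg_neg]
  obtain ⟨H, hH⟩ : ∃ H : Matrix α α ℝ, H = -(K * K) := ⟨_, rfl⟩
  have hHt : H = Kᵀ * K := by rw [hKt, hH, neg_mul]
  have hHpsd : (H - 1).PosSemidef := by
    have hherm : (H - 1).IsHermitian := by
      rw [Matrix.IsHermitian, Matrix.conjTranspose_eq_transpose_of_trivial, Matrix.transpose_sub,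
        Matrix.transpose_one, hHt, Matrix.transpose_mul, Matrix.transpose_transpose]
    rw [Matrix.posSemidef_iff_dotProduct_mulVec]
    refine ⟨hherm, fun x => ?_⟩
    simp only [star_trivial]
    have h1 := h.2 (D *ᵥ x) (D *ᵥ (K *ᵥ x))
    have e : ∀ (P : Matrix α α ℝ) (u v : α → ℝ), (D *ᵥ u) ⬝ᵥ P *ᵥ (D *ᵥ v) =
        u ⬝ᵥ (D * P * D) *ᵥ v := by
      intro P u v
      rw [← Matrix.vecMul_transpose, ← Matrix.dotProduct_mulVec, hD, Matrix.mulVec_mulVec,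
        Matrix.mulVec_mulVec, mul_assoc]
    have hDAD : D * A * D = 1 := by
      rw [← hCC]
      calc D * (C * C) * D = (D * C) * (C * D) := by simp only [mul_assoc]
        _ = 1 := by rw [hDC, hCD, mul_one]
    rw [e, e, e, hDAD, ← hM, Matrix.one_mulVec, Matrix.one_mulVec, Matrix.mulVec_mulVec, hMK,
      Matrix.neg_mulVec, Matrix.one_mulVec, dotProduct_neg] at h1
    have h2 : (K *ᵥ x) ⬝ᵥ (K *ᵥ x) = x ⬝ᵥ H *ᵥ x := by
      rw [hHt, ← Matrix.mulVec_mulVec, Matrix.dotProduct_mulVec x, Matrix.vecMul_transpose]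
    rw [Matrix.sub_mulVec, dotProduct_sub, Matrix.one_mulVec, ← h2]
    linarith
  have hHpd : H.PosDef := by
    have : H = 1 + (H - 1) := by abel
    rw [this]
    exact Matrix.PosDef.one.add_posSemidef hHpsd
  obtain ⟨V, b, hV, hV', hHe, -, h0⟩ := spec hHpd.isHermitian
  have hb : ∀ i, 1 ≤ b i := by
    intro i
    have h1 : (Vᵀ * (H - 1) * V).PosSemidef := psd_compress hHpsd V
    have h2 : Vᵀ * (H - 1) * V = diagonal (fun i => b i - 1) := by
      have h3 : Vᵀ * H * V = diagonal b := by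
        rw [hHe]
        calc Vᵀ * (V * diagonal b * Vᵀ) * V = (Vᵀ * V) * diagonal b * (Vᵀ * V) := by
              simp only [mul_assoc]
          _ = _ := by rw [hV', one_mul, mul_one]
      rw [mul_sub, sub_mul, mul_one, hV', h3]
      ext i j
      by_cases hij : i = j
      · subst hij; simp
      · simp [hij]
    rw [h2, Matrix.posSemidef_diagonal_iff] at h1
    linarith [h1 i]
  have hbp : ∀ i, 0 < b i := fun i => lt_of_lt_of_le one_pos (hb i)
  obtain ⟨L, hL⟩ : ∃ L : Matrix α α ℝ, L = fn V b (fun x => (Real.sqrt x)⁻¹) := ⟨_, rfl⟩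
  have hLt : Lᵀ = L := by rw [hL]; exact fn_symm _ _ _
  have hLL : L * L = fn V b (fun x => x⁻¹) := by
    rw [hL, fn_mul hV']
    exact fn_congr fun i => by
      rw [← mul_inv, Real.mul_self_sqrt (hbp i).le]
  have hHL : H * (L * L) = 1 := by
    rw [hLL, hHe]
    change fn V b (fun x => x) * _ = 1
    rw [fn_mul hV', ← fn_one hV b]
    exact fn_congr fun i => mul_inv_cancel₀ (hbp i).ne'
  have hLH : (L * L) * H = 1 := mul_eq_one_comm.mp hHL
  have hLK : L * K = K * L := by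
    rw [hL]
    apply intertwine hV hV' hV hV'
    rw [← hHe, hH]
    simp only [mul_assoc, neg_mul, mul_neg]
  have hLHL : L * H * L = 1 := by
    have hLH' : L * H = H * L := by
      rw [hH, mul_neg, neg_mul, ← mul_assoc, hLK, mul_assoc, hLK, mul_assoc]
    rw [hLH', mul_assoc, hHL]
  refine ⟨C * L * C, ?_, ?_, ?_, ?_, ?_⟩
  · rw [Matrix.transpose_mul, Matrix.transpose_mul, hC, hLt, mul_assoc]
  · have h1 : L.PosDef := by
      rw [hL]
      exact fn_pd hV fun i => inv_pos.mpr (Real.sqrt_pos.mpr (hbp i))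
    have h2 : IsUnit C := by
      rw [Matrix.isUnit_iff_isUnit_det]
      exact Matrix.isUnit_det_of_right_inverse hCD
    have h3 := (Matrix.IsUnit.posDef_star_right_conjugate_iff h2).mpr h1
    rwa [Matrix.star_eq_conjTranspose, Matrix.conjTranspose_eq_transpose_of_trivial, hC] at h3
  · have h1 : K * (L * L) = M := by
      calc K * (L * L) = -(M * K) * (K * (L * L)) := by rw [hMK, neg_neg, one_mul]
        _ = M * (H * (L * L)) := by rw [hH]; simp only [mul_assoc, neg_mul, mul_neg]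
        _ = M := by rw [hHL, mul_one]
    calc C * L * C * J * (C * L * C) = C * (L * (C * J * C) * L) * C := by simp only [mul_assoc]
      _ = C * M * C := by rw [← hK, hLK, mul_assoc K L L, h1]
      _ = (C * D) * J * (D * C) := by rw [hM]; simp only [mul_assoc]
      _ = J := by rw [hCD, hDC, one_mul, mul_one]
  · have e : A - C * L * C = Cᵀ * (1 - L) * C := by
      rw [hC, mul_sub, sub_mul, mul_one, hCC]
    rw [e]
    apply psd_compress
    rw [hL, ← fn_one hV b, fn_sub]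
    apply fn_psd
    intro i
    have : (Real.sqrt (b i))⁻¹ ≤ 1 := inv_le_one_of_one_le₀ (Real.one_le_sqrt.mpr (hb i))
    linarith
  · calc C * L * C * (Jᵀ * A * J) * (C * L * C)
        = C * (L * ((C * Jᵀ * C) * (C * J * C)) * L) * C := by rw [← hCC]; simp only [mul_assoc]
      _ = C * (L * H * L) * C := by
          rw [hHt, hK, Matrix.transpose_mul, Matrix.transpose_mul, hC, ← mul_assoc C Jᵀ C]
      _ = A := by rw [hLHL, mul_one, hCC]

lemma psd_blocks {A : Matrix α α ℝ} (hA : A.PosDef) (X : Matrix α β ℝ) (D : Matrix β β ℝ) :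
    (fromBlocks A X Xᵀ D).PosSemidef ↔ (D - Xᵀ * A⁻¹ * X).PosSemidef := by
  have hu : IsUnit A := hA.isUnit
  have := hu.invertible
  have h := Matrix.PosDef.fromBlocks₁₁ X D hA
  rwa [Matrix.conjTranspose_eq_transpose_of_trivial] at h

lemma det_blocks {A : Matrix α α ℝ} (hA : A.PosDef) (X : Matrix α β ℝ) (D : Matrix β β ℝ) :
    (fromBlocks A X Xᵀ D).det = A.det * (D - Xᵀ * A⁻¹ * X).det := by
  have hu : IsUnit A := hA.isUnit
  have := hu.invertible
  rw [Matrix.det_fromBlocks₁₁, Matrix.invOf_eq_nonsing_inv]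

variable {γ δ : Type*} [Fintype γ] [DecidableEq γ] [Fintype δ] [DecidableEq δ]

lemma compress_blocks (A : Matrix α α ℝ) (X : Matrix α β ℝ) (Y : Matrix β α ℝ) (D : Matrix β β ℝ)
    (V : Matrix α γ ℝ) (W : Matrix β δ ℝ) :
    (fromBlocks V 0 0 W)ᵀ * fromBlocks A X Y D * fromBlocks V 0 0 W =
      fromBlocks (Vᵀ * A * V) (Vᵀ * X * W) (Wᵀ * Y * V) (Wᵀ * D * W) := by
  rw [Matrix.fromBlocks_transpose, Matrix.fromBlocks_multiply, Matrix.fromBlocks_multiply]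
  simp

/-- determinant estimate by a Schur complement -/
lemma schur_step {A : Matrix α α ℝ} (hA : A.PosDef) {X : Matrix α β ℝ} {D S : Matrix β β ℝ}
    (hS : S.PosDef) (h : S = D - Xᵀ * A⁻¹ * X) {V : Matrix α γ ℝ} {W : Matrix β δ ℝ}
    (hV : Vᵀ * V = 1) (hW : Wᵀ * W = 1) :
    (Vᵀ * A * V).det * (Wᵀ * S * W).det ≤
      ((fromBlocks V 0 0 W)ᵀ * fromBlocks A X Xᵀ D * fromBlocks V 0 0 W).det := by
  have h1 : (fromBlocks A X Xᵀ (D - S)).PosSemidef := by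
    rw [psd_blocks hA, h]
    have : D - (D - Xᵀ * A⁻¹ * X) - Xᵀ * A⁻¹ * X = 0 := by abel
    rw [this]
    exact Matrix.PosSemidef.zero
  have h2 := psd_compress h1 (fromBlocks V 0 0 W)
  have e : Wᵀ * Xᵀ * V = (Vᵀ * X * W)ᵀ := by
    rw [Matrix.transpose_mul, Matrix.transpose_mul, Matrix.transpose_transpose,
      Matrix.mul_assoc]
  rw [compress_blocks, e, psd_blocks (pd_compress hA hV)] at h2
  rw [compress_blocks, e, det_blocks (pd_compress hA hV)]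
  apply mul_le_mul_of_nonneg_left _ (pd_compress hA hV).det_pos.le
  apply det_mono (pd_compress hS hW)
  have e2 : Wᵀ * D * W - (Vᵀ * X * W)ᵀ * (Vᵀ * A * V)⁻¹ * (Vᵀ * X * W) - Wᵀ * S * W =
      Wᵀ * (D - S) * W - (Vᵀ * X * W)ᵀ * (Vᵀ * A * V)⁻¹ * (Vᵀ * X * W) := by
    rw [Matrix.mul_sub, Matrix.sub_mul]
    abel
  rw [e2]
  exact h2

/-- Cauchy–Schwarz for determinants -/
lemma det_cs {B Y S : Matrix β β ℝ} (hB : B.PosDef) (hY : Y.PosDef)
    (h : S = Y * B⁻¹ * Y) {W : Matrix β δ ℝ} (hW : Wᵀ * W = 1) :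
    (Wᵀ * Y * W).det ^ 2 ≤ (Wᵀ * B * W).det * (Wᵀ * S * W).det := by
  have hYt : Yᵀ = Y := by
    have := hY.isHermitian.eq
    rwa [Matrix.conjTranspose_eq_transpose_of_trivial] at this
  have h1 : (fromBlocks B Y Yᵀ S).PosSemidef := by
    rw [psd_blocks hB, h, hYt, sub_self]
    exact Matrix.PosSemidef.zero
  have h2 := psd_compress h1 (fromBlocks W 0 0 W)
  have e : Wᵀ * Yᵀ * W = (Wᵀ * Y * W)ᵀ := by
    rw [Matrix.transpose_mul, Matrix.transpose_mul, Matrix.transpose_transpose,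
      Matrix.mul_assoc]
  rw [compress_blocks, e, psd_blocks (pd_compress hB hW)] at h2
  set b := Wᵀ * B * W with hb
  set y := Wᵀ * Y * W with hy
  have hbpd : b.PosDef := pd_compress hB hW
  have hypd : y.PosDef := pd_compress hY hW
  have hyt : yᵀ = y := by
    have := hypd.isHermitian.eq
    rwa [Matrix.conjTranspose_eq_transpose_of_trivial] at this
  have h3 : (yᵀ * b⁻¹ * y).PosDef := by
    have := (Matrix.IsUnit.posDef_star_left_conjugate_iff hypd.isUnit).mpr hbpd.inv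
    rwa [Matrix.star_eq_conjTranspose, Matrix.conjTranspose_eq_transpose_of_trivial] at this
  have h4 := det_mono h3 h2
  rw [Matrix.det_mul, Matrix.det_mul, Matrix.det_transpose, Matrix.det_nonsing_inv,
    Ring.inverse_eq_inv'] at h4
  have h5 := hbpd.det_pos
  have h6 : y.det * b.det⁻¹ * y.det = y.det ^ 2 / b.det := by field_simp
  rw [h6, div_le_iff₀ h5] at h4
  linarith

lemma gram_unc (hJ : IsCS J) {S : Matrix α α ℝ} (h : Sym J S) : Unc J (Sᵀ * S) := by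
  refine ⟨by rw [Matrix.transpose_mul, Matrix.transpose_transpose], fun u v => ?_⟩
  have e1 : ∀ w : α → ℝ, w ⬝ᵥ (Sᵀ * S) *ᵥ w = (S *ᵥ w) ⬝ᵥ (S *ᵥ w) := by
    intro w
    rw [← Matrix.mulVec_mulVec, Matrix.dotProduct_mulVec w, Matrix.vecMul_transpose]
  have e2 : u ⬝ᵥ J *ᵥ v = (S *ᵥ u) ⬝ᵥ J *ᵥ (S *ᵥ v) := by
    nth_rewrite 1 [← h]
    rw [← Matrix.mulVec_mulVec, ← Matrix.mulVec_mulVec, Matrix.dotProduct_mulVec u,
      Matrix.vecMul_transpose]
  rw [e1, e1, e2]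
  set a := S *ᵥ u
  set b := S *ᵥ v
  have e3 : (J *ᵥ b) ⬝ᵥ (J *ᵥ b) = b ⬝ᵥ b := by
    rw [Matrix.dotProduct_mulVec, ← Matrix.mulVec_transpose, Matrix.mulVec_mulVec, hJ.tmul,
      Matrix.one_mulVec]
  have e4 : 0 ≤ (a + J *ᵥ b) ⬝ᵥ (a + J *ᵥ b) := by
    rw [dotProduct]; exact Finset.sum_nonneg fun i _ => mul_self_nonneg _
  rw [add_dotProduct, dotProduct_add, dotProduct_add, e3, dotProduct_comm (J *ᵥ b) a] at e4
  linarith

lemma pdS {K C : Matrix α α ℝ} (hK : IsCS K) (hC : C.PosDef) : (Kᵀ * C⁻¹ * K).PosDef := by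
  have hu : IsUnit K := by
    rw [Matrix.isUnit_iff_isUnit_det]
    exact Matrix.isUnit_det_of_left_inverse hK.tmul
  have := (Matrix.IsUnit.posDef_star_left_conjugate_iff hu).mpr hC.inv
  rwa [Matrix.star_eq_conjTranspose, Matrix.conjTranspose_eq_transpose_of_trivial] at this

lemma csY {K C Y : Matrix α α ℝ} (hK : IsCS K) (h1 : C⁻¹ * C = 1) (h2 : C * C⁻¹ = 1)
    (hY : Y.PosDef) (h3 : Y * (Kᵀ * C * K) * Y = C) : Kᵀ * C⁻¹ * K = Y * C⁻¹ * Y := by
  have hYi : Y⁻¹ * Y = 1 := Matrix.nonsing_inv_mul _ (by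
    rw [← Matrix.isUnit_iff_isUnit_det]; exact hY.isUnit)
  have hYi' : Y * Y⁻¹ = 1 := mul_eq_one_comm.mp hYi
  have h4 : (Y * C⁻¹ * Y) * (Kᵀ * C * K) = 1 := by
    have h5 : Y * (Kᵀ * C * K) = C * Y⁻¹ := by
      calc Y * (Kᵀ * C * K) = (Y * (Kᵀ * C * K) * Y) * Y⁻¹ := by rw [mul_assoc _ Y, hYi', mul_one]
        _ = C * Y⁻¹ := by rw [h3]
    calc (Y * C⁻¹ * Y) * (Kᵀ * C * K) = Y * C⁻¹ * (Y * (Kᵀ * C * K)) := by
          simp only [mul_assoc]
      _ = Y * (C⁻¹ * C) * Y⁻¹ := by rw [h5]; simp only [mul_assoc]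
      _ = 1 := by rw [h1, mul_one, hYi']
  have h6 : (Kᵀ * C * K) * (Kᵀ * C⁻¹ * K) = 1 := by
    calc (Kᵀ * C * K) * (Kᵀ * C⁻¹ * K) = Kᵀ * C * (K * Kᵀ) * C⁻¹ * K := by
          simp only [mul_assoc]
      _ = Kᵀ * (C * C⁻¹) * K := by rw [hK.mult, mul_one]; simp only [mul_assoc]
      _ = 1 := by rw [h2, mul_one, hK.tmul]
  calc Kᵀ * C⁻¹ * K = ((Y * C⁻¹ * Y) * (Kᵀ * C * K)) * (Kᵀ * C⁻¹ * K) := by rw [h4, one_mul]
    _ = (Y * C⁻¹ * Y) * ((Kᵀ * C * K) * (Kᵀ * C⁻¹ * K)) := by simp only [mul_assoc]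
    _ = _ := by rw [h6, mul_one]

/-- Superadditivity on the level of pure states. -/
lemma super_core {Ja : Matrix α α ℝ} {Jb : Matrix β β ℝ} (ha : IsCS Ja) (hb : IsCS Jb)
    {A : Matrix α α ℝ} {X : Matrix α β ℝ} {B : Matrix β β ℝ}
    (hZ : (fromBlocks A X Xᵀ B).PosDef)
    (hU : Unc (fromBlocks Ja 0 0 Jb) (fromBlocks A X Xᵀ B))
    (hs : fromBlocks A X Xᵀ B * fromBlocks Ja 0 0 Jb * fromBlocks A X Xᵀ B =
      fromBlocks Ja 0 0 Jb) :
    ∃ (S : Matrix α α ℝ) (T : Matrix β β ℝ), Sym Ja S ∧ Sym Jb T ∧ (A - Sᵀ * S).PosSemidef ∧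
      (B - Tᵀ * T).PosSemidef ∧ pc (Sᵀ * S) + pc (Tᵀ * T) ≤ pc (fromBlocks A X Xᵀ B) := by
  -- the marginals
  have hUA : Unc Ja A := by
    refine ⟨?_, fun u v => ?_⟩
    · have := hU.1
      rw [Matrix.fromBlocks_transpose, Matrix.fromBlocks_inj] at this
      exact this.1
    · have := hU.2 (Sum.elim u 0) (Sum.elim v 0)
      simpa [Matrix.fromBlocks_mulVec, sumElim_dotProduct_sumElim] using this
  have hUB : Unc Jb B := by
    refine ⟨?_, fun u v => ?_⟩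
    · have := hU.1
      rw [Matrix.fromBlocks_transpose, Matrix.fromBlocks_inj] at this
      exact this.2.2.2
    · have := hU.2 (Sum.elim 0 u) (Sum.elim 0 v)
      simpa [Matrix.fromBlocks_mulVec, sumElim_dotProduct_sumElim] using this
  have hA := hUA.posDef ha
  have hB := hUB.posDef hb
  rw [Matrix.fromBlocks_multiply, Matrix.fromBlocks_multiply] at hs
  simp only [Matrix.mul_zero, add_zero, zero_add] at hs
  rw [Matrix.fromBlocks_inj] at hs
  obtain ⟨s11, s12, s21, s22⟩ := hs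
  obtain ⟨Ya, hYat, hYapd, hYas, hYale, hYaA⟩ := pure_part ha hUA
  obtain ⟨Yb, hYbt, hYbpd, hYbs, hYble, hYbB⟩ := pure_part hb hUB
  obtain ⟨S, Si, hSt, -, hSS, -, -, hSJ⟩ := sqrt_sym ha hYapd hYas
  obtain ⟨T, Ti, hTt, -, hTT, -, -, hTJ⟩ := sqrt_sym hb hYbpd hYbs
  have hAi : A⁻¹ * A = 1 := Matrix.nonsing_inv_mul _ (by
    rw [← Matrix.isUnit_iff_isUnit_det]; exact hA.isUnit)
  have hAi' : A * A⁻¹ = 1 := mul_eq_one_comm.mp hAi
  have hBi : B⁻¹ * B = 1 := Matrix.nonsing_inv_mul _ (by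
    rw [← Matrix.isUnit_iff_isUnit_det]; exact hB.isUnit)
  have hBi' : B * B⁻¹ = 1 := mul_eq_one_comm.mp hBi
  -- Schur complements
  have hSb : Jbᵀ * B⁻¹ * Jb = B - Xᵀ * A⁻¹ * X := by
    have h1 : (B - Xᵀ * A⁻¹ * X) * (Jb * B) = Jb := by
      have h2 : X * Jb * B = -(A * Ja * X) := eq_neg_of_add_eq_zero_right s12
      calc (B - Xᵀ * A⁻¹ * X) * (Jb * B) = B * Jb * B - Xᵀ * A⁻¹ * (X * Jb * B) := by
            rw [Matrix.sub_mul]; simp only [Matrix.mul_assoc]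
        _ = B * Jb * B + Xᵀ * (A⁻¹ * A) * Ja * X := by
            rw [h2]; simp only [Matrix.mul_assoc, Matrix.mul_neg, sub_neg_eq_add]
        _ = Jb := by rw [hAi, Matrix.mul_one, add_comm]; exact s22
    calc Jbᵀ * B⁻¹ * Jb = Jb * B⁻¹ * Jbᵀ := by rw [hb.skew]; simp
      _ = ((B - Xᵀ * A⁻¹ * X) * (Jb * B)) * B⁻¹ * Jbᵀ := by rw [h1]
      _ = (B - Xᵀ * A⁻¹ * X) * (Jb * (B * B⁻¹) * Jbᵀ) := by simp only [Matrix.mul_assoc]
      _ = _ := by rw [hBi', Matrix.mul_one, hb.mult, Matrix.mul_one]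
  have hSa : Jaᵀ * A⁻¹ * Ja = A - Xᵀᵀ * B⁻¹ * Xᵀ := by
    rw [Matrix.transpose_transpose]
    have h1 : (A - X * B⁻¹ * Xᵀ) * (Ja * A) = Ja := by
      have h2 : Xᵀ * Ja * A = -(B * Jb * Xᵀ) := eq_neg_of_add_eq_zero_left s21
      calc (A - X * B⁻¹ * Xᵀ) * (Ja * A) = A * Ja * A - X * B⁻¹ * (Xᵀ * Ja * A) := by
            rw [Matrix.sub_mul]; simp only [Matrix.mul_assoc]
        _ = A * Ja * A + X * (B⁻¹ * B) * Jb * Xᵀ := by
            rw [h2]; simp only [Matrix.mul_assoc, Matrix.mul_neg, sub_neg_eq_add]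
        _ = Ja := by rw [hBi, Matrix.mul_one]; exact s11
    calc Jaᵀ * A⁻¹ * Ja = Ja * A⁻¹ * Jaᵀ := by rw [ha.skew]; simp
      _ = ((A - X * B⁻¹ * Xᵀ) * (Ja * A)) * A⁻¹ * Jaᵀ := by rw [h1]
      _ = (A - X * B⁻¹ * Xᵀ) * (Ja * (A * A⁻¹) * Jaᵀ) := by simp only [Matrix.mul_assoc]
      _ = _ := by rw [hAi', Matrix.mul_one, ha.mult, Matrix.mul_one]
  obtain ⟨sa, V, hV, hVd⟩ := exists_V hYapd
  obtain ⟨sb, W, hW, hWd⟩ := exists_V hYbpd
  refine ⟨S, T, by rw [Sym, hSt, hSJ], by rw [Sym, hTt, hTJ], by rw [hSt, hSS]; exact hYale,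
    by rw [hTt, hTT]; exact hYble, ?_⟩
  rw [hSt, hSS, hTt, hTT]
  have hVW : (fromBlocks V 0 0 W)ᵀ * fromBlocks V 0 0 W = 1 := by
    rw [Matrix.fromBlocks_transpose, Matrix.fromBlocks_multiply]
    simp only [Matrix.transpose_zero, Matrix.mul_zero, Matrix.zero_mul, add_zero, zero_add,
      hV, hW, Matrix.fromBlocks_one]
  have hD := det_le_exp_pc hZ hVW
  have d1 := schur_step hA (pdS hb hB) hSb hV hW
  have d2 := schur_step hB (pdS ha hA) hSa hW hV
  have d3 : ((fromBlocks W 0 0 V)ᵀ * fromBlocks B Xᵀ Xᵀᵀ A * fromBlocks W 0 0 V).det =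
      ((fromBlocks V 0 0 W)ᵀ * fromBlocks A X Xᵀ B * fromBlocks V 0 0 W).det := by
    rw [compress_blocks, compress_blocks, Matrix.transpose_transpose,
      ← Matrix.det_submatrix_equiv_self (Equiv.sumComm sb sa)]
    congr 1
    simp only [Equiv.sumComm_apply]
    rw [Matrix.fromBlocks_submatrix_sum_swap_sum_swap]
  rw [d3] at d2
  have c1 := det_cs hA hYapd (csY ha hAi hAi' hYapd hYaA) hV
  have c2 := det_cs hB hYbpd (csY hb hBi hBi' hYbpd hYbB) hW
  rw [hVd] at c1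
  rw [hWd] at c2
  have p1 := (pd_compress hA hV).det_pos
  have p2 := (pd_compress hB hW).det_pos
  have p3 := (pd_compress (pdS ha hA) hV).det_pos
  have p4 := (pd_compress (pdS hb hB) hW).det_pos
  set Dt := ((fromBlocks V 0 0 W)ᵀ * fromBlocks A X Xᵀ B * fromBlocks V 0 0 W).det with hDt
  have e1 : (Real.exp (pc Ya) * Real.exp (pc Yb)) ^ 2 ≤ Dt ^ 2 := by
    calc (Real.exp (pc Ya) * Real.exp (pc Yb)) ^ 2
        = Real.exp (pc Ya) ^ 2 * Real.exp (pc Yb) ^ 2 := by ring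
      _ ≤ ((Vᵀ * A * V).det * (Vᵀ * (Jaᵀ * A⁻¹ * Ja) * V).det) *
          ((Wᵀ * B * W).det * (Wᵀ * (Jbᵀ * B⁻¹ * Jb) * W).det) := by
          apply mul_le_mul c1 c2 (by positivity) (by positivity)
      _ = ((Vᵀ * A * V).det * (Wᵀ * (Jbᵀ * B⁻¹ * Jb) * W).det) *
          ((Wᵀ * B * W).det * (Vᵀ * (Jaᵀ * A⁻¹ * Ja) * V).det) := by ring
      _ ≤ Dt * Dt := by
          apply mul_le_mul d1 d2 (by positivity)
          exact le_trans (by positivity) d1
      _ = Dt ^ 2 := by ring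
  have hDt0 : 0 ≤ Dt := le_trans (by positivity) d1
  have e2 : Real.exp (pc Ya) * Real.exp (pc Yb) ≤ Dt := by
    have := abs_le_of_sq_le_sq e1 hDt0
    exact (le_abs_self _).trans this
  rw [← Real.exp_add] at e2
  exact Real.exp_le_exp.mp (e2.trans hD)

end sympl

end Pool.Agent.V11263.Gauss
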