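import Pool.Agent.V11263.GaussB

/-! The squeezing cost of symplectic matrices, and the measure `G`. -/

namespace Pool.Agent.V11263.Gauss

open Matrix Polynomial

section cost

variable {α β : Type*} [Fintype α] [DecidableEq α] [Fintype β] [DecidableEq β]

lemma gramH (S : Matrix α α ℝ) : (Sᵀ * S).IsHermitian := by
  have := Matrix.isHermitian_conjTranspose_mul_self S
  rwa [Matrix.conjTranspose_eq_transpose_of_trivial] at this

/-- The singular values of `S` in decreasing order: the square roots of the decreasingly ordered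
eigenvalues of `Sᵀ S`. -/
noncomputable def singVal (S : Matrix α α ℝ) (i : Fin (Fintype.card α)) : ℝ :=
  Real.sqrt ((gramH S).eigenvalues₀ i)

/-- The sum of the logarithms of the `n` largest singular values. -/
noncomputable def topLog (S : Matrix α α ℝ) (n : ℕ) (h : n ≤ Fintype.card α) : ℝ :=
  ∑ i : Fin n, Real.log (singVal S (Fin.castLE h i))

variable {J : Matrix α α ℝ}

lemma roots_eig {Z : Matrix α α ℝ} (hZ : Z.IsHermitian) :
    Z.charpoly.roots = Finset.univ.val.map hZ.eigenvalues₀ := by
  have := hZ.roots_charpoly_eq_eigenvalues₀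
  exact this

lemma sum_inv {Z : Matrix α α ℝ} (hJ : IsCS J) (hZ : Z.PosDef) (h : Z * J * Z = J)
    (g : ℝ → ℝ) : ∑ i, g (hZ.isHermitian.eigenvalues₀ i) =
      ∑ i, g (hZ.isHermitian.eigenvalues₀ i)⁻¹ := by
  obtain ⟨U, a, hU, hU', hZe, -, h0⟩ := spec hZ.isHermitian
  have hp := h0 hZ
  have hYi : Z * fn U a (fun x => x⁻¹) = 1 := by
    rw [hZe]
    change fn U a (fun x => x) * _ = 1
    rw [fn_mul hU', ← fn_one hU a]
    exact fn_congr fun i => mul_inv_cancel₀ (hp i).ne'
  have h1 : Z * J = J * fn U a (fun x => x⁻¹) := by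
    calc Z * J = Z * J * (Z * fn U a (fun x => x⁻¹)) := by rw [hYi, mul_one]
      _ = (Z * J * Z) * fn U a (fun x => x⁻¹) := by simp only [mul_assoc]
      _ = _ := by rw [h]
  have h2 : fn U a (fun x => x⁻¹) = Jᵀ * Z * J := by
    rw [mul_assoc, h1, ← mul_assoc, hJ.tmul, one_mul]
  have h3 : (fn U a (fun x => x⁻¹)).charpoly = Z.charpoly := by
    rw [h2, Matrix.charpoly_mul_comm, ← mul_assoc, hJ.mult, one_mul]
  have r1 : Z.charpoly.roots = Finset.univ.val.map a := by
    nth_rewrite 1 [hZe]
    rw [charpoly_conj hU', roots_diag]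
  have r2 : Z.charpoly.roots = Finset.univ.val.map (fun i => (a i)⁻¹) := by
    rw [← h3, fn, charpoly_conj hU', roots_diag]
  have r0 := roots_eig hZ.isHermitian
  have e1 : ∀ g : ℝ → ℝ, ∑ i, g (hZ.isHermitian.eigenvalues₀ i) =
      (Z.charpoly.roots.map g).sum := by
    intro g
    rw [r0, Multiset.map_map]
    rfl
  rw [e1, e1 (fun x => g x⁻¹)]
  nth_rewrite 1 [r2]
  rw [r1, Multiset.map_map, Multiset.map_map]
  rfl

lemma pc_eig {Z : Matrix α α ℝ} (hZ : Z.IsHermitian) :
    pc Z = ∑ i, max 0 (Real.log (hZ.eigenvalues₀ i)) := by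
  rw [pc, roots_eig hZ, Multiset.map_map]
  rfl

lemma eig_pos {Z : Matrix α α ℝ} (hZ : Z.PosDef) (i : Fin (Fintype.card α)) :
    0 < hZ.isHermitian.eigenvalues₀ i := by
  have h := hZ.eigenvalues_pos ((Fintype.equivOfCardEq (Fintype.card_fin _)) i)
  unfold Matrix.IsHermitian.eigenvalues at h
  rwa [Equiv.symm_apply_apply] at h

lemma topLog_eq (hJ : IsCS J) {S : Matrix α α ℝ} (hS : Sym J S) (n : ℕ)
    (hn : Fintype.card α = n + n) (h : n ≤ Fintype.card α) :
    topLog S n h = 1 / 2 * pc (Sᵀ * S) := by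
  have hZ := hS.gram_pd hJ
  have hinv := sum_inv hJ hZ (hS.gram hJ)
  have hpos := eig_pos hZ
  have hanti := hZ.isHermitian.eigenvalues₀_antitone
  rw [topLog, pc_eig hZ.isHermitian]
  simp only [singVal]
  set lam := hZ.isHermitian.eigenvalues₀ with hlam
  have hcount : (Finset.univ.filter (fun i => 1 < lam i)).card =
      (Finset.univ.filter (fun i => lam i < 1)).card := by
    have h1 := hinv (fun x => if 1 < x then 1 else 0)
    have h2 : ∀ i, (if 1 < (lam i)⁻¹ then (1 : ℝ) else 0) = if lam i < 1 then 1 else 0 := by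
      intro i
      have : 1 < (lam i)⁻¹ ↔ lam i < 1 := one_lt_inv₀ (hpos i)
      simp only [this]
    simp only [h2] at h1
    rw [Finset.sum_boole, Finset.sum_boole] at h1
    exact_mod_cast h1
  have hsum : (Finset.univ.filter (fun i => 1 < lam i)).card +
      (Finset.univ.filter (fun i => lam i < 1)).card ≤ n + n := by
    rw [← Finset.card_union_of_disjoint]
    · refine (Finset.card_le_univ _).trans ?_
      rw [Fintype.card_fin, hn]
    · rw [Finset.disjoint_filter]
      intro i _ h1 h2
      linarith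
  have hge : ∀ i : Fin (Fintype.card α), n ≤ i.val → lam i ≤ 1 := by
    intro i hi
    by_contra hc
    push Not at hc
    have hsub : Finset.Iic i ⊆ Finset.univ.filter (fun i => 1 < lam i) := by
      intro j hj
      rw [Finset.mem_Iic] at hj
      rw [Finset.mem_filter]
      exact ⟨Finset.mem_univ _, lt_of_lt_of_le hc (hanti hj)⟩
    have h1 := Finset.card_le_card hsub
    rw [Fin.card_Iic] at h1
    omega
  have hle : ∀ i : Fin (Fintype.card α), i.val < n → 1 ≤ lam i := by
    intro i hi
    by_contra hc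
    push Not at hc
    have hsub : Finset.Ici i ⊆ Finset.univ.filter (fun i => lam i < 1) := by
      intro j hj
      rw [Finset.mem_Ici] at hj
      rw [Finset.mem_filter]
      exact ⟨Finset.mem_univ _, lt_of_le_of_lt (hanti hj) hc⟩
    have h1 := Finset.card_le_card hsub
    rw [Fin.card_Ici] at h1
    omega
  have hsplit : ∀ f : Fin (Fintype.card α) → ℝ, ∑ i, f i =
      ∑ i : Fin n, f (Fin.castLE h i) + ∑ i : Fin n, f (Fin.cast hn.symm (Fin.natAdd n i)) := by
    intro f
    have e := (finCongr hn.symm).sum_comp f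
    rw [← e, Fin.sum_univ_add]
    rfl
  rw [hsplit (fun i => max 0 (Real.log (lam i)))]
  have z2 : ∑ i : Fin n, max 0 (Real.log (lam (Fin.cast hn.symm (Fin.natAdd n i)))) = 0 := by
    refine Finset.sum_eq_zero fun i _ => ?_
    have := hge (Fin.cast hn.symm (Fin.natAdd n i)) (by simp)
    exact max_eq_left (Real.log_nonpos (hpos _).le this)
  rw [z2, add_zero, Finset.mul_sum]
  refine Finset.sum_congr rfl fun i _ => ?_
  have := hle (Fin.castLE h i) (by simp)
  rw [max_eq_right (Real.log_nonneg this), Real.log_sqrt (hpos _).le]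
  ring

end cost

end Pool.Agent.V11263.Gauss
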