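import Pool.Agent.V11263.GaussC

/-! Covariance matrices and the squeezing measure `G`. -/

namespace Pool.Agent.V11263.Gauss

open Matrix
open scoped Kronecker ComplexOrder

/-- The symplectic form on `n` modes. Phase space coordinates are indexed by pairs
`(i, a) : Fin n × Fin 2`, with `(i, 0)` standing for `Q_i` and `(i, 1)` for `P_i`. -/
def symplForm (n : ℕ) : Matrix (Fin n × Fin 2) (Fin n × Fin 2) ℝ :=
  (1 : Matrix (Fin n) (Fin n) ℝ) ⊗ₖ !![0, 1; -1, 0]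

/-- Real symplectic matrices: `Sᵀ σ S = σ`. -/
def IsSymplectic {n : ℕ} (S : Matrix (Fin n × Fin 2) (Fin n × Fin 2) ℝ) : Prop :=
  Sᵀ * symplForm n * S = symplForm n

/-- Covariance matrices: real symmetric `γ` with `γ - iσ` positive semidefinite. -/
def IsCovariance {n : ℕ} (γ : Matrix (Fin n × Fin 2) (Fin n × Fin 2) ℝ) : Prop :=
  γᵀ = γ ∧ (γ.map Complex.ofRealHom - Complex.I • (symplForm n).map Complex.ofRealHom).PosSemidef

lemma le_card (n : ℕ) : n ≤ Fintype.card (Fin n × Fin 2) := by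
  rw [Fintype.card_prod, Fintype.card_fin, Fintype.card_fin]; omega

/-- `∑_{i ≤ n} log s_i↓(S)`, the sum over the `n` largest singular values. -/
noncomputable def squeezing {n : ℕ} (S : Matrix (Fin n × Fin 2) (Fin n × Fin 2) ℝ) : ℝ :=
  topLog S n (le_card n)

/-- The admissible values in the definition of `G`. -/
def admissible {n : ℕ} (γ : Matrix (Fin n × Fin 2) (Fin n × Fin 2) ℝ) : Set ℝ :=
  {c | ∃ S : Matrix (Fin n × Fin 2) (Fin n × Fin 2) ℝ,
    IsSymplectic S ∧ (γ - Sᵀ * S).PosSemidef ∧ c = squeezing S}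

/-- The squeezing measure `G`. -/
noncomputable def G {n : ℕ} (γ : Matrix (Fin n × Fin 2) (Fin n × Fin 2) ℝ) : ℝ :=
  sInf (admissible γ)

section basic

variable {n : ℕ}

lemma symplForm_cs (n : ℕ) : IsCS (symplForm n) where
  skew := by
    have h : (!![0, 1; -1, 0] : Matrix (Fin 2) (Fin 2) ℝ)ᵀ = -!![0, 1; -1, 0] := by
      ext i j; fin_cases i <;> fin_cases j <;> simp
    have e : (symplForm n)ᵀ = (1 : Matrix (Fin n) (Fin n) ℝ)ᵀ ⊗ₖ
        (!![0, 1; -1, 0] : Matrix (Fin 2) (Fin 2) ℝ)ᵀ := by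
      rw [symplForm, Matrix.kroneckerMap_transpose]
    rw [e, h, Matrix.transpose_one, symplForm]
    ext p q
    exact mul_neg _ _
  sq := by
    have h : (!![0, 1; -1, 0] : Matrix (Fin 2) (Fin 2) ℝ) * !![0, 1; -1, 0] = -1 := by
      ext i j; fin_cases i <;> fin_cases j <;>
        simp [Matrix.mul_apply, Fin.sum_univ_two]
    have h2 : (1 : Matrix (Fin n) (Fin n) ℝ) ⊗ₖ (-1 : Matrix (Fin 2) (Fin 2) ℝ) =
        -((1 : Matrix (Fin n) (Fin n) ℝ) ⊗ₖ (1 : Matrix (Fin 2) (Fin 2) ℝ)) := by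
      ext p q
      exact mul_neg _ _
    rw [symplForm, ← Matrix.mul_kronecker_mul, h, one_mul, h2, Matrix.one_kronecker_one]

lemma squeezing_eq {S : Matrix (Fin n × Fin 2) (Fin n × Fin 2) ℝ} (h : IsSymplectic S) :
    squeezing S = 1 / 2 * pc (Sᵀ * S) := by
  apply topLog_eq (symplForm_cs n) h
  rw [Fintype.card_prod, Fintype.card_fin, Fintype.card_fin]; omega

lemma IsCovariance.unc {γ : Matrix (Fin n × Fin 2) (Fin n × Fin 2) ℝ} (h : IsCovariance γ) :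
    Unc (symplForm n) γ := by
  refine ⟨h.1, fun u v => ?_⟩
  set uc : Fin n × Fin 2 → ℂ := fun i => (u i : ℂ) with huc
  set vc : Fin n × Fin 2 → ℂ := fun i => (v i : ℂ) with hvc
  have h1 := (Matrix.posSemidef_iff_dotProduct_mulVec.mp h.2).2 (uc + Complex.I • vc)
  have h2 := (Complex.le_def.mp h1).1
  have hm : ∀ (P : Matrix (Fin n × Fin 2) (Fin n × Fin 2) ℝ) (a b : Fin n × Fin 2 → ℝ),
      (fun i => (a i : ℂ)) ⬝ᵥ (P.map Complex.ofRealHom) *ᵥ (fun i => (b i : ℂ)) =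
        ((a ⬝ᵥ P *ᵥ b : ℝ) : ℂ) := by
    intro P a b
    simp [dotProduct, Matrix.mulVec]
  have hsu : star uc = uc := by funext i; simp [huc]
  have hsv : star vc = vc := by funext i; simp [hvc]
  have e : star (uc + Complex.I • vc) ⬝ᵥ (γ.map Complex.ofRealHom -
      Complex.I • (symplForm n).map Complex.ofRealHom) *ᵥ (uc + Complex.I • vc) =
      ((u ⬝ᵥ γ *ᵥ u + v ⬝ᵥ γ *ᵥ v + (u ⬝ᵥ symplForm n *ᵥ v - v ⬝ᵥ symplForm n *ᵥ u) : ℝ) : ℂ) +
      Complex.I * ((u ⬝ᵥ γ *ᵥ v - v ⬝ᵥ γ *ᵥ u - (u ⬝ᵥ symplForm n *ᵥ u +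
        v ⬝ᵥ symplForm n *ᵥ v) : ℝ) : ℂ) := by
    rw [star_add, star_smul, hsu, hsv, Matrix.sub_mulVec, Matrix.mulVec_add, Matrix.smul_mulVec,
      Matrix.mulVec_add, Matrix.mulVec_smul, Matrix.mulVec_smul]
    simp only [add_dotProduct, dotProduct_sub, dotProduct_add, smul_dotProduct,
      dotProduct_smul, huc, hvc, hm, smul_eq_mul, Complex.star_def, Complex.conj_I]
    push_cast
    have hI := Complex.I_mul_I
    linear_combination (-((v ⬝ᵥ γ *ᵥ v : ℝ) : ℂ) - ((u ⬝ᵥ symplForm n *ᵥ v : ℝ) : ℂ) +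
      ((v ⬝ᵥ symplForm n *ᵥ u : ℝ) : ℂ) + Complex.I * ((v ⬝ᵥ symplForm n *ᵥ v : ℝ) : ℂ)) * hI
  rw [e] at h2
  simp only [Complex.zero_re, Complex.add_re, Complex.ofReal_re, Complex.mul_re, Complex.I_re,
    Complex.I_im, Complex.ofReal_im, zero_mul, mul_zero, sub_zero, add_zero] at h2
  have hsk : v ⬝ᵥ symplForm n *ᵥ u = -(u ⬝ᵥ symplForm n *ᵥ v) := by
    rw [Matrix.dotProduct_mulVec, ← Matrix.mulVec_transpose, (symplForm_cs n).skew,
      Matrix.neg_mulVec, neg_dotProduct, dotProduct_comm]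
  rw [hsk] at h2
  linarith

lemma admissible_nonempty {γ : Matrix (Fin n × Fin 2) (Fin n × Fin 2) ℝ}
    (h : IsCovariance γ) : (admissible γ).Nonempty := by
  obtain ⟨Y, -, hYpd, hYs, hYle, -⟩ := pure_part (symplForm_cs n) h.unc
  obtain ⟨S, -, hSt, -, hSS, -, -, hSJ⟩ := sqrt_sym (symplForm_cs n) hYpd hYs
  exact ⟨_, S, by rw [IsSymplectic, hSt, hSJ], by rw [hSt, hSS]; exact hYle, rfl⟩

lemma squeezing_nonneg {S : Matrix (Fin n × Fin 2) (Fin n × Fin 2) ℝ} (h : IsSymplectic S) :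
    0 ≤ squeezing S := by
  rw [squeezing_eq h]
  have := pc_nonneg (Sᵀ * S)
  positivity

lemma admissible_bdd (γ : Matrix (Fin n × Fin 2) (Fin n × Fin 2) ℝ) :
    BddBelow (admissible γ) := by
  refine ⟨0, ?_⟩
  rintro c ⟨S, hS, -, rfl⟩
  exact squeezing_nonneg hS

lemma G_le {γ : Matrix (Fin n × Fin 2) (Fin n × Fin 2) ℝ}
    {S : Matrix (Fin n × Fin 2) (Fin n × Fin 2) ℝ} (hS : IsSymplectic S)
    (h : (γ - Sᵀ * S).PosSemidef) : G γ ≤ squeezing S :=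
  csInf_le (admissible_bdd γ) ⟨S, hS, h, rfl⟩

end basic

end Pool.Agent.V11263.Gauss
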