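import Pool.Agent.V11263.GaussD

/-! Williamson normal form. -/

namespace Pool.Agent.V11263.Gauss

open Matrix
open scoped Kronecker ComplexOrder

variable {n : ℕ}

/-- real form of a complex matrix -/
def realify (c : Matrix (Fin n) (Fin n) ℂ) : Matrix (Fin n × Fin 2) (Fin n × Fin 2) ℝ :=
  Matrix.of fun p q => if p.2 = q.2 then (c p.1 q.1).re else
    if p.2 = 0 then (c p.1 q.1).im else -(c p.1 q.1).im

lemma realify_mul (c d : Matrix (Fin n) (Fin n) ℂ) :
    realify (c * d) = realify c * realify d := by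
  ext ⟨i, a⟩ ⟨k, b⟩
  simp only [realify, Matrix.of_apply, Matrix.mul_apply, Fintype.sum_prod_type,
    Fin.sum_univ_two, Complex.re_sum, Complex.im_sum, Complex.mul_re, Complex.mul_im]
  have hs : ∀ f : Fin n → ℝ, -∑ j, f j = ∑ j, -f j := fun f => Finset.sum_neg_distrib _ |>.symm
  fin_cases a <;> fin_cases b
  · simp only [Fin.zero_eta, if_true]
    refine Finset.sum_congr rfl fun j _ => ?_
    simp
    ring
  · simp only [Fin.zero_eta, Fin.mk_one, zero_ne_one, if_false, if_true]
  · simp only [Fin.zero_eta, Fin.mk_one, one_ne_zero, if_false, if_true, hs]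
    refine Finset.sum_congr rfl fun j _ => ?_
    ring
  · simp only [Fin.mk_one, if_true]
    refine Finset.sum_congr rfl fun j _ => ?_
    simp
    ring

lemma realify_star (c : Matrix (Fin n) (Fin n) ℂ) : realify cᴴ = (realify c)ᵀ := by
  ext ⟨i, a⟩ ⟨k, b⟩
  fin_cases a <;> fin_cases b <;>
    simp [realify, Matrix.conjTranspose_apply]

lemma realify_one : realify (1 : Matrix (Fin n) (Fin n) ℂ) = 1 := by
  ext ⟨i, a⟩ ⟨k, b⟩
  by_cases h : i = k
  · subst h
    fin_cases a <;> fin_cases b <;> simp [realify, Matrix.one_apply]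
  · fin_cases a <;> fin_cases b <;> simp [realify, Matrix.one_apply, h]

lemma realify_I : realify (Complex.I • (1 : Matrix (Fin n) (Fin n) ℂ)) = symplForm n := by
  ext ⟨i, a⟩ ⟨k, b⟩
  by_cases h : i = k
  · subst h
    fin_cases a <;> fin_cases b <;>
      simp [realify, symplForm, Matrix.kroneckerMap_apply]
  · fin_cases a <;> fin_cases b <;>
      simp [realify, symplForm, Matrix.one_apply, h, Matrix.kroneckerMap_apply]

/-- the doubled diagonal matrix `diag(d₁, d₁, …, d_n, d_n)` -/
def dd (d : Fin n → ℝ) : Matrix (Fin n × Fin 2) (Fin n × Fin 2) ℝ := diagonal fun p => d p.1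

lemma realify_diag (d : Fin n → ℝ) : realify (diagonal fun i => (d i : ℂ)) = dd d := by
  ext ⟨i, a⟩ ⟨k, b⟩
  by_cases h : i = k
  · subst h
    fin_cases a <;> fin_cases b <;> simp [realify, dd, Matrix.diagonal_apply]
  · fin_cases a <;> fin_cases b <;> simp [realify, dd, Matrix.diagonal_apply, h]

lemma realify_surj {D : Matrix (Fin n × Fin 2) (Fin n × Fin 2) ℝ}
    (h : D * symplForm n = symplForm n * D) (hD : Dᵀ = D) :
    ∃ c : Matrix (Fin n) (Fin n) ℂ, cᴴ = c ∧ realify c = D := by
  have h1 : ∀ i k, D (i, 1) (k, 0) = - D (i, 0) (k, 1) := by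
    intro i k
    have e := congrFun (congrFun h (i, 0)) (k, 0)
    simp [symplForm, Matrix.mul_apply, Fintype.sum_prod_type, Matrix.kroneckerMap_apply,
      Matrix.one_apply] at e
    linarith
  have h2 : ∀ i k, D (i, 1) (k, 1) = D (i, 0) (k, 0) := by
    intro i k
    have e := congrFun (congrFun h (i, 0)) (k, 1)
    simp [symplForm, Matrix.mul_apply, Fintype.sum_prod_type, Matrix.kroneckerMap_apply,
      Matrix.one_apply] at e
    linarith
  have h3 : ∀ p q, D p q = D q p := fun p q => by
    conv_lhs => rw [← hD]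
    rfl
  refine ⟨Matrix.of fun i k => ⟨D (i, 0) (k, 0), D (i, 0) (k, 1)⟩, ?_, ?_⟩
  · ext i k
    rw [Matrix.conjTranspose_apply]
    apply Complex.ext
    · simp [h3 (k, 0) (i, 0)]
    · simp only [Matrix.of_apply, Complex.star_def, Complex.conj_im]
      rw [h3 (k, 0) (i, 1), h1, neg_neg]
  · ext ⟨i, a⟩ ⟨k, b⟩
    fin_cases a <;> fin_cases b <;> simp [realify, h1, h2]

/-- Williamson's theorem. -/
theorem williamson {γ : Matrix (Fin n × Fin 2) (Fin n × Fin 2) ℝ} (h : IsCovariance γ) :
    ∃ (T : Matrix (Fin n × Fin 2) (Fin n × Fin 2) ℝ) (d : Fin n → ℝ),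
      IsSymplectic T ∧ (∀ i, 1 ≤ d i) ∧ γ = Tᵀ * dd d * T := by
  have hJ := symplForm_cs n
  obtain ⟨Y, hYt, hYpd, hYs, hYle, hYA⟩ := pure_part hJ h.unc
  obtain ⟨S, R, hSt, hRt, hSS, hSR, hRS, hSJ⟩ := sqrt_sym hJ hYpd hYs
  obtain ⟨D, hD⟩ : ∃ D, D = R * γ * R := ⟨_, rfl⟩
  have hγ : γ = S * D * S := by
    rw [hD]
    calc γ = (S * R) * γ * (R * S) := by rw [hSR, hRS, one_mul, mul_one]
      _ = _ := by simp only [mul_assoc]
  have hDt : Dᵀ = D := by
    rw [hD, Matrix.transpose_mul, Matrix.transpose_mul, hRt, h.1, mul_assoc]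
  have hDge : (D - 1).PosSemidef := by
    have e : D - 1 = Rᵀ * (γ - Y) * R := by
      rw [hRt, mul_sub, sub_mul, ← hD, ← hSS]
      congr 1
      calc (1 : Matrix _ _ ℝ) = (R * S) * (S * R) := by rw [hRS, hSR, one_mul]
        _ = _ := by simp only [mul_assoc]
    rw [e]
    exact psd_compress hYle R
  have hDc : D * symplForm n = symplForm n * D := by
    have e1 : D = (symplForm n)ᵀ * D * symplForm n := by
      have e2 : γ = S * (S * (symplForm n)ᵀ * S) * D * (S * symplForm n * S) * S := by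
        nth_rewrite 1 [← hYA]
        rw [← hSS, hγ]
        simp only [mul_assoc]
      have e3 : S * (symplForm n)ᵀ * S = (symplForm n)ᵀ := by
        have := congrArg Matrix.transpose hSJ
        rwa [Matrix.transpose_mul, Matrix.transpose_mul, hSt, ← mul_assoc] at this
      rw [e3, hSJ] at e2
      calc D = R * γ * R := hD
        _ = R * (S * (symplForm n)ᵀ * D * symplForm n * S) * R := by rw [← e2]
        _ = (R * S) * ((symplForm n)ᵀ * D * symplForm n) * (S * R) := by simp only [mul_assoc]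
        _ = _ := by rw [hRS, hSR, one_mul, mul_one]
    calc D * symplForm n = (symplForm n * (symplForm n)ᵀ) * (D * symplForm n) := by
          rw [hJ.mult, one_mul]
      _ = symplForm n * ((symplForm n)ᵀ * D * symplForm n) := by simp only [mul_assoc]
      _ = symplForm n * D := by rw [← e1]
  obtain ⟨c, hc, hcD⟩ := realify_surj hDc hDt
  have hcH : c.IsHermitian := hc
  set U : Matrix (Fin n) (Fin n) ℂ := (hcH.eigenvectorUnitary : Matrix (Fin n) (Fin n) ℂ) with hU
  have hUU : Uᴴ * U = 1 := Unitary.coe_star_mul_self hcH.eigenvectorUnitary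
  have hUU' : U * Uᴴ = 1 := Unitary.coe_mul_star_self hcH.eigenvectorUnitary
  have hcs : c = U * diagonal (fun i => (hcH.eigenvalues i : ℂ)) * Uᴴ := by
    conv_lhs => rw [hcH.spectral_theorem]
    rfl
  set O := realify U with hO
  have hOO : Oᵀ * O = 1 := by rw [hO, ← realify_star, ← realify_mul, hUU, realify_one]
  have hOJ : symplForm n * O = O * symplForm n := by
    rw [hO, ← realify_I, ← realify_mul, ← realify_mul]
    simp
  have hDO : D = O * dd hcH.eigenvalues * Oᵀ := by
    rw [← hcD, hO, ← realify_star, ← realify_diag, ← realify_mul, ← realify_mul, ← hcs]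
  refine ⟨Oᵀ * S, hcH.eigenvalues, ?_, ?_, ?_⟩
  · have hOO' : O * Oᵀ = 1 := mul_eq_one_comm.mp hOO
    rw [IsSymplectic, Matrix.transpose_mul, Matrix.transpose_transpose, hSt]
    have hOJt : symplForm n * Oᵀ = Oᵀ * symplForm n := by
      calc symplForm n * Oᵀ = (Oᵀ * O) * symplForm n * Oᵀ := by rw [hOO, one_mul]
        _ = Oᵀ * (O * symplForm n) * Oᵀ := by simp only [mul_assoc]
        _ = Oᵀ * symplForm n * (O * Oᵀ) := by rw [← hOJ]; simp only [mul_assoc]
        _ = _ := by rw [hOO', mul_one]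
    calc S * O * symplForm n * (Oᵀ * S) = S * O * (symplForm n * Oᵀ) * S := by
          simp only [mul_assoc]
      _ = S * (O * Oᵀ) * symplForm n * S := by rw [hOJt]; simp only [mul_assoc]
      _ = symplForm n := by rw [hOO', mul_one, hSJ]
  · intro i
    have h1 := psd_compress hDge O
    have h2 : Oᵀ * (D - 1) * O = dd hcH.eigenvalues - 1 := by
      rw [mul_sub, sub_mul, mul_one, hOO, hDO]
      congr 1
      calc Oᵀ * (O * dd hcH.eigenvalues * Oᵀ) * O
          = (Oᵀ * O) * dd hcH.eigenvalues * (Oᵀ * O) := by simp only [mul_assoc]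
        _ = _ := by rw [hOO, one_mul, mul_one]
    rw [h2] at h1
    have h3 := h1.diag_nonneg (i := (i, 0))
    simp only [dd, Matrix.sub_apply, Matrix.diagonal_apply_eq, Matrix.one_apply_eq] at h3
    linarith
  · rw [Matrix.transpose_mul, Matrix.transpose_transpose, hSt, hγ, hDO]
    simp only [mul_assoc]

end Pool.Agent.V11263.Gauss
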