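import Pool.Agent.V11263.GaussE

/-! Topological lemmas for the squeezing measure `G`. -/

namespace Pool.Agent.V11263.Gauss

open Matrix Topology Filter

section dom

variable {α : Type*} [Fintype α] [DecidableEq α]

lemma exists_lower (a : α → ℝ) (ha : ∀ i, 0 < a i) : ∃ m : ℝ, 0 < m ∧ ∀ i, m ≤ a i := by
  have hs : ∀ i, (a i)⁻¹ ≤ ∑ j, (a j)⁻¹ := fun i =>
    Finset.single_le_sum (fun j _ => (inv_pos.mpr (ha j)).le) (Finset.mem_univ i)
  have h0 : 0 ≤ ∑ j, (a j)⁻¹ := Finset.sum_nonneg fun j _ => (inv_pos.mpr (ha j)).le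
  refine ⟨(∑ j, (a j)⁻¹ + 1)⁻¹, by positivity, fun i => ?_⟩
  rw [inv_le_comm₀ (by positivity) (ha i)]
  linarith [hs i]

lemma exists_lower_pd {Z : Matrix α α ℝ} (hZ : Z.PosDef) :
    ∃ m : ℝ, 0 < m ∧ (Z - m • (1 : Matrix α α ℝ)).PosSemidef := by
  obtain ⟨U, a, hU, hU', hZe, -, h0⟩ := spec hZ.isHermitian
  obtain ⟨m, hm, hma⟩ := exists_lower a (h0 hZ)
  refine ⟨m, hm, ?_⟩
  have e : Z - m • (1 : Matrix α α ℝ) = fn U a (fun x => x - m) := by
    rw [← fn_sub U a (fun x => x) (fun _ => m)]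
    congr 1
    · rw [fn]
      have : (diagonal fun _ : α => m) = m • (1 : Matrix α α ℝ) := by
        rw [Matrix.smul_one_eq_diagonal]
      rw [this, mul_smul_comm, smul_mul_assoc, mul_one, hU]
  rw [e]
  exact fn_psd fun i => sub_nonneg.mpr (hma i)

lemma small_psd {E : Matrix α α ℝ} (hE : Eᵀ = E) {δ b : ℝ} (hδ : 0 ≤ δ)
    (h : ∀ i j, |E i j| ≤ δ) (hb : Fintype.card α * δ ≤ b) :
    (b • (1 : Matrix α α ℝ) - E).PosSemidef := by
  have hH : (b • (1 : Matrix α α ℝ) - E).IsHermitian := by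
    rw [Matrix.IsHermitian, Matrix.conjTranspose_eq_transpose_of_trivial, Matrix.transpose_sub,
      Matrix.transpose_smul, Matrix.transpose_one, hE]
  rw [Matrix.posSemidef_iff_dotProduct_mulVec]
  refine ⟨hH, fun x => ?_⟩
  simp only [star_trivial]
  rw [Matrix.sub_mulVec, dotProduct_sub, Matrix.smul_mulVec, Matrix.one_mulVec, dotProduct_smul,
    smul_eq_mul, sub_nonneg]
  have h1 : x ⬝ᵥ E *ᵥ x ≤ ∑ i, ∑ j, δ * ((x i ^ 2 + x j ^ 2) / 2) := by
    simp only [dotProduct, Matrix.mulVec, Finset.mul_sum]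
    refine Finset.sum_le_sum fun i _ => Finset.sum_le_sum fun j _ => ?_
    calc x i * (E i j * x j) ≤ |x i * (E i j * x j)| := le_abs_self _
      _ = |E i j| * |x i * x j| := by rw [abs_mul, abs_mul, abs_mul]; ring
      _ ≤ δ * ((x i ^ 2 + x j ^ 2) / 2) := by
          apply mul_le_mul (h i j) _ (abs_nonneg _) hδ
          rw [abs_le]
          constructor
          · nlinarith [sq_nonneg (x i + x j)]
          · nlinarith [sq_nonneg (x i - x j)]
  have h2 : ∑ i, ∑ j, δ * ((x i ^ 2 + x j ^ 2) / 2) = Fintype.card α * δ * (x ⬝ᵥ x) := by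
    have e : ∀ i j, δ * ((x i ^ 2 + x j ^ 2) / 2) = δ / 2 * x i ^ 2 + δ / 2 * x j ^ 2 := by
      intro i j; ring
    simp only [e, Finset.sum_add_distrib, Finset.sum_const, Finset.card_univ, nsmul_eq_mul,
      ← Finset.mul_sum, dotProduct]
    have e2 : ∑ i, x i * x i = ∑ i, x i ^ 2 := Finset.sum_congr rfl fun i _ => by ring
    rw [e2]
    ring
  have h3 : 0 ≤ x ⬝ᵥ x := by
    rw [dotProduct]; exact Finset.sum_nonneg fun i _ => mul_self_nonneg _
  calc x ⬝ᵥ E *ᵥ x ≤ _ := h1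
    _ = _ := h2
    _ ≤ _ := mul_le_mul_of_nonneg_right hb h3

/-- domination of nearby matrices -/
lemma dom {Z : Matrix α α ℝ} (hZ : Z.PosDef) {c : ℝ} (hc : 1 < c) {ι : Type*} {l : Filter ι}
    {W : ι → Matrix α α ℝ} (hW : Tendsto W l (𝓝 Z)) (hWt : ∀ k, (W k)ᵀ = W k) :
    ∀ᶠ k in l, (c • Z - W k).PosSemidef ∧ (c • W k - Z).PosSemidef := by
  obtain ⟨m, hm, hmZ⟩ := exists_lower_pd hZ
  have hZt : Zᵀ = Z := by
    have := hZ.isHermitian.eq
    rwa [Matrix.conjTranspose_eq_transpose_of_trivial] at this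
  obtain ⟨δ, hδ, hδ2⟩ : ∃ δ : ℝ, 0 < δ ∧ c * (Fintype.card α * δ) ≤ (c - 1) * m := by
    refine ⟨(c - 1) * m / (c * (Fintype.card α + 1)), by
      have : 0 < c - 1 := by linarith
      positivity, ?_⟩
    have h1 : c * (Fintype.card α * ((c - 1) * m / (c * (Fintype.card α + 1)))) =
        (c - 1) * m * (Fintype.card α / (Fintype.card α + 1)) := by
      field_simp
    rw [h1]
    have h2 : (Fintype.card α : ℝ) / (Fintype.card α + 1) ≤ 1 := by
      rw [div_le_one (by positivity)]; linarith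
    have h3 : 0 ≤ (c - 1) * m := by
      have : 0 < c - 1 := by linarith
      positivity
    exact mul_le_of_le_one_right h3 h2
  have hev : ∀ᶠ k in l, ∀ i j, |W k i j - Z i j| ≤ δ := by
    rw [Filter.eventually_all]
    intro i
    rw [Filter.eventually_all]
    intro j
    have h1 : Tendsto (fun k => W k i j) l (𝓝 (Z i j)) := by
      have := (tendsto_pi_nhds.mp (tendsto_pi_nhds.mp hW i)) j
      exact this
    have h2 := (Metric.tendsto_nhds.mp h1) δ hδ
    filter_upwards [h2] with k hk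
    rw [Real.dist_eq] at hk
    exact hk.le
  filter_upwards [hev] with k hk
  have hc1 : 0 ≤ c - 1 := by linarith
  constructor
  · have e : c • Z - W k = (c - 1) • (Z - m • (1 : Matrix α α ℝ)) +
        (((c - 1) * m) • (1 : Matrix α α ℝ) - (W k - Z)) := by
      module
    rw [e]
    refine (hmZ.smul hc1).add (small_psd ?_ hδ.le hk ?_)
    · rw [Matrix.transpose_sub, hWt, hZt]
    · have : (Fintype.card α : ℝ) * δ ≤ c * (Fintype.card α * δ) :=
        le_mul_of_one_le_left (by positivity) hc.le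
      linarith
  · have e : c • W k - Z = (c - 1) • (Z - m • (1 : Matrix α α ℝ)) +
        (((c - 1) * m) • (1 : Matrix α α ℝ) - c • (Z - W k)) := by
      module
    rw [e]
    refine (hmZ.smul hc1).add (small_psd (δ := c * δ) ?_ (by positivity) ?_ ?_)
    · rw [Matrix.transpose_smul, Matrix.transpose_sub, hWt, hZt]
    · intro i j
      rw [Matrix.smul_apply, Matrix.sub_apply, smul_eq_mul, abs_mul, abs_of_pos (by linarith),
        abs_sub_comm]
      exact mul_le_mul_of_nonneg_left (hk i j) (by linarith)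
    · linarith

/-- the inverse is antitone -/
lemma inv_anti {A B : Matrix α α ℝ} (hA : A.PosDef) (hB : B.PosDef) (h : (B - A).PosSemidef) :
    (A⁻¹ - B⁻¹).PosSemidef := by
  have hu : IsUnit B := hB.isUnit
  have := hu.invertible
  have hu2 : IsUnit A⁻¹ := hA.inv.isUnit
  have := hu2.invertible
  have h1 := Matrix.PosDef.fromBlocks₁₁ (1 : Matrix α α ℝ) A⁻¹ hB
  have h2 := Matrix.PosDef.fromBlocks₂₂ B (1 : Matrix α α ℝ) hA.inv
  rw [Matrix.conjTranspose_one, one_mul, mul_one] at h1 h2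
  rw [← h1, h2, Matrix.nonsing_inv_nonsing_inv _ (by
    rw [← Matrix.isUnit_iff_isUnit_det]; exact hA.isUnit)]
  exact h

lemma psd_closed {ι : Type*} {l : Filter ι} [l.NeBot] {W : ι → Matrix α α ℝ} {Z : Matrix α α ℝ}
    (hW : Tendsto W l (𝓝 Z)) (h : ∀ k, (W k).PosSemidef) : Z.PosSemidef := by
  have hH : Z.IsHermitian := by
    have h1 : Tendsto (fun k => (W k)ᴴ) l (𝓝 Zᴴ) :=
      (continuous_id.matrix_conjTranspose.tendsto Z).comp hW
    have h2 : (fun k => (W k)ᴴ) = W := by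
      funext k; exact (h k).isHermitian.eq
    rw [h2] at h1
    exact tendsto_nhds_unique h1 hW
  rw [Matrix.posSemidef_iff_dotProduct_mulVec]
  refine ⟨hH, fun x => ?_⟩
  have hc : Continuous fun M : Matrix α α ℝ => star x ⬝ᵥ M *ᵥ x := by
    fun_prop
  have h1 : Tendsto (fun k => star x ⬝ᵥ W k *ᵥ x) l (𝓝 (star x ⬝ᵥ Z *ᵥ x)) :=
    (hc.tendsto Z).comp hW
  exact ge_of_tendsto' h1 fun k => (Matrix.posSemidef_iff_dotProduct_mulVec.mp (h k)).2 x

end dom

end Pool.Agent.V11263.Gauss
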